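import Mathlib.RingTheory.AlgebraicIndependent.TranscendenceBasis
import Mathlib.FieldTheory.IntermediateField.Basic
import Mathlib.Combinatorics.Matroid.Rank.ENat
import Mathlib.RingTheory.Algebraic.Integral
import Mathlib.Order.Filter.FilterProduct
import Mathlib.Order.Filter.Ultrafilter.Basic
import Mathlib.Analysis.SpecialFunctions.Log.Deriv

section
/-!
# A subset of the components which is algebraically independent over a field of constants
-/
set_option autoImplicit false

namespace Pool.Agent.Lib.MP_524521_nt.PN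

open Algebra

variable {K U : Type} [Field K] [Field U] [Algebra K U]

/-- the field of the elements which are algebraic over the ring generated by a set -/
noncomputable def Mf (W : Set U) : IntermediateField K U where
  carrier := {u | IsAlgebraic (adjoin K W) u}
  mul_mem' := fun ha hb => IsAlgebraic.mul ha hb
  one_mem' := isAlgebraic_one
  add_mem' := fun ha hb => IsAlgebraic.add ha hb
  zero_mem' := isAlgebraic_zero
  algebraMap_mem' := fun c => by
    have h : algebraMap K U c = algebraMap (adjoin K W) U (algebraMap K (adjoin K W) c) := rfl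
    change IsAlgebraic (adjoin K W) (algebraMap K U c)
    rw [h]
    exact isAlgebraic_algebraMap _
  inv_mem' := fun _ ha => IsAlgebraic.inv ha

lemma mem_Mf (W : Set U) (u : U) : u ∈ (Mf W : IntermediateField K U) ↔ IsAlgebraic (adjoin K W) u :=
  Iff.rfl

lemma subset_Mf (W : Set U) : W ⊆ ((Mf W : IntermediateField K U) : Set U) := by
  intro w hw
  exact isAlgebraic_algebraMap (⟨w, subset_adjoin hw⟩ : adjoin K W)

/-- elements of the ring -/
lemma alg_of_mem {s : Set U} {u : U} (h : u ∈ adjoin K s) : IsAlgebraic (adjoin K s) u :=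
  isAlgebraic_algebraMap (⟨u, h⟩ : adjoin K s)

/-- transitivity -/
lemma alg_trans {s t : Set U} (h : ∀ x ∈ s, IsAlgebraic (adjoin K t) x) {u : U}
    (hu : IsAlgebraic (adjoin K s) u) : IsAlgebraic (adjoin K t) u :=
  IsAlgebraic.adjoin_of_forall_isAlgebraic (fun x hx => h x hx.1) hu

lemma alg_mono {s t : Set U} (h : s ⊆ t) {u : U} (hu : IsAlgebraic (adjoin K s) u) :
    IsAlgebraic (adjoin K t) u :=
  alg_trans (fun x hx => isAlgebraic_algebraMap (⟨x, subset_adjoin (h hx)⟩ : adjoin K t)) hu

/-- algebraic over the ring generated over an intermediate field -/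
lemma alg_base (M : IntermediateField K U) (s : Set U) {u : U} (hu : IsAlgebraic (adjoin M s) u) :
    IsAlgebraic (adjoin K ((M : Set U) ∪ s)) u := by
  have hle : ∀ x ∈ adjoin M s, x ∈ adjoin K ((M : Set U) ∪ s) := by
    intro x hx
    induction hx using adjoin_induction with
    | mem x hx => exact subset_adjoin (Or.inr hx)
    | algebraMap r => exact subset_adjoin (Or.inl r.2)
    | add x y _ _ hx hy => exact add_mem hx hy
    | mul x y _ _ hx hy => exact mul_mem hx hy
  obtain ⟨p, hp, hpu⟩ := hu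
  obtain ⟨f, hf⟩ : ∃ f : adjoin M s →+* adjoin K ((M : Set U) ∪ s),
      ∀ x, ((f x : adjoin K ((M : Set U) ∪ s)) : U) = (x : U) :=
    ⟨(algebraMap (adjoin M s) U).codRestrict (adjoin K ((M : Set U) ∪ s)) fun x => hle x.1 x.2,
      fun _ => rfl⟩
  have hfi : Function.Injective f := by
    intro x y h
    apply Subtype.ext
    rw [← hf x, ← hf y, h]
  refine ⟨p.map f, (Polynomial.map_ne_zero_iff hfi).2 hp, ?_⟩
  rw [Polynomial.aeval_def, Polynomial.eval₂_map]
  rw [Polynomial.aeval_def] at hpu
  have h2 : (algebraMap (adjoin K ((M : Set U) ∪ s)) U).comp f = algebraMap (adjoin M s) U :=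
    RingHom.ext fun x => hf x
  rw [h2]
  exact hpu

/-- functoriality -/
lemma alg_map {K' V : Type} [Field K'] [Field V] [Algebra K' V] (g : U →+* V)
    (hg : ∀ c : K, ∃ c' : K', g (algebraMap K U c) = algebraMap K' V c') (s : Set U) {u : U}
    (hu : IsAlgebraic (adjoin K s) u) : IsAlgebraic (adjoin K' (g '' s)) (g u) := by
  have hle : ∀ x ∈ adjoin K s, g x ∈ adjoin K' (g '' s) := by
    intro x hx
    induction hx using adjoin_induction with
    | mem x hx => exact subset_adjoin ⟨x, hx, rfl⟩
    | algebraMap r =>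
      obtain ⟨c', hc'⟩ := hg r
      rw [hc']
      exact (adjoin K' (g '' s)).algebraMap_mem c'
    | add x y _ _ hx hy => rw [map_add]; exact add_mem hx hy
    | mul x y _ _ hx hy => rw [map_mul]; exact mul_mem hx hy
  obtain ⟨p, hp, hpu⟩ := hu
  obtain ⟨f, hf⟩ : ∃ f : adjoin K s →+* adjoin K' (g '' s),
      ∀ x, ((f x : adjoin K' (g '' s)) : V) = g (x : U) :=
    ⟨(g.comp (algebraMap (adjoin K s) U)).codRestrict (adjoin K' (g '' s)) fun x => hle x.1 x.2,
      fun _ => rfl⟩
  have hfi : Function.Injective f := by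
    intro x y h
    apply Subtype.ext
    apply g.injective
    rw [← hf x, ← hf y, h]
  refine ⟨p.map f, (Polynomial.map_ne_zero_iff hfi).2 hp, ?_⟩
  rw [Polynomial.aeval_def, Polynomial.eval₂_map]
  rw [Polynomial.aeval_def] at hpu
  have h2 : (algebraMap (adjoin K' (g '' s)) V).comp f = g.comp (algebraMap (adjoin K s) U) :=
    RingHom.ext fun x => hf x
  rw [h2, ← Polynomial.hom_eval₂, hpu, map_zero]

/-- bound of the number of algebraically independent elements -/
lemma card_le {ι : Type} [Fintype ι] {Y : ι → U} (hY : AlgebraicIndependent K Y) (W : Set U)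
    (n : ℕ) (hW : W.encard ≤ n) (h : ∀ i, IsAlgebraic (adjoin K W) (Y i)) : Fintype.card ι ≤ n := by
  have h1 : (AlgebraicIndependent.matroid K U).Indep (Set.range Y) := by
    rw [AlgebraicIndependent.matroid_indep_iff]
    exact hY.coe_range
  have h2 : Set.range Y ⊆ (AlgebraicIndependent.matroid K U).closure W := by
    rw [AlgebraicIndependent.matroid_closure_eq]
    rintro _ ⟨i, rfl⟩
    exact h i
  have h3 := h1.encard_le_eRk_of_subset h2
  rw [Matroid.eRk_closure_eq] at h3
  have h4 := h3.trans ((Matroid.eRk_le_encard _ W).trans hW)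
  have h5 : (Set.range Y).encard = Fintype.card ι := by
    rw [← Set.image_univ, hY.injective.encard_image, Set.encard_univ, ENat.card_eq_coe_fintype_card]
  rw [h5] at h4
  exact_mod_cast h4

/-- a basis of a set and its cardinality -/
lemma exists_basis (s : Set U) : ∃ B ⊆ s, AlgebraicIndepOn K id B ∧
    ∀ u ∈ s, IsAlgebraic (adjoin K B) u := by
  obtain ⟨B, hB⟩ := (AlgebraicIndependent.matroid K U).exists_isBasis s
  rw [AlgebraicIndependent.matroid_isBasis_iff] at hB
  exact ⟨B, hB.2.1, hB.1, hB.2.2⟩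

/-- **a large subset of the components is algebraically independent over the field of constants** -/
theorem exists_indep {ι κ : Type} [Fintype ι] [Fintype κ] [DecidableEq κ] (Y : ι → U)
    (hY : AlgebraicIndependent K Y) (M : IntermediateField K U) (W : Set U) (n : ℕ)
    (hW : W.encard ≤ n) (hM : ∀ u ∈ M, IsAlgebraic (adjoin K W) u) (Z : κ → U)
    (hYZ : ∀ i, IsAlgebraic (adjoin K ((M : Set U) ∪ Set.range Z)) (Y i)) :
    ∃ I : Finset κ, AlgebraicIndependent M (fun i : I => Z i) ∧ Fintype.card ι ≤ n + I.card := by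
  classical
  obtain ⟨I, hI, hmax⟩ : ∃ I : Finset κ, AlgebraicIndepOn M Z (I : Set κ) ∧
      ∀ j ∉ I, ¬ AlgebraicIndepOn M Z (insert j (I : Set κ)) := by
    have hfin : (Finset.univ.filter fun I : Finset κ => AlgebraicIndepOn M Z (I : Set κ)).Nonempty := by
      refine ⟨∅, ?_⟩
      rw [Finset.mem_filter]
      refine ⟨Finset.mem_univ _, ?_⟩
      rw [Finset.coe_empty]
      have : IsEmpty (∅ : Set κ) := inferInstance
      exact (algebraicIndependent_empty_type_iff).2 (algebraMap M U).injective
    obtain ⟨I, hI, hmax⟩ := Finset.exists_max_image _ Finset.card hfin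
    refine ⟨I, (Finset.mem_filter.1 hI).2, fun j hj hcon => ?_⟩
    have h1 := hmax (insert j I) (by
      rw [Finset.mem_filter, Finset.coe_insert]
      exact ⟨Finset.mem_univ _, hcon⟩)
    rw [Finset.card_insert_of_notMem hj] at h1
    omega
  refine ⟨I, hI, ?_⟩
  obtain ⟨V, hV⟩ : ∃ V : Set U, V = W ∪ Z '' (I : Set κ) := ⟨_, rfl⟩
  have hMV : ∀ u ∈ M, IsAlgebraic (adjoin K V) u := by
    intro u hu
    apply alg_mono _ (hM u hu)
    rw [hV]
    exact Set.subset_union_left
  have hIV : ∀ j ∈ I, IsAlgebraic (adjoin K V) (Z j) := by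
    intro j hj
    apply subset_Mf
    rw [hV]
    exact Or.inr ⟨j, hj, rfl⟩
  have hZ : ∀ j, IsAlgebraic (adjoin K V) (Z j) := by
    intro j
    by_cases hj : j ∈ I
    · exact hIV j hj
    · have h1 : IsAlgebraic (adjoin M (Z '' (I : Set κ))) (Z j) := by
        by_contra hcon
        exact hmax j hj (AlgebraicIndepOn.insert hI hcon)
      refine alg_trans ?_ (alg_base M _ h1)
      rintro x (hx | ⟨i, hi, rfl⟩)
      · exact hMV x hx
      · exact hIV i hi
  have hYV : ∀ i, IsAlgebraic (adjoin K V) (Y i) := by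
    intro i
    refine alg_trans ?_ (hYZ i)
    rintro x (hx | ⟨j, rfl⟩)
    · exact hMV x hx
    · exact hZ j
  refine card_le hY V (n + I.card) ?_ hYV
  rw [hV]
  refine (Set.encard_union_le _ _).trans ?_
  push_cast
  refine add_le_add hW ?_
  refine (Set.encard_image_le _ _).trans ?_
  rw [Set.encard_coe_eq_coe_finsetCard]

end Pool.Agent.Lib.MP_524521_nt.PN
end

section
/-!
# Germs of sequences of real numbers along an ultrafilter
-/
set_option autoImplicit false

namespace Pool.Agent.Lib.MP_524521_nt.PN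

open Algebra

/-- the ultraproduct -/
abbrev UU : Type := Filter.Germ (Filter.hyperfilter ℕ : Filter ℕ) ℝ

/-- the germ of a sequence -/
noncomputable def gm : (ℕ → ℝ) →+* UU := Filter.Germ.coeRingHom _

theorem gm_eq_zero {f : ℕ → ℝ} : gm f = 0 ↔ ∀ᶠ n in (Filter.hyperfilter ℕ : Filter ℕ), f n = 0 :=
  Filter.Germ.coe_eq

theorem gm_congr {f g : ℕ → ℝ} (h : ∀ᶠ n in (Filter.hyperfilter ℕ : Filter ℕ), f n = g n) :
    gm f = gm g := Filter.Germ.coe_eq.2 h

/-- the inclusion of the sequences of rational numbers -/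
noncomputable def incQ : (ℕ → ℚ) →+* (ℕ → ℝ) where
  toFun x n := (x n : ℝ)
  map_one' := by funext n; simp
  map_mul' _ _ := by funext n; simp
  map_zero' := by funext n; simp
  map_add' _ _ := by funext n; simp

/-- the field of the germs of sequences of rational numbers -/
noncomputable def kk : Subfield UU where
  carrier := {x | ∃ f : ℕ → ℚ, gm (incQ f) = x}
  mul_mem' := by
    rintro _ _ ⟨f, rfl⟩ ⟨g, rfl⟩
    exact ⟨f * g, by rw [map_mul, map_mul]⟩
  one_mem' := ⟨1, by rw [map_one, map_one]⟩
  add_mem' := by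
    rintro _ _ ⟨f, rfl⟩ ⟨g, rfl⟩
    exact ⟨f + g, by rw [map_add, map_add]⟩
  zero_mem' := ⟨0, by rw [map_zero, map_zero]⟩
  neg_mem' := by
    rintro _ ⟨f, rfl⟩
    exact ⟨-f, by rw [map_neg, map_neg]⟩
  inv_mem' := by
    rintro _ ⟨f, rfl⟩
    refine ⟨fun n => (f n)⁻¹, ?_⟩
    have h : incQ (fun n => (f n)⁻¹) = (incQ f)⁻¹ := by
      funext n
      change (((f n)⁻¹ : ℚ) : ℝ) = ((f n : ℝ))⁻¹
      simp
    rw [h]
    rfl

/-- the germ of a sequence of rational numbers -/
noncomputable def gk : (ℕ → ℚ) →+* kk where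
  toFun f := ⟨gm (incQ f), f, rfl⟩
  map_one' := Subtype.ext (by simp)
  map_mul' _ _ := Subtype.ext (by simp)
  map_zero' := Subtype.ext (by simp)
  map_add' _ _ := Subtype.ext (by simp)

theorem gk_surj : Function.Surjective gk := by
  rintro ⟨_, f, rfl⟩
  exact ⟨f, rfl⟩

theorem gk_zero {f : ℕ → ℚ} (h : ∀ᶠ n in (Filter.hyperfilter ℕ : Filter ℕ), f n = 0) : gk f = 0 := by
  apply Subtype.ext
  change gm (incQ f) = 0
  rw [gm_eq_zero]
  filter_upwards [h] with n hn
  change ((f n : ℚ) : ℝ) = 0
  rw [hn, Rat.cast_zero]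

/-- the value at `n` -/
noncomputable def evQ (n : ℕ) : (ℕ → ℚ) →+* ℚ := Pi.evalRingHom _ n

/-- the value at `n` -/
noncomputable def evR (n : ℕ) : (ℕ → ℝ) →+* ℝ := Pi.evalRingHom _ n

/-- values of polynomials -/
theorem aeval_gm {σ : Type} (P : MvPolynomial σ (ℕ → ℚ)) (y : σ → ℕ → ℝ) :
    MvPolynomial.aeval (fun i => gm (y i)) (MvPolynomial.map gk P) =
      gm fun n => MvPolynomial.aeval (fun i => y i n) (MvPolynomial.map (evQ n) P) := by
  have h1 : gm (MvPolynomial.eval₂ incQ y P) =
      MvPolynomial.aeval (fun i => gm (y i)) (MvPolynomial.map gk P) := by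
    rw [MvPolynomial.aeval_def, MvPolynomial.eval₂_map, MvPolynomial.eval₂_comp_left]
    rfl
  rw [← h1]
  congr 1
  funext n
  have h2 : evR n (MvPolynomial.eval₂ incQ y P) =
      MvPolynomial.aeval (fun i => y i n) (MvPolynomial.map (evQ n) P) := by
    rw [MvPolynomial.aeval_def, MvPolynomial.eval₂_map, MvPolynomial.eval₂_comp_left]
    rfl
  exact h2

/-- a sequence of polynomials of bounded degree -/
theorem exists_seq {σ : Type} [Finite σ] (D : ℕ) (F : ℕ → MvPolynomial σ ℚ)
    (hF : ∀ n, (F n).totalDegree ≤ D) :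
    ∃ P : MvPolynomial σ (ℕ → ℚ), ∀ n, MvPolynomial.map (evQ n) P = F n := by
  classical
  have hfin := Finsupp.finite_of_degree_le (σ := σ) D
  refine ⟨∑ m ∈ hfin.toFinset, MvPolynomial.monomial m (fun n => (F n).coeff m), fun n => ?_⟩
  rw [map_sum]
  refine MvPolynomial.ext _ _ fun m => ?_
  rw [MvPolynomial.coeff_sum]
  simp only [MvPolynomial.map_monomial, MvPolynomial.coeff_monomial]
  rw [Finset.sum_ite_eq']
  split
  · rfl
  · rename_i h
    rw [Set.Finite.mem_toFinset, Set.mem_ofPred_eq] at h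
    by_contra h0
    apply h
    have h1 := MvPolynomial.le_totalDegree (MvPolynomial.mem_support_iff.2 (Ne.symm h0))
    exact le_trans h1 (hF n)

/-- the degrees of the values -/
theorem totalDegree_ev {σ : Type} (P : MvPolynomial σ (ℕ → ℚ)) (n : ℕ) :
    (MvPolynomial.map (evQ n) P).totalDegree ≤ P.totalDegree := by
  unfold MvPolynomial.totalDegree
  exact Finset.sup_mono (MvPolynomial.support_map_subset _ _)

/-- algebraic independence of germs -/
theorem ind_gm {σ : Type} (y : σ → ℕ → ℝ)
    (h : ∀ d : ℕ, ∀ᶠ n in (Filter.hyperfilter ℕ : Filter ℕ), ∀ F : MvPolynomial σ ℚ,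
      F.totalDegree ≤ d → MvPolynomial.aeval (fun i => y i n) F = 0 → F = 0) :
    AlgebraicIndependent kk fun i => gm (y i) := by
  rw [algebraicIndependent_iff]
  intro p hp
  obtain ⟨P, rfl⟩ := MvPolynomial.map_surjective gk gk_surj p
  rw [aeval_gm, gm_eq_zero] at hp
  have h1 : ∀ᶠ n in (Filter.hyperfilter ℕ : Filter ℕ), MvPolynomial.map (evQ n) P = 0 := by
    filter_upwards [hp, h P.totalDegree] with n h2 h3
    exact h3 _ (totalDegree_ev P n) h2
  refine MvPolynomial.ext _ _ fun c => ?_
  rw [MvPolynomial.coeff_map, MvPolynomial.coeff_zero]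
  apply gk_zero
  filter_upwards [h1] with n h2
  have h3 := congrArg (MvPolynomial.coeff c) h2
  rw [MvPolynomial.coeff_map, MvPolynomial.coeff_zero] at h3
  exact h3

/-- roots of polynomials of bounded degree -/
theorem root_gm {τ : Type} [Finite τ] (D : ℕ) (th : τ → ℕ → ℝ) (r : ℕ → ℝ)
    (h : ∀ n, ∃ G : MvPolynomial (Option τ) ℚ, G.totalDegree ≤ D ∧
      MvPolynomial.aeval (fun o : Option τ => o.elim (r n) fun j => th j n) G = 0 ∧
      ∃ t : ℝ, MvPolynomial.aeval (fun o : Option τ => o.elim t fun j => th j n) G ≠ 0) :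
    gm r ∈ (Mf (Set.range fun j => gm (th j)) : IntermediateField kk UU) := by
  classical
  choose G hG h0 t ht using h
  obtain ⟨P, hP⟩ := exists_seq D G hG
  rw [mem_Mf]
  obtain ⟨W, hW⟩ : ∃ W : Set UU, W = Set.range fun j => gm (th j) := ⟨_, rfl⟩
  rw [← hW]
  obtain ⟨q, hq⟩ : ∃ q : Polynomial (adjoin kk W), q = MvPolynomial.aeval (fun o : Option τ => o.elim
      (Polynomial.X : Polynomial (adjoin kk W)) fun j => Polynomial.C (⟨gm (th j), subset_adjoin (by
        rw [hW]; exact ⟨j, rfl⟩)⟩ : adjoin kk W)) (MvPolynomial.map gk P) := ⟨_, rfl⟩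
  have hval : ∀ u : ℕ → ℝ, Polynomial.aeval (gm u) q =
      gm fun n => MvPolynomial.aeval (fun o : Option τ => o.elim (u n) fun j => th j n) (G n) := by
    intro u
    rw [hq]
    have h1 : ∀ R : MvPolynomial (Option τ) kk, Polynomial.aeval (gm u)
        (MvPolynomial.aeval (fun o : Option τ => o.elim
          (Polynomial.X : Polynomial (adjoin kk W)) fun j => Polynomial.C (⟨gm (th j), subset_adjoin (by
          rw [hW]; exact ⟨j, rfl⟩)⟩ : adjoin kk W)) R) =
        MvPolynomial.aeval (fun o : Option τ => gm (o.elim u fun j => th j)) R := by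
      intro R
      have h2 := MvPolynomial.comp_aeval_apply (R := kk)
        (φ := ((Polynomial.aeval (gm u) : Polynomial (adjoin kk W) →ₐ[adjoin kk W] UU).restrictScalars kk))
        (fun o : Option τ => o.elim
          (Polynomial.X : Polynomial (adjoin kk W)) fun j => Polynomial.C (⟨gm (th j), subset_adjoin (by
          rw [hW]; exact ⟨j, rfl⟩)⟩ : adjoin kk W)) R
      rw [AlgHom.restrictScalars_apply] at h2
      rw [h2]
      congr 2
      funext o
      rcases o with _ | j
      · simp
      · simp only [Option.elim_some, AlgHom.restrictScalars_apply, Polynomial.aeval_C]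
        rfl
    rw [h1, aeval_gm]
    congr 1
    funext n
    rw [hP n]
    congr 2
    funext o
    rcases o with _ | j <;> rfl
  refine ⟨q, ?_, ?_⟩
  · intro hq0
    have h3 := hval t
    rw [hq0, map_zero] at h3
    have h4 := gm_eq_zero.1 h3.symm
    obtain ⟨n, hn⟩ := h4.exists
    exact ht n hn
  · rw [hval r, gm_eq_zero]
    exact Filter.Eventually.of_forall h0

/-- nonzero polynomials of bounded degree with algebraic coefficients -/
theorem poly_gm {σ : Type} [Finite σ] (M : IntermediateField kk UU) (D : ℕ) (z : σ → ℕ → ℝ)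
    (P : ℕ → MvPolynomial σ ℝ) (hP : ∀ n, (P n).totalDegree ≤ D) (hP0 : ∀ n, P n ≠ 0)
    (hc : ∀ c, gm (fun n => (P n).coeff c) ∈ M)
    (hz : AlgebraicIndependent M fun i => gm (z i))
    (h0 : ∀ n, MvPolynomial.aeval (fun i => z i n) (P n) = 0) : False := by
  classical
  have hfin := Finsupp.finite_of_degree_le (σ := σ) D
  obtain ⟨Q, hQ⟩ : ∃ Q : MvPolynomial σ M, Q = ∑ c ∈ hfin.toFinset,
      MvPolynomial.monomial c (⟨gm (fun n => (P n).coeff c), hc c⟩ : M) := ⟨_, rfl⟩
  have hexp : ∀ n, P n = ∑ c ∈ hfin.toFinset, MvPolynomial.monomial c ((P n).coeff c) := by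
    intro n
    refine MvPolynomial.ext _ _ fun m => ?_
    rw [MvPolynomial.coeff_sum]
    simp only [MvPolynomial.coeff_monomial]
    rw [Finset.sum_ite_eq']
    split
    · rfl
    · rename_i h
      rw [Set.Finite.mem_toFinset, Set.mem_ofPred_eq] at h
      by_contra h0
      apply h
      have h1 := MvPolynomial.le_totalDegree (MvPolynomial.mem_support_iff.2 h0)
      exact le_trans h1 (hP n)
  have hval : MvPolynomial.aeval (fun i => gm (z i)) Q = 0 := by
    have h1 : MvPolynomial.aeval (fun i => gm (z i)) Q =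
        gm fun n => MvPolynomial.aeval (fun i => z i n) (P n) := by
      have h2 : (fun n => MvPolynomial.aeval (fun i => z i n) (P n)) =
          ∑ c ∈ hfin.toFinset, (fun n => (P n).coeff c) * c.prod fun i e => z i ^ e := by
        funext n
        conv_lhs => rw [hexp n]
        rw [map_sum, Finset.sum_apply]
        refine Finset.sum_congr rfl fun c _ => ?_
        rw [MvPolynomial.aeval_monomial, Pi.mul_apply]
        congr 1
        unfold Finsupp.prod
        rw [Finset.prod_apply]
        rfl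
      rw [h2, map_sum, hQ, map_sum]
      refine Finset.sum_congr rfl fun c _ => ?_
      rw [MvPolynomial.aeval_monomial, map_mul]
      congr 1
      unfold Finsupp.prod
      rw [map_prod]
      exact Finset.prod_congr rfl fun i _ => (map_pow _ _ _).symm
    rw [h1, gm_eq_zero]
    exact Filter.Eventually.of_forall h0
  have hQ0 := (algebraicIndependent_iff.1 hz) Q hval
  have h3 : ∀ c ∈ hfin.toFinset, ∀ᶠ n in (Filter.hyperfilter ℕ : Filter ℕ), (P n).coeff c = 0 := by
    intro c hcT
    have h4 := congrArg (MvPolynomial.coeff c) hQ0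
    rw [hQ, MvPolynomial.coeff_sum, MvPolynomial.coeff_zero] at h4
    simp only [MvPolynomial.coeff_monomial] at h4
    rw [Finset.sum_ite_eq', if_pos hcT] at h4
    exact gm_eq_zero.1 (congrArg Subtype.val h4)
  have h5 := (Filter.eventually_all_finset hfin.toFinset).2 h3
  obtain ⟨n, hn⟩ := h5.exists
  apply hP0 n
  rw [hexp n]
  exact Finset.sum_eq_zero fun c hcT => by rw [hn c hcT, map_zero]

end Pool.Agent.Lib.MP_524521_nt.PN
end
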