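import Pool.Agent.Lib.MP_524521_nt.PN.Val

/-!
# The Nielsen polylogarithms in terms of the polylogarithms near one
-/

set_option autoImplicit false

namespace Pool.Agent.Lib.MP_524521_nt.PN

open Pool.Agent.Lib.MPf11a48.GF
open scoped PowerSeries
open Filter Topology

/-! ### values of products -/

/-- absolute convergence -/
def SMc (s : ℚ⟦X⟧) (z : ℂ) : Prop := Summable fun k => ‖((PowerSeries.coeff k s : ℚ) : ℂ) * z ^ k‖

lemma G1.smc {s : ℚ⟦X⟧} (hs : G1 s) : ∃ δ : ℝ, 0 < δ ∧ ∀ z : ℂ, ‖z‖ < δ → SMc s z := by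
  obtain ⟨C, hC⟩ := hs.growth
  refine ⟨1 / (2 * ((C : ℝ) + 1)), by positivity, fun z hz => ?_⟩
  refine specEval.1 s C z hC ?_
  have h1 : 2 * ((C : ℝ) + 1) * ‖z‖ < 1 := by
    rw [lt_div_iff₀ (by positivity)] at hz
    linarith
  nlinarith [norm_nonneg z]

lemma pval_mul' {f g : ℚ⟦X⟧} {z : ℂ} (hf : SMc f z) (hg : SMc g z) :
    pval (f * g) z = pval f z * pval g z ∧ SMc (f * g) z :=
  ⟨(specEval.2.1 f g z hf hg).2.1, (specEval.2.1 f g z hf hg).2.2⟩

lemma pval_C' (c : ℚ) (z : ℂ) : pval (PowerSeries.C c) z = (c : ℂ) ∧ SMc (PowerSeries.C c) z := by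
  have h := specEval.2.2.1 (Polynomial.C c) z
  rw [Polynomial.coe_C] at h
  refine ⟨?_, h.1⟩
  rw [h.2, Polynomial.aeval_C]
  rfl

lemma pval_pow' {f : ℚ⟦X⟧} {z : ℂ} (hf : SMc f z) (n : ℕ) :
    pval (f ^ n) z = pval f z ^ n ∧ SMc (f ^ n) z := by
  induction n with
  | zero =>
    have h := pval_C' 1 z
    rw [map_one] at h
    rw [pow_zero, pow_zero]
    exact ⟨by rw [h.1]; simp, h.2⟩
  | succ n ih =>
    rw [pow_succ, pow_succ]
    have := pval_mul' ih.2 hf
    exact ⟨by rw [this.1, ih.1], this.2⟩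

/-- the real logarithm with index `m` -/
noncomputable def lo (m : ℕ) (x : ℝ) : ℝ := Real.log (1 + (m + 1) * x) - Real.log (1 + m * x)

/-- the point `1 - x / (1 + (m + 1) x)` -/
noncomputable def vo (m : ℕ) (x : ℝ) : ℝ := (1 + m * x) / (1 + (m + 1) * x)

lemma rval_pw_geo (m i : ℕ) : ∃ δ : ℝ, 0 < δ ∧ ∀ x, 0 < x → x < δ →
    rval (pw m i * geo (m + 1)) x = lo m x ^ i / (i.factorial : ℝ) / (1 + (m + 1) * x) := by
  obtain ⟨δ1, h1, hδ1⟩ := (G1.el m).smc
  obtain ⟨δ2, h2, hδ2⟩ := (G1.geo (m + 1)).smc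
  refine ⟨min (min δ1 δ2) (1 / ((m : ℝ) + 2)), by positivity, fun x hx0 hx => ?_⟩
  have hx1 : x < δ1 := hx.trans_le ((min_le_left _ _).trans (min_le_left _ _))
  have hx2 : x < δ2 := hx.trans_le ((min_le_left _ _).trans (min_le_right _ _))
  have hx3 : x < 1 / ((m : ℝ) + 2) := hx.trans_le (min_le_right _ _)
  have hx4 : ((m : ℝ) + 1) * x < 1 := by
    rw [lt_div_iff₀ (by positivity)] at hx3
    nlinarith
  have hx5 : (m : ℝ) * x < 1 := by nlinarith
  have hn : ‖(x : ℂ)‖ = x := by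
    rw [Complex.norm_real, Real.norm_eq_abs, abs_of_pos hx0]
  have e1 := pval_pow' (hδ1 (x : ℂ) (by rw [hn]; exact hx1)) i
  have e2 := pval_C' ((i.factorial : ℚ)⁻¹) (x : ℂ)
  have e3 := pval_mul' e2.2 e1.2
  have e4 := pval_mul' e3.2 (hδ2 (x : ℂ) (by rw [hn]; exact hx2))
  have e5 : pval (pw m i * geo (m + 1)) (x : ℂ) =
      ((lo m x ^ i / (i.factorial : ℝ) / (1 + (m + 1) * x) : ℝ) : ℂ) := by
    unfold pw
    rw [e4.1, e3.1, e2.1, e1.1, pval_ofReal, pval_ofReal, rval_el m (by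
      rw [abs_of_pos (by positivity)]; exact hx4) (by
      rw [abs_of_nonneg (by positivity)]; exact hx5), rval_geo (m + 1) (by
      push_cast
      rw [abs_of_pos (by positivity)]; exact hx4)]
    unfold lo
    push_cast
    ring
  rw [pval_ofReal] at e5
  exact_mod_cast e5

/-! ### derivatives -/

section der

variable (m : ℕ) {x : ℝ} (hx : 0 < x)

include hx

lemma pos1 : 0 < 1 + (m : ℝ) * x := by positivity
lemma pos2 : 0 < 1 + ((m : ℝ) + 1) * x := by positivity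

lemma vo_pos : 0 < vo m x := div_pos (pos1 m hx) (pos2 m hx)

lemma vo_lt : vo m x < 1 := by
  unfold vo
  rw [div_lt_one (pos2 m hx)]
  linarith

lemma one_sub_vo : 1 - vo m x = x / (1 + (m + 1) * x) := by
  unfold vo
  have := (pos2 m hx).ne'
  field_simp
  ring

lemma lo_der : HasDerivAt (lo m) (1 / ((1 + m * x) * (1 + (m + 1) * x))) x := by
  have h1 : HasDerivAt (fun y : ℝ => 1 + ((m : ℝ) + 1) * y) ((m : ℝ) + 1) x := by
    simpa using ((hasDerivAt_id x).const_mul ((m : ℝ) + 1)).const_add 1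
  have h2 : HasDerivAt (fun y : ℝ => 1 + (m : ℝ) * y) (m : ℝ) x := by
    simpa using ((hasDerivAt_id x).const_mul (m : ℝ)).const_add 1
  have h3 := (h1.log (pos2 m hx).ne').sub (h2.log (pos1 m hx).ne')
  refine h3.congr_deriv ?_
  have := (pos2 m hx).ne'
  have := (pos1 m hx).ne'
  field_simp
  ring

lemma vo_der : HasDerivAt (vo m) (-1 / (1 + (m + 1) * x) ^ 2) x := by
  have h1 : HasDerivAt (fun y : ℝ => 1 + ((m : ℝ) + 1) * y) ((m : ℝ) + 1) x := by
    simpa using ((hasDerivAt_id x).const_mul ((m : ℝ) + 1)).const_add 1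
  have h2 : HasDerivAt (fun y : ℝ => 1 + (m : ℝ) * y) (m : ℝ) x := by
    simpa using ((hasDerivAt_id x).const_mul (m : ℝ)).const_add 1
  have h3 := h2.div h1 (pos2 m hx).ne'
  refine h3.congr_deriv ?_
  have := (pos2 m hx).ne'
  field_simp
  ring

lemma f_der (q : ℕ) : HasDerivAt (fun y => Li (q + 1) (vo m y))
    (-(1 / ((1 + m * x) * (1 + (m + 1) * x)) * Li q (vo m x))) x := by
  have h1 := (Li_deriv q (vo_pos m hx) (vo_lt m hx)).comp x (vo_der m hx)
  refine h1.congr_deriv ?_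
  unfold vo
  have := (pos2 m hx).ne'
  have := (pos1 m hx).ne'
  field_simp

lemma f1_eq : Li 1 (vo m x) = -(Real.log x - Real.log (1 + (m + 1) * x)) := by
  rw [Li_one (by rw [abs_of_pos (vo_pos m hx)]; exact vo_lt m hx), one_sub_vo m hx,
    Real.log_div hx.ne' (pos2 m hx).ne']

lemma f1_der : HasDerivAt (fun y => Li 1 (vo m y)) (-(1 / (x * (1 + (m + 1) * x)))) x := by
  have h1 : HasDerivAt (fun y : ℝ => 1 + ((m : ℝ) + 1) * y) ((m : ℝ) + 1) x := by
    simpa using ((hasDerivAt_id x).const_mul ((m : ℝ) + 1)).const_add 1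
  have h2 : HasDerivAt (fun y : ℝ => -(Real.log y - Real.log (1 + (m + 1) * y)))
      (-(1 / (x * (1 + (m + 1) * x)))) x := by
    have h3 := ((Real.hasDerivAt_log hx.ne').sub (h1.log (pos2 m hx).ne')).neg
    refine h3.congr_deriv ?_
    have := (pos2 m hx).ne'
    have := hx.ne'
    field_simp
    ring
  refine h2.congr_of_eventuallyEq ?_
  filter_upwards [lt_mem_nhds hx] with y hy
  exact f1_eq m hy

end der

/-- the derivative of the divided powers -/
lemma pow_der {f : ℝ → ℝ} {f' x : ℝ} (hf : HasDerivAt f f' x) (p : ℕ) :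
    HasDerivAt (fun y => f y ^ p / (p.factorial : ℝ)) ((p : ℝ) * f x ^ (p - 1) * f' / p.factorial) x :=
  (hf.pow p).div_const _

/-- the sum -/
noncomputable def PP (m i : ℕ) (x : ℝ) : ℝ :=
  ∑ p ∈ Finset.range i, lo m x ^ p / (p.factorial : ℝ) * Li (i + 1 - p) (vo m x) +
    lo m x ^ i / (i.factorial : ℝ) * Li 1 (vo m x)

lemma PP_der (m i : ℕ) {x : ℝ} (hx : 0 < x) :
    HasDerivAt (PP m i) (-(lo m x ^ i / (i.factorial : ℝ) * (1 / (x * (1 + (m + 1) * x))))) x := by
  obtain ⟨l', hl'⟩ : ∃ l' : ℝ, l' = 1 / ((1 + m * x) * (1 + (m + 1) * x)) := ⟨_, rfl⟩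
  have hlo : HasDerivAt (lo m) l' x := by rw [hl']; exact lo_der m hx
  have hf : ∀ q : ℕ, HasDerivAt (fun y => Li (q + 1) (vo m y)) (-(l' * Li q (vo m x))) x := by
    intro q
    rw [hl']
    exact f_der m hx q
  obtain ⟨F, hF⟩ : ∃ F : ℕ → ℝ, F = fun (p : ℕ) => (p : ℝ) * lo m x ^ (p - 1) * l' / p.factorial *
      Li (i + 1 - p) (vo m x) := ⟨_, rfl⟩
  have h1 : HasDerivAt (fun y => ∑ p ∈ Finset.range i, lo m y ^ p / (p.factorial : ℝ) *
      Li (i + 1 - p) (vo m y)) (∑ p ∈ Finset.range i, (F p - F (p + 1))) x := by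
    refine HasDerivAt.fun_sum fun p hp => ?_
    have hp' := Finset.mem_range.1 hp
    obtain ⟨q, hq⟩ : ∃ q, i = p + q := Nat.exists_eq_add_of_le hp'.le
    have e1 : i + 1 - p = q + 1 := by omega
    have e2 : i + 1 - (p + 1) = q := by omega
    rw [e1]
    refine ((pow_der hlo p).mul (hf q)).congr_deriv ?_
    rw [hF]
    simp only [e1, e2]
    rw [Nat.add_sub_cancel, Nat.factorial_succ]
    push_cast
    have : (p.factorial : ℝ) ≠ 0 := by exact_mod_cast p.factorial_ne_zero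
    field_simp
    ring
  rw [Finset.sum_range_sub'] at h1
  have h2 := (pow_der hlo i).mul (f1_der m hx)
  have h3 := h1.add h2
  refine h3.congr_deriv ?_
  rw [hF]
  have e3 : i + 1 - i = 1 := by omega
  simp only [e3, CharP.cast_eq_zero, zero_mul, zero_div]
  ring

/-! ### limits at zero -/

lemma lo_tendsto (m : ℕ) : Tendsto (lo m) (𝓝[>] 0) (𝓝 0) := by
  have h1 : ContinuousAt (lo m) 0 := by
    unfold lo
    refine ContinuousAt.sub ?_ ?_
    · refine ContinuousAt.log (by fun_prop) (by simp)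
    · refine ContinuousAt.log (by fun_prop) (by simp)
  have h2 : lo m 0 = 0 := by
    unfold lo
    simp
  rw [ContinuousAt, h2] at h1
  exact h1.mono_left nhdsWithin_le_nhds

lemma vo_tendsto (m : ℕ) : Tendsto (vo m) (𝓝[>] 0) (𝓝[<] 1) := by
  rw [tendsto_nhdsWithin_iff]
  constructor
  · have h1 : ContinuousAt (vo m) 0 := by
      unfold vo
      refine ContinuousAt.div (by fun_prop) (by fun_prop) (by simp)
    have h2 : vo m 0 = 1 := by
      unfold vo
      simp
    rw [ContinuousAt, h2] at h1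
    exact h1.mono_left nhdsWithin_le_nhds
  · filter_upwards [self_mem_nhdsWithin] with x hx
    exact vo_lt m hx

lemma lo_f1_tendsto (m : ℕ) : Tendsto (fun x => lo m x * Li 1 (vo m x)) (𝓝[>] 0) (𝓝 0) := by
  have h1 : Tendsto (fun x : ℝ => x * -(Real.log x - Real.log (1 + (m + 1) * x))) (𝓝[>] 0) (𝓝 0) := by
    have e1 : Tendsto (fun x : ℝ => x * Real.log x) (𝓝[>] 0) (𝓝 0) := by
      have := Real.continuous_mul_log.tendsto 0
      simp only [zero_mul] at this
      exact this.mono_left nhdsWithin_le_nhds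
    have e2 : Tendsto (fun x : ℝ => x * Real.log (1 + (m + 1) * x)) (𝓝[>] 0) (𝓝 0) := by
      have h2 : ContinuousAt (fun x : ℝ => x * Real.log (1 + (m + 1) * x)) 0 := by
        refine ContinuousAt.mul (by fun_prop) (ContinuousAt.log (by fun_prop) (by simp))
      rw [ContinuousAt] at h2
      simp only [zero_mul] at h2
      exact h2.mono_left nhdsWithin_le_nhds
    have e3 := e2.sub e1
    rw [sub_zero] at e3
    refine e3.congr fun x => ?_
    ring
  refine squeeze_zero_norm' ?_ h1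
  have hU : Set.Ioo (0 : ℝ) 1 ∈ 𝓝[>] (0 : ℝ) := Ioo_mem_nhdsGT (by norm_num)
  filter_upwards [hU] with x hx
  have hx0 := hx.1
  have h3 : 0 ≤ lo m x := by
    unfold lo
    rw [sub_nonneg]
    exact Real.log_le_log (pos1 m hx0) (by linarith)
  have h4 : lo m x ≤ x := by
    unfold lo
    rw [← Real.log_div (pos2 m hx0).ne' (pos1 m hx0).ne']
    refine (Real.log_le_sub_one_of_pos (div_pos (pos2 m hx0) (pos1 m hx0))).trans ?_
    have h5 : (1 + ((m : ℝ) + 1) * x) / (1 + m * x) - 1 = x / (1 + m * x) := by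
      have := (pos1 m hx0).ne'
      field_simp
      ring
    rw [h5]
    apply div_le_self hx0.le
    have : (0 : ℝ) ≤ m * x := by positivity
    linarith
  have h6 : 0 ≤ -(Real.log x - Real.log (1 + (m + 1) * x)) := by
    have h7 : Real.log x ≤ 0 := Real.log_nonpos hx0.le hx.2.le
    have h8 : 0 ≤ Real.log (1 + ((m : ℝ) + 1) * x) := Real.log_nonneg (by
      have : (0 : ℝ) ≤ ((m : ℝ) + 1) * x := by positivity
      linarith)
    linarith
  rw [f1_eq m hx0, Real.norm_eq_abs, abs_of_nonneg (mul_nonneg h3 h6)]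
  exact mul_le_mul_of_nonneg_right h4 h6

lemma PP_tendsto (m i : ℕ) (hi : 1 ≤ i) : Tendsto (PP m i) (𝓝[>] 0) (𝓝 (Li (i + 1) 1)) := by
  have h1 : Tendsto (fun x => ∑ p ∈ Finset.range i, lo m x ^ p / (p.factorial : ℝ) *
      Li (i + 1 - p) (vo m x)) (𝓝[>] 0)
      (𝓝 (∑ p ∈ Finset.range i, if p = 0 then Li (i + 1) 1 else 0)) := by
    refine tendsto_finsetSum _ fun p hp => ?_
    have hp' := Finset.mem_range.1 hp
    have h2 : Tendsto (fun x => Li (i + 1 - p) (vo m x)) (𝓝[>] 0) (𝓝 (Li (i + 1 - p) 1)) :=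
      (Li_tendsto (i + 1 - p) (by omega)).comp (vo_tendsto m)
    have h3 : Tendsto (fun x => lo m x ^ p / (p.factorial : ℝ)) (𝓝[>] 0) (𝓝 (0 ^ p / (p.factorial : ℝ))) :=
      ((lo_tendsto m).pow p).div_const _
    have h4 := h3.mul h2
    convert h4 using 2
    split
    · rename_i h0
      subst h0
      simp
    · rename_i h0
      rw [zero_pow h0, zero_div, zero_mul]
  have h5 : ∑ p ∈ Finset.range i, (if p = 0 then Li (i + 1) 1 else 0) = Li (i + 1) 1 := by
    rw [Finset.sum_ite_eq' (Finset.range i) 0, if_pos (Finset.mem_range.2 hi)]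
  rw [h5] at h1
  have h6 : Tendsto (fun x => lo m x ^ i / (i.factorial : ℝ) * Li 1 (vo m x)) (𝓝[>] 0) (𝓝 0) := by
    obtain ⟨j, rfl⟩ : ∃ j, i = j + 1 := ⟨i - 1, by omega⟩
    have h7 := (((lo_tendsto m).pow j).div_const (((j + 1).factorial : ℝ))).mul (lo_f1_tendsto m)
    rw [mul_zero] at h7
    refine h7.congr fun x => ?_
    rw [pow_succ]
    ring
  have h8 := h1.add h6
  rw [add_zero] at h8
  exact h8

/-! ### the formula -/

lemma const_of_zero_deriv {f : ℝ → ℝ} {δ L : ℝ} (hf : ∀ x, 0 < x → x < δ → HasDerivAt f 0 x)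
    (hL : Tendsto f (𝓝[>] 0) (𝓝 L)) (x : ℝ) (hx0 : 0 < x) (hx : x < δ) : f x = L := by
  have h1 : ∀ y, 0 < y → y < δ → f y = f x := by
    intro y hy0 hy
    have h2 := (convex_Ioo (0 : ℝ) δ).norm_image_sub_le_of_norm_hasDerivWithin_le
      (f := f) (f' := fun _ => 0) (C := 0) (x := x) (y := y)
      (fun z hz => (hf z hz.1 hz.2).hasDerivWithinAt) (fun z _ => by simp) ⟨hx0, hx⟩ ⟨hy0, hy⟩
    rw [zero_mul] at h2
    have h3 := norm_le_zero_iff.1 h2
    linarith
  have h4 : Tendsto f (𝓝[>] 0) (𝓝 (f x)) := by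
    refine tendsto_const_nhds.congr' ?_
    filter_upwards [Ioo_mem_nhdsGT (hx0.trans hx)] with y hy
    exact (h1 y hy.1 hy.2).symm
  exact tendsto_nhds_unique h4 hL

/-- **the Nielsen polylogarithm in terms of the polylogarithms near one** -/
theorem sn_val (m i : ℕ) (hi : 1 ≤ i) : ∃ δ : ℝ, 0 < δ ∧ ∀ x, 0 < x → x < δ →
    rval (sn m i) x = Li (i + 1) 1 - PP m i x := by
  obtain ⟨δ1, h1, hδ1⟩ := rval_pw_geo m i
  obtain ⟨j, rfl⟩ : ∃ j, i = j + 1 := ⟨i - 1, by omega⟩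
  obtain ⟨C, hC⟩ := ((G1.pw m (j + 1)).mul (G1.geo (m + 1))).growth
  have hc0 : PowerSeries.constantCoeff (pw m (j + 1) * geo (m + 1)) = 0 := by
    rw [map_mul, pw_const, zero_mul]
  refine ⟨min δ1 (1 / (2 * ((C : ℝ) + 1))), by positivity, fun x hx0 hx => ?_⟩
  have h2 := const_of_zero_deriv (f := fun y => PP m (j + 1) y + rval (sn m (j + 1)) y)
    (δ := min δ1 (1 / (2 * ((C : ℝ) + 1)))) (L := Li (j + 1 + 1) 1) (fun y hy0 hy => by
      have hy1 : y < δ1 := hy.trans_le (min_le_left _ _)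
      have hy2 : y < 1 / (2 * ((C : ℝ) + 1)) := hy.trans_le (min_le_right _ _)
      have h3 := Jo_deriv' hC hc0 (x := y) (by rw [abs_of_pos hy0]; exact hy2) hy0.ne'
      rw [hδ1 y hy0 hy1] at h3
      refine ((PP_der m (j + 1) hy0).add h3).congr_deriv ?_
      have := (pos2 m hy0).ne'
      have := hy0.ne'
      field_simp
      ring) (by
      have h4 := (PP_tendsto m (j + 1) (by omega)).add (Jo_tendsto hC hc0)
      rw [add_zero] at h4
      exact h4) x hx0 hx
  have h5 : PP m (j + 1) x + rval (sn m (j + 1)) x = Li (j + 1 + 1) 1 := h2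
  linarith

end Pool.Agent.Lib.MP_524521_nt.PN
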