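import Pool.Agent.Lib.MP_524521_nt.PN.Star
import Pool.Agent.Lib.MP_524521_nt.PN.Val2
import Pool.Agent.Lib.MP_524521_nt.PN.Ult
import Mathlib.NumberTheory.ZetaValues

/-!
# Polylogarithms near one: algebraic independence outside few points
-/

set_option autoImplicit false

namespace Pool.Agent.Lib.MP_524521_nt.PN

open Pool.Agent.Lib.MPf11a48.GF
open Algebra

/-! ### the values at even integers -/

/-- the values at the even integers are rational multiples of powers of the value at two -/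
theorem even_zeta (n : ℕ) (hn : 1 ≤ n) : ∃ r : ℚ, Li (2 * n) 1 = (r : ℝ) * Li 2 1 ^ n := by
  have h1 : ∀ m : ℕ, 1 ≤ m → Li (2 * m) 1 = (-1 : ℝ) ^ (m + 1) * 2 ^ (2 * m - 1) * Real.pi ^ (2 * m) *
      ((bernoulli (2 * m) : ℚ) : ℝ) / ((2 * m).factorial : ℝ) := by
    intro m hm
    have h2 := hasSum_zeta_nat (k := m) (by omega)
    have h3 := (hasSum_nat_add_iff' 1).2 h2
    rw [Finset.sum_range_one] at h3
    have h4 : (1 : ℝ) / ((0 : ℕ) : ℝ) ^ (2 * m) = 0 := by
      rw [Nat.cast_zero, zero_pow (by omega), div_zero]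
    rw [h4, sub_zero] at h3
    unfold Li
    rw [← h3.tsum_eq]
    refine tsum_congr fun i => ?_
    rw [one_pow]
    push_cast
    rfl
  have h2 : Li 2 1 = Real.pi ^ 2 / 6 := by
    have := h1 1 le_rfl
    rw [mul_one] at this
    rw [this, bernoulli_two]
    norm_num [Nat.factorial]
    ring
  refine ⟨(-1 : ℚ) ^ (n + 1) * 2 ^ (2 * n - 1) * bernoulli (2 * n) / ((2 * n).factorial : ℚ) * 6 ^ n, ?_⟩
  rw [h1 n hn, h2]
  push_cast
  rw [div_pow, ← pow_mul]
  have : (6 : ℝ) ^ n ≠ 0 := by positivity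
  field_simp

/-! ### statement -/

/-- the number `1 - 1 / (b / a + m)` -/
noncomputable def pt (a b m : ℕ) : ℝ := 1 - 1 / ((b : ℝ) / a + m)

/-- the constants `log (b / a)`, `ζ(2)`, `ζ(3)`, ... -/
noncomputable def cst' (a b : ℕ) : ℕ → ℝ
  | 0 => Real.log ((b : ℝ) / a)
  | j + 1 => Li (j + 2) 1

/-- `r` is a root of a polynomial of degree `≤ D` over `ℚ` in the first `S` constants and one
variable, which does not vanish identically in this variable -/
def Alg (S D a b : ℕ) (r : ℝ) : Prop :=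
  ∃ G : MvPolynomial (Option (Fin S)) ℚ, G.totalDegree ≤ D ∧
    MvPolynomial.aeval (fun o : Option (Fin S) => o.elim r fun j => cst' a b j) G = 0 ∧
    ∃ t : ℝ, MvPolynomial.aeval (fun o : Option (Fin S) => o.elim t fun j => cst' a b j) G ≠ 0

/-! ### real form of the independence theorem -/

theorem star_real (k J n : ℕ) : ∃ C : ℕ, ∀ a b : ℕ, 1 ≤ a → C * a ^ C ≤ b →
    ∀ F : MvPolynomial (Gn k J) ℚ, F.totalDegree ≤ n →
      MvPolynomial.aeval (fun i => rval (yy k J i) ((a : ℝ) / b)) F = 0 → F = 0 := by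
  obtain ⟨C, hC⟩ := star k J n
  refine ⟨C, fun a b ha hb F hF h0 => ?_⟩
  refine hC a b (by exact_mod_cast (by omega : a ≠ 0)) (by
    rw [abs_of_nonneg (by positivity : (0 : ℤ) ≤ (a : ℤ))]
    exact_mod_cast hb) F hF ?_
  have h1 : (fun i => pval (yy k J i) (((a : ℤ) : ℂ) / ((b : ℤ) : ℂ))) =
      fun i => algebraMap ℝ ℂ (rval (yy k J i) ((a : ℝ) / b)) := by
    funext i
    have h2 : (((a : ℤ) : ℂ) / ((b : ℤ) : ℂ)) = (((a : ℝ) / b : ℝ) : ℂ) := by
      push_cast
      rfl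
    rw [h2, pval_ofReal]
    rfl
  rw [h1]
  change MvPolynomial.aeval (algebraMap ℝ ℂ ∘ fun i => rval (yy k J i) ((a : ℝ) / b)) F = 0
  rw [MvPolynomial.aeval_algebraMap_apply, h0, map_zero]

/-- smallness -/
lemma small_of {δ : ℝ} (hδ : 0 < δ) : ∃ N : ℕ, ∀ n a b : ℕ, N ≤ n → 1 ≤ a → n * a ^ n ≤ b →
    0 < (a : ℝ) / b ∧ (a : ℝ) / b < δ := by
  obtain ⟨N, hN⟩ := exists_nat_gt (1 / δ)
  refine ⟨N + 1, fun n a b hn ha hb => ?_⟩
  have h1 : n * a ≤ b := by
    refine le_trans ?_ hb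
    refine Nat.mul_le_mul le_rfl ?_
    exact Nat.le_self_pow (by omega) a
  have ha' : (1 : ℝ) ≤ a := by exact_mod_cast ha
  have hn' : (N : ℝ) + 1 ≤ n := by exact_mod_cast hn
  have h2 : (n : ℝ) * a ≤ b := by exact_mod_cast h1
  have hN0 : (0 : ℝ) ≤ N := Nat.cast_nonneg N
  have hb0 : (0 : ℝ) < b := by nlinarith
  refine ⟨by positivity, ?_⟩
  rw [div_lt_iff₀ hb0]
  rw [div_lt_iff₀ hδ] at hN
  nlinarith

/-! ### the main theorem -/

section main

variable (k J : ℕ) (a b : ℕ → ℕ)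

/-- the point -/
noncomputable def xs (n : ℕ) : ℝ := (a n : ℝ) / b n

/-- the polylogarithms -/
noncomputable def zs (p : Fin k × Fin (J + 1)) (n : ℕ) : ℝ := Li (p.2 + 1) (vo p.1 (xs a b n))

/-- the constants -/
noncomputable def ts (j n : ℕ) : ℝ := cst' (a n) (b n) j

/-- the ring generated by the constants and the polylogarithms -/
noncomputable def AA : Subalgebra kk UU :=
  adjoin kk (((Mf (Set.range fun j : Fin (J + 1) => gm (ts a b j)) : IntermediateField kk UU) : Set UU) ∪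
    Set.range fun p => gm (zs k J a b p))

lemma ts_mem (j : Fin (J + 1)) : gm (ts a b j) ∈ AA k J a b :=
  subset_adjoin (Or.inl (subset_Mf _ ⟨j, rfl⟩))

lemma zs_mem (p : Fin k × Fin (J + 1)) : gm (zs k J a b p) ∈ AA k J a b :=
  subset_adjoin (Or.inr ⟨p, rfl⟩)

lemma rat_mem (q : ℚ) : gm (fun _ => (q : ℝ)) ∈ AA k J a b :=
  (AA k J a b).algebraMap_mem ⟨gm (incQ fun _ => q), _, rfl⟩

variable (hab : ∀ n, 1 ≤ a n ∧ n * a n ^ n ≤ b n)

include hab in
lemma ev_small {δ : ℝ} (hδ : 0 < δ) : ∀ᶠ n in (Filter.hyperfilter ℕ : Filter ℕ),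
    0 < xs a b n ∧ xs a b n < δ := by
  obtain ⟨N, hN⟩ := small_of hδ
  have h1 : ∀ᶠ n in (Filter.hyperfilter ℕ : Filter ℕ), N ≤ n :=
    Nat.hyperfilter_le_atTop (Filter.eventually_ge_atTop N)
  filter_upwards [h1] with n hn
  exact hN n (a n) (b n) hn (hab n).1 (hab n).2

include hab in
/-- the logarithms -/
lemma lo_mem (m : Fin k) : gm (fun n => lo m (xs a b n)) ∈ AA k J a b := by
  have h0 : ∀ᶠ n in (Filter.hyperfilter ℕ : Filter ℕ), 0 < xs a b n ∧ xs a b n < 1 :=
    ev_small a b hab one_pos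
  have hlog : ∀ x : ℝ, 0 < x → ∀ n, xs a b n = x → ts a b 0 n = -Real.log x := by
    intro x hx n hxn
    have h1 : ts a b 0 n = Real.log ((b n : ℝ) / a n) := rfl
    rw [h1, ← hxn]
    unfold xs
    rw [← Real.log_inv, inv_div]
  rcases m with ⟨m, hm⟩
  rcases m with _ | m
  · have h1 : gm (fun n => lo 0 (xs a b n)) =
        gm (zs k J a b (⟨0, hm⟩, 0)) - gm (ts a b 0) := by
      rw [← map_sub]
      apply gm_congr
      filter_upwards [h0] with n hn
      have h2 : zs k J a b (⟨0, hm⟩, 0) n = Li 1 (vo 0 (xs a b n)) := rfl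
      rw [Pi.sub_apply, h2, f1_eq 0 hn.1, hlog _ hn.1 n rfl]
      unfold lo
      simp
    have h3 := sub_mem (zs_mem k J a b (⟨0, hm⟩, 0)) (ts_mem k J a b 0)
    simp only [Fin.val_zero] at h3
    rw [← h1] at h3
    exact h3
  · have h1 : gm (fun n => lo (m + 1) (xs a b n)) =
        gm (zs k J a b (⟨m + 1, hm⟩, 0)) - gm (zs k J a b (⟨m, by omega⟩, 0)) := by
      rw [← map_sub]
      apply gm_congr
      filter_upwards [h0] with n hn
      have h2 : zs k J a b (⟨m + 1, hm⟩, 0) n = Li 1 (vo (m + 1) (xs a b n)) := rfl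
      have h3 : zs k J a b (⟨m, by omega⟩, 0) n = Li 1 (vo m (xs a b n)) := rfl
      rw [Pi.sub_apply, h2, h3, f1_eq (m + 1) hn.1, f1_eq m hn.1]
      unfold lo
      push_cast
      ring
    have h3 := sub_mem (zs_mem k J a b (⟨m + 1, hm⟩, 0)) (zs_mem k J a b (⟨m, by omega⟩, 0))
    rw [← h1] at h3
    exact h3

include hab in
/-- the functions -/
lemma yy_mem (i : Gn k J) : gm (fun n => rval (yy k J i) (xs a b n)) ∈ AA k J a b := by
  rcases i with m | ⟨m, j⟩
  · have h0 : ∀ᶠ n in (Filter.hyperfilter ℕ : Filter ℕ), 0 < xs a b n ∧ xs a b n < 1 / ((m : ℝ) + 1) :=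
      ev_small a b hab (by positivity)
    have h1 : gm (fun n => rval (yy k J (Sum.inl m)) (xs a b n)) = gm (fun n => lo m (xs a b n)) := by
      apply gm_congr
      filter_upwards [h0] with n hn
      have h2 : yy k J (Sum.inl m) = el m := rfl
      have h3 : ((m : ℝ) + 1) * xs a b n < 1 := by
        have := hn.2
        rw [lt_div_iff₀ (by positivity)] at this
        linarith
      rw [h2, rval_el m (by
        rw [abs_of_pos (mul_pos (by positivity) hn.1)]
        exact h3) (by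
        rw [abs_of_nonneg (mul_nonneg (by positivity) hn.1.le)]
        nlinarith [hn.1])]
      rfl
    rw [h1]
    exact lo_mem k J a b hab m
  · obtain ⟨δ, hδ0, hδ⟩ := sn_val m (j + 1) (by omega)
    have h1 : gm (fun n => rval (yy k J (Sum.inr (m, j))) (xs a b n)) =
        gm (ts a b (j + 1)) - (∑ p ∈ Finset.range (j + 1),
          gm (fun n => lo m (xs a b n)) ^ p * gm (fun _ => (((p.factorial : ℚ)⁻¹ : ℚ) : ℝ)) *
            gm (fun n => Li (j + 1 + 1 - p) (vo m (xs a b n))) +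
          gm (fun n => lo m (xs a b n)) ^ ((j : ℕ) + 1) *
            gm (fun _ => (((((j : ℕ) + 1).factorial : ℚ)⁻¹ : ℚ) : ℝ)) *
            gm (fun n => Li 1 (vo m (xs a b n)))) := by
      simp only [← map_pow, ← map_mul, ← map_sum, ← map_add, ← map_sub]
      apply gm_congr
      filter_upwards [ev_small a b hab hδ0] with n hn
      have h2 : yy k J (Sum.inr (m, j)) = sn m (j + 1) := rfl
      rw [h2, hδ _ hn.1 hn.2]
      unfold PP
      have h3 : ts a b (j + 1) n = Li (j + 1 + 1) 1 := rfl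
      rw [Pi.sub_apply, h3, Pi.add_apply, Finset.sum_apply]
      congr 2
      · refine Finset.sum_congr rfl fun p _ => ?_
        simp only [Pi.mul_apply, Pi.pow_apply]
        push_cast
        rw [div_eq_mul_inv]
      · simp only [Pi.mul_apply, Pi.pow_apply]
        push_cast
        rw [div_eq_mul_inv]
    rw [h1]
    refine sub_mem (ts_mem k J a b ⟨j + 1, by omega⟩) (add_mem (sum_mem fun p hp => ?_) ?_)
    · have hp' := Finset.mem_range.1 hp
      refine mul_mem (mul_mem (pow_mem (lo_mem k J a b hab m) p) (rat_mem k J a b _)) ?_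
      have h4 : (fun n => Li (j + 1 + 1 - p) (vo m (xs a b n))) =
          zs k J a b (m, ⟨j + 1 - p, by omega⟩) := by
        funext n
        unfold zs
        congr 1
        simp only
        omega
      rw [h4]
      exact zs_mem k J a b _
    · exact mul_mem (mul_mem (pow_mem (lo_mem k J a b hab m) _) (rat_mem k J a b _))
        (zs_mem k J a b (m, 0))

include hab in
lemma yy_alg (i : Gn k J) : IsAlgebraic (adjoin kk
    (((Mf (Set.range fun j : Fin (J + 1) => gm (ts a b j)) : IntermediateField kk UU) : Set UU) ∪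
    Set.range fun p => gm (zs k J a b p))) (gm (fun n => rval (yy k J i) (xs a b n))) :=
  alg_of_mem (yy_mem k J a b hab i)

/-- constants as germs -/
noncomputable def cg : ℝ →+* UU := gm.comp (Pi.constRingHom ℕ ℝ)

lemma cg_apply (r : ℝ) : cg r = gm fun _ => r := rfl

/-- a set of constants over which the constants are algebraic -/
def WW (B : Set ℝ) : Set UU := insert (gm (ts a b 0)) (cg '' B)

lemma WW_card (B : Set ℝ) (β : ℕ) (hB : B.encard ≤ β) : (WW a b B).encard ≤ ((1 + β : ℕ) : ℕ∞) := by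
  unfold WW
  refine (Set.encard_insert_le _ _).trans ?_
  refine (add_le_add_left ((Set.encard_image_le _ _).trans hB) 1).trans ?_
  rw [add_comm]
  push_cast
  rfl

lemma ts_alg (B : Set ℝ) (hB : ∀ s, 2 ≤ s → s ≤ J + 1 → IsAlgebraic (adjoin ℚ B) (Li s 1))
    (j : Fin (J + 1)) : IsAlgebraic (adjoin kk (WW a b B)) (gm (ts a b j)) := by
  rcases j with ⟨_ | j, hj⟩
  · exact subset_Mf _ (Or.inl rfl)
  · have h1 : gm (ts a b (j + 1)) = cg (Li (j + 2) 1) := rfl
    change IsAlgebraic (adjoin kk (WW a b B)) (gm (ts a b (j + 1)))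
    rw [h1]
    have h2 := alg_map (K' := kk) (V := UU) cg (fun c : ℚ => ⟨gk fun _ => c, rfl⟩) B
      (hB (j + 2) (by omega) (by omega))
    exact alg_mono (Set.subset_insert _ _) h2

end main

/-! ### the transcendence degree of the constants -/

/-- the numbers `ζ(2), ..., ζ(S)` -/
def zset (S : ℕ) : Set ℝ := {r | ∃ s, 2 ≤ s ∧ s ≤ S ∧ r = Li s 1}

lemma zset_alg (S s : ℕ) (h2 : 2 ≤ s) (hs : s ≤ S) : IsAlgebraic (adjoin ℚ
    (insert (Li 2 1) (Set.range fun i : Fin ((S - 1) / 2) => Li (2 * i + 3) 1))) (Li s 1) := by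
  rcases Nat.even_or_odd' s with ⟨i, hi | hi⟩
  · obtain ⟨r, hr⟩ := even_zeta i (by omega)
    rw [hi, hr]
    have h3 : Li 2 1 ∈ (Mf (insert (Li 2 1) (Set.range fun i : Fin ((S - 1) / 2) => Li (2 * i + 3) 1)) :
      IntermediateField ℚ ℝ) := subset_Mf _ (Or.inl rfl)
    have h4 : (r : ℝ) ∈ (Mf (insert (Li 2 1) (Set.range fun i : Fin ((S - 1) / 2) => Li (2 * i + 3) 1)) :
      IntermediateField ℚ ℝ) := (Mf _ : IntermediateField ℚ ℝ).algebraMap_mem r
    exact mul_mem h4 (pow_mem h3 i)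
  · apply subset_Mf
    refine Or.inr ⟨⟨i - 1, by omega⟩, ?_⟩
    simp only
    congr 1
    omega

lemma zset_basis (S : ℕ) (hS : 1 ≤ S) : ∃ (B : Set ℝ) (β : ℕ), B.encard ≤ β ∧
    (∀ s, 2 ≤ s → s ≤ S → IsAlgebraic (adjoin ℚ B) (Li s 1)) ∧ β ≤ (S + 1) / 2 ∧
    (β : Cardinal) ≤ Algebra.trdeg ℚ (Algebra.adjoin ℚ (zset S)) := by
  obtain ⟨B, hBs, hBi, hB⟩ := exists_basis (K := ℚ) (zset S)
  have hfin : (zset S).Finite := by
    refine ((Set.finite_Iic S).image fun s => Li s 1).subset ?_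
    rintro _ ⟨s, _, hs, rfl⟩
    exact ⟨s, hs, rfl⟩
  have hBf : B.Finite := hfin.subset hBs
  let _ : Fintype B := hBf.fintype
  refine ⟨B, Fintype.card B, ?_, fun s h2 hs => hB _ ⟨s, h2, hs, rfl⟩, ?_, ?_⟩
  · rw [← ENat.card_eq_coe_fintype_card, ENat.card_coe_set_eq]
  · refine card_le (K := ℚ) (Y := fun b : B => (b : ℝ)) hBi
      (insert (Li 2 1) (Set.range fun i : Fin ((S - 1) / 2) => Li (2 * i + 3) 1)) _ ?_ ?_
    · refine (Set.encard_insert_le _ _).trans ?_
      rw [← Set.image_univ]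
      refine (add_le_add_left (Set.encard_image_le _ _) 1).trans ?_
      rw [Set.encard_univ, ENat.card_eq_coe_fintype_card, Fintype.card_fin]
      have : (S - 1) / 2 + 1 = (S + 1) / 2 := by omega
      rw [← this]
      push_cast
      exact le_refl _
    · rintro ⟨b, hb⟩
      obtain ⟨s, h2, hs, rfl⟩ := hBs hb
      exact zset_alg S s h2 hs
  · rw [← Cardinal.mk_fintype]
    have h1 : AlgebraicIndependent ℚ (fun b : B => (⟨b.1, Algebra.subset_adjoin (hBs b.2)⟩ :
        Algebra.adjoin ℚ (zset S))) := by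
      rw [← AlgHom.algebraicIndependent_iff (Algebra.adjoin ℚ (zset S)).val
        Subtype.val_injective]
      exact hBi
    exact h1.cardinalMk_le_trdeg

lemma pt_eq (a b : ℕ) (m : ℕ) (ha : 1 ≤ a) (hb : 1 ≤ b) :
    pt a b (m + 1) = vo m ((a : ℝ) / b) := by
  unfold pt vo
  have h1 : (a : ℝ) ≠ 0 := by exact_mod_cast (by omega : a ≠ 0)
  have h2 : (b : ℝ) ≠ 0 := by exact_mod_cast (by omega : b ≠ 0)
  have h3 : (0 : ℝ) < a := by positivity
  have h4 : (0 : ℝ) < b := by positivity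
  have h5 : (b : ℝ) / a + ((m + 1 : ℕ) : ℝ) ≠ 0 := by positivity
  have h6 : (1 : ℝ) + (m + 1) * (a / b) ≠ 0 := by positivity
  push_cast at h5 ⊢
  field_simp
  ring

theorem main (S D k : ℕ) (hS : 1 ≤ S) : ∃ C : ℕ, ∀ a b : ℕ, 1 ≤ a → C * a ^ C ≤ b →
    ∃ E : Finset (Fin k × Fin S),
      (E.card : Cardinal) ≤ 1 + Algebra.trdeg ℚ (Algebra.adjoin ℚ (zset S)) ∧
      E.card ≤ 1 + (S + 1) / 2 ∧
      ∀ P : MvPolynomial {p : Fin k × Fin S // p ∉ E} ℝ, P ≠ 0 → P.totalDegree ≤ D →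
        (∀ c, Alg S D a b (P.coeff c)) →
        MvPolynomial.aeval (fun p => Li (p.1.2 + 1) (pt a b (p.1.1 + 1))) P ≠ 0 := by
  classical
  obtain ⟨J, rfl⟩ : ∃ J, S = J + 1 := ⟨S - 1, by omega⟩
  obtain ⟨B, β, hBβ, hB, hβ1, hβ2⟩ := zset_basis (J + 1) (by omega)
  by_contra hcon
  push Not at hcon
  choose a b ha hb hE using fun n => hcon (n + 1)
  have hab : ∀ n, 1 ≤ a n ∧ n * a n ^ n ≤ b n := fun n => ⟨ha n, le_trans
    (Nat.mul_le_mul (Nat.le_succ n) (Nat.pow_le_pow_right (ha n) (Nat.le_succ n))) (hb n)⟩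
  have hb1 : ∀ n, 1 ≤ b n := fun n => le_trans (Nat.mul_pos (Nat.succ_pos n) (pow_pos (ha n) _)) (hb n)
  have hY : AlgebraicIndependent kk fun i => gm fun n => rval (yy k J i) (xs a b n) := by
    apply ind_gm
    intro d
    obtain ⟨C, hC⟩ := star_real k J d
    have h1 : ∀ᶠ n in (Filter.hyperfilter ℕ : Filter ℕ), C ≤ n :=
      Nat.hyperfilter_le_atTop (Filter.eventually_ge_atTop C)
    filter_upwards [h1] with n hn F hF h0
    exact hC (a n) (b n) (ha n) (le_trans (Nat.mul_le_mul hn (Nat.pow_le_pow_right (ha n) hn))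
      (hab n).2) F hF h0
  obtain ⟨I, hI, hcard⟩ := exists_indep (fun i => gm fun n => rval (yy k J i) (xs a b n)) hY
    (Mf (Set.range fun j : Fin (J + 1) => gm (ts a b j))) (WW a b B) (1 + β)
    (WW_card a b B β hBβ) (fun u hu => alg_trans (by
      rintro _ ⟨j, rfl⟩
      exact ts_alg J a b B hB j) hu) (fun p => gm (zs k J a b p)) (fun i =>
      yy_alg k J a b hab i)
  obtain ⟨E, hEd⟩ : ∃ E : Finset (Fin k × Fin (J + 1)), E = Finset.univ \ I := ⟨_, rfl⟩
  have hEc : E.card ≤ 1 + β := by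
    rw [hEd, Finset.card_sdiff_of_subset (Finset.subset_univ I), Finset.card_univ, Fintype.card_prod,
      Fintype.card_fin, Fintype.card_fin]
    rw [Fintype.card_sum, Fintype.card_prod, Fintype.card_fin, Fintype.card_fin] at hcard
    have : k * (J + 1) = k + k * J := by ring
    omega
  choose P hP0 hPD hPA hPz using fun n => hE n E (by
    calc ((E.card : ℕ) : Cardinal) ≤ ((1 + β : ℕ) : Cardinal) := by exact_mod_cast hEc
      _ = 1 + (β : Cardinal) := by push_cast; rfl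
      _ ≤ _ := add_le_add_right hβ2 1) (by omega)
  have hmem : ∀ p : {p : Fin k × Fin (J + 1) // p ∉ E}, p.1 ∈ I := by
    rintro ⟨p, hp⟩
    by_contra h
    apply hp
    rw [hEd]
    exact Finset.mem_sdiff.2 ⟨Finset.mem_univ _, h⟩
  have hz := hI.comp (fun p : {p : Fin k × Fin (J + 1) // p ∉ E} => (⟨p.1, hmem p⟩ : I)) (by
    intro p p' h
    have h1 : p.1 = p'.1 := congrArg (fun q : I => q.1) h
    exact Subtype.ext h1)
  have hz' : AlgebraicIndependent (Mf (Set.range fun j : Fin (J + 1) => gm (ts a b j)) :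
      IntermediateField kk UU) (fun p : {p : Fin k × Fin (J + 1) // p ∉ E} =>
        gm (zs k J a b p.1)) := hz
  have hc : ∀ c, gm (fun n => (P n).coeff c) ∈
      (Mf (Set.range fun j : Fin (J + 1) => gm (ts a b j)) : IntermediateField kk UU) := fun c =>
    root_gm D (fun (j : Fin (J + 1)) => ts a b j) (fun n => (P n).coeff c) fun n => hPA n c
  have h0 : ∀ n, MvPolynomial.aeval (fun p : {p : Fin k × Fin (J + 1) // p ∉ E} =>
      zs k J a b p.1 n) (P n) = 0 := by
    intro n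
    rw [← hPz n]
    congr 2
    funext p
    unfold zs xs
    rw [pt_eq (a n) (b n) p.1.1 (ha n) (hb1 n)]
  exact poly_gm (σ := {p : Fin k × Fin (J + 1) // p ∉ E})
    (Mf (Set.range fun j : Fin (J + 1) => gm (ts a b j))) D
    (fun p => zs k J a b p.1) P hPD hP0 hc hz' h0

end Pool.Agent.Lib.MP_524521_nt.PN
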