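import Pool.Agent.Lib.MP_f11a48_ag.GF.Defs
import Pool.Agent.Lib.MP_f11a48_ag.GF.Sym
import Pool.Agent.Lib.MP_f11a48_ag.CF.Mono

section
/-!
# Galochkin's condition for systems of iterated integrals

`F` is a finite set of linear forms `α X + β` with integer coefficients, `M f` strictly triangular
integer matrices; the system is `y' = ∑ f, (α_f / (α_f X + β_f)) M_f y`.
-/
set_option autoImplicit false

namespace Pool.Agent.Lib.MP_524521_nt.PN

open Polynomial Matrix
open Pool.Agent.Lib.MPf11a48.GF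

section gal

variable {F μ : Type} [Fintype F] [DecidableEq F] [Fintype μ] [DecidableEq μ]

/-- the linear form with index `f` -/
noncomputable def lf (α β : F → ℤ) (f : F) : ℤ[X] := C (α f) * X + C (β f)

/-- the product of the linear forms -/
noncomputable def TT (α β : F → ℤ) : ℤ[X] := ∏ f, lf α β f

/-- the product of the other linear forms -/
noncomputable def Th (α β : F → ℤ) (f : F) : ℤ[X] := ∏ g ∈ Finset.univ.erase f, lf α β g

/-- the matrix of the system -/
noncomputable def BB (α β : F → ℤ) (M : F → Matrix μ μ ℤ) : Matrix μ μ ℤ[X] :=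
  fun i j => ∑ f, C (M f i j) * (C (α f) * Th α β f)

/-- `T ^ (a + 1)` times the `a`-th divided derivative of `α / (α X + β)` -/
noncomputable def cc (α β : F → ℤ) (f : F) (a : ℕ) : ℤ[X] :=
  C ((-α f) ^ a * α f) * Th α β f ^ (a + 1)

lemma TT_eq (α β : F → ℤ) (f : F) : TT α β = lf α β f * Th α β f := by
  unfold TT Th
  rw [Finset.mul_prod_erase _ _ (Finset.mem_univ f)]

lemma der_cc (α β : F → ℤ) (f : F) (a : ℕ) :
    TT α β * derivative (cc α β f a) - ((a : ℤ[X]) + 1) * derivative (TT α β) * cc α β f a =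
      ((a : ℤ[X]) + 1) * cc α β f (a + 1) := by
  have h1 : derivative (cc α β f a) = C ((-α f) ^ a * α f) * (((a : ℤ[X]) + 1) *
      Th α β f ^ a * derivative (Th α β f)) := by
    unfold cc
    rw [derivative_mul, derivative_C, zero_mul, zero_add, derivative_pow]
    congr 1
    simp
  have h2 : derivative (TT α β) = C (α f) * Th α β f + lf α β f * derivative (Th α β f) := by
    rw [TT_eq α β f, derivative_mul]
    congr 2
    unfold lf
    simp
  rw [h1, h2, TT_eq α β f]
  unfold cc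
  rw [pow_succ (-α f) a]
  simp only [C_mul, C_pow, C_neg]
  ring

variable (α β : F → ℤ) (M : F → Matrix μ μ ℤ)

/-- the rows `dd` of the system, for the standard basis vectors -/
noncomputable def d (k : ℕ) (i j : μ) : ℚ[X] :=
  dd (zq (TT α β)) ((BB α β M).map zq) (Pi.single i 1) k j

/-- the polynomials `cc` over `ℚ` -/
noncomputable def cq (f : F) (a : ℕ) : ℚ[X] := zq (cc α β f a)

lemma der_cq (f : F) (a : ℕ) :
    zq (TT α β) * derivative (cq α β f a) -
      ((a : ℚ[X]) + 1) * derivative (zq (TT α β)) * cq α β f a =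
      ((a : ℚ[X]) + 1) * cq α β f (a + 1) := by
  have := congrArg zq (der_cc α β f a)
  unfold cq
  simpa only [zq, Polynomial.map_sub, Polynomial.map_mul, Polynomial.map_add, Polynomial.map_one,
    Polynomial.map_natCast, derivative_map] using this

lemma d_zero (i j : μ) : d α β M 0 i j = if j = i then 1 else 0 := by
  unfold d dd
  rw [Pi.single_apply]

lemma d_succ (k : ℕ) (i j : μ) :
    ((k : ℚ[X]) + 1) * d α β M (k + 1) i j =
      zq (TT α β) * derivative (d α β M k i j) +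
        ∑ h, d α β M k i h * ((BB α β M).map zq) h j -
        (k : ℚ[X]) * derivative (zq (TT α β)) * d α β M k i j := by
  have h1 : ((k : ℚ[X]) + 1) * C ((k + 1 : ℚ)⁻¹) = 1 := by
    have : ((k : ℚ[X]) + 1) = C ((k : ℚ) + 1) := by simp
    rw [this, ← C_mul, mul_inv_cancel₀ (by positivity), C_1]
  conv_lhs => unfold d dd
  rw [← mul_assoc, h1, one_mul]
  rfl

lemma BB_map (h j : μ) : ((BB α β M).map zq) h j = ∑ f, C ((M f h j : ℤ) : ℚ) * cq α β f 0 := by
  rw [Matrix.map_apply]
  unfold BB cq cc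
  simp only [zq, Polynomial.map_sum, Polynomial.map_mul, Polynomial.map_C, pow_zero, one_mul,
    zero_add, pow_one, Int.coe_castRingHom]

/-- the right-hand side of the recursion -/
noncomputable def RR (k : ℕ) (i j : μ) : ℚ[X] :=
  ∑ l, ∑ f, C ((M f i l : ℤ) : ℚ) *
    ∑ p ∈ Finset.HasAntidiagonal.antidiagonal k, cq α β f p.1 * d α β M p.2 l j

lemma RR_step (k : ℕ) (i j : μ) :
    zq (TT α β) * derivative (RR α β M k i j) +
        ∑ h, RR α β M k i h * ((BB α β M).map zq) h j -
        ((k : ℚ[X]) + 1) * derivative (zq (TT α β)) * RR α β M k i j =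
      ((k : ℚ[X]) + 1) * RR α β M (k + 1) i j := by
  have e1 : zq (TT α β) * derivative (RR α β M k i j) =
      ∑ l, ∑ f, C ((M f i l : ℤ) : ℚ) * ∑ p ∈ Finset.HasAntidiagonal.antidiagonal k,
        (zq (TT α β) * derivative (cq α β f p.1) * d α β M p.2 l j +
          cq α β f p.1 * (zq (TT α β) * derivative (d α β M p.2 l j))) := by
    unfold RR
    rw [derivative_sum, Finset.mul_sum]
    refine Finset.sum_congr rfl fun l _ => ?_
    rw [derivative_sum, Finset.mul_sum]
    refine Finset.sum_congr rfl fun f _ => ?_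
    rw [derivative_C_mul, mul_left_comm, derivative_sum, Finset.mul_sum]
    congr 1
    refine Finset.sum_congr rfl fun p _ => ?_
    rw [derivative_mul]
    ring
  have e2 : ∑ h, RR α β M k i h * ((BB α β M).map zq) h j =
      ∑ l, ∑ f, C ((M f i l : ℤ) : ℚ) * ∑ p ∈ Finset.HasAntidiagonal.antidiagonal k,
        cq α β f p.1 * ∑ h, d α β M p.2 l h * ((BB α β M).map zq) h j := by
    unfold RR
    simp only [Finset.sum_mul, Finset.mul_sum]
    rw [Finset.sum_comm]
    refine Finset.sum_congr rfl fun l _ => ?_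
    rw [Finset.sum_comm]
    refine Finset.sum_congr rfl fun f _ => ?_
    rw [Finset.sum_comm]
    refine Finset.sum_congr rfl fun p _ => ?_
    refine Finset.sum_congr rfl fun h _ => ?_
    ring
  have e3 : ((k : ℚ[X]) + 1) * derivative (zq (TT α β)) * RR α β M k i j =
      ∑ l, ∑ f, C ((M f i l : ℤ) : ℚ) * ∑ p ∈ Finset.HasAntidiagonal.antidiagonal k,
        (((p.1 : ℚ[X]) + 1) * derivative (zq (TT α β)) * cq α β f p.1 * d α β M p.2 l j +
          cq α β f p.1 * ((p.2 : ℚ[X]) * derivative (zq (TT α β)) * d α β M p.2 l j)) := by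
    unfold RR
    rw [Finset.mul_sum]
    refine Finset.sum_congr rfl fun l _ => ?_
    rw [Finset.mul_sum]
    refine Finset.sum_congr rfl fun f _ => ?_
    rw [mul_left_comm, Finset.mul_sum]
    congr 1
    refine Finset.sum_congr rfl fun p hp => ?_
    have hk : (k : ℚ[X]) = (p.1 : ℚ[X]) + (p.2 : ℚ[X]) := by
      rw [← Nat.cast_add, Finset.HasAntidiagonal.mem_antidiagonal.1 hp]
    rw [hk]
    ring
  rw [e1, e2, e3, ← Finset.sum_add_distrib, ← Finset.sum_sub_distrib]
  unfold RR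
  rw [Finset.mul_sum]
  refine Finset.sum_congr rfl fun l _ => ?_
  rw [← Finset.sum_add_distrib, ← Finset.sum_sub_distrib, Finset.mul_sum]
  refine Finset.sum_congr rfl fun f _ => ?_
  rw [← mul_add, ← mul_sub, mul_left_comm]
  congr 1
  rw [← Finset.sum_add_distrib, ← Finset.sum_sub_distrib]
  have e4 : ∀ p : ℕ × ℕ,
      (zq (TT α β) * derivative (cq α β f p.1) * d α β M p.2 l j +
          cq α β f p.1 * (zq (TT α β) * derivative (d α β M p.2 l j)) +
        cq α β f p.1 * ∑ h, d α β M p.2 l h * ((BB α β M).map zq) h j -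
        (((p.1 : ℚ[X]) + 1) * derivative (zq (TT α β)) * cq α β f p.1 * d α β M p.2 l j +
          cq α β f p.1 * ((p.2 : ℚ[X]) * derivative (zq (TT α β)) * d α β M p.2 l j))) =
      ((p.1 + 1 : ℕ) : ℚ[X]) * (cq α β f (p.1 + 1) * d α β M p.2 l j) +
        ((p.2 + 1 : ℕ) : ℚ[X]) * (cq α β f p.1 * d α β M (p.2 + 1) l j) := by
    intro p
    have h1 := der_cq α β f p.1
    have h2 := d_succ α β M p.2 l j
    push_cast
    linear_combination (d α β M p.2 l j) * h1 - (cq α β f p.1) * h2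
  rw [Finset.sum_congr rfl fun p _ => e4 p, Finset.sum_add_distrib]
  have e5 : ∑ p ∈ Finset.HasAntidiagonal.antidiagonal k,
      ((p.1 + 1 : ℕ) : ℚ[X]) * (cq α β f (p.1 + 1) * d α β M p.2 l j) =
      ∑ p ∈ Finset.HasAntidiagonal.antidiagonal (k + 1), (p.1 : ℚ[X]) * (cq α β f p.1 * d α β M p.2 l j) := by
    rw [Finset.Nat.sum_antidiagonal_succ]
    simp
  have e6 : ∑ p ∈ Finset.HasAntidiagonal.antidiagonal k,
      ((p.2 + 1 : ℕ) : ℚ[X]) * (cq α β f p.1 * d α β M (p.2 + 1) l j) =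
      ∑ p ∈ Finset.HasAntidiagonal.antidiagonal (k + 1), (p.2 : ℚ[X]) * (cq α β f p.1 * d α β M p.2 l j) := by
    rw [Finset.Nat.sum_antidiagonal_succ']
    simp
  rw [e5, e6, ← Finset.sum_add_distrib, Finset.mul_sum]
  refine Finset.sum_congr rfl fun p hp => ?_
  have hk : ((k : ℚ[X]) + 1) = (p.1 : ℚ[X]) + (p.2 : ℚ[X]) := by
    rw [← Nat.cast_add, Finset.HasAntidiagonal.mem_antidiagonal.1 hp]
    simp
  rw [hk]
  ring

/-- the recursion on the levels -/
lemma d_RR (k : ℕ) : ∀ i j, ((k : ℚ[X]) + 1) * d α β M (k + 1) i j = RR α β M k i j := by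
  induction k with
  | zero =>
    intro i j
    rw [d_succ]
    unfold RR
    simp only [d_zero, Finset.Nat.antidiagonal_zero, Finset.sum_singleton, Nat.cast_zero, zero_mul,
      sub_zero]
    have h1 : derivative (if j = i then (1 : ℚ[X]) else 0) = 0 := by split <;> simp
    rw [h1, mul_zero, zero_add]
    simp only [ite_mul, one_mul, zero_mul, Finset.sum_ite_eq', Finset.mem_univ, if_true,
      mul_ite, mul_one, mul_zero]
    rw [BB_map, Finset.sum_comm]
    refine Finset.sum_congr rfl fun f _ => ?_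
    rw [Finset.sum_ite_eq]
    simp
  | succ k ih =>
    intro i j
    have h0 : ((k : ℚ[X]) + 1) ≠ 0 := by
      have : ((k : ℚ[X]) + 1) = C ((k : ℚ) + 1) := by simp
      rw [this, Ne, C_eq_zero]
      positivity
    apply mul_left_cancel₀ h0
    rw [← RR_step, ← ih i j]
    have h2 : ∑ h, RR α β M k i h * ((BB α β M).map zq) h j =
        ((k : ℚ[X]) + 1) * ∑ h, d α β M (k + 1) i h * ((BB α β M).map zq) h j := by
      rw [Finset.mul_sum]
      refine Finset.sum_congr rfl fun h _ => ?_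
      rw [← ih i h]
      ring
    have h3 : derivative (((k : ℚ[X]) + 1) * d α β M (k + 1) i j) =
        ((k : ℚ[X]) + 1) * derivative (d α β M (k + 1) i j) := by
      rw [derivative_mul]
      simp
    rw [h2, h3, d_succ]
    push_cast
    ring

/-- denominators -/
lemma d_int (ρ : μ → ℕ) (hρ : ∀ f i l, M f i l ≠ 0 → ρ l < ρ i) (n : ℕ) (D : ℕ)
    (hD : ∀ k, 1 ≤ k → k ≤ n → k ∣ D) (r : ℕ) :
    ∀ i, ρ i ≤ r → ∀ k ≤ n, ∀ j, ∃ z : ℤ[X], ((D ^ r : ℕ) : ℚ[X]) * d α β M k i j = zq z := by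
  induction r with
  | zero =>
    intro i hi k hk j
    rcases k with _ | k
    · rw [d_zero]
      split
      · exact ⟨1, by simp⟩
      · exact ⟨0, by simp⟩
    · have h0 : ((k : ℚ[X]) + 1) ≠ 0 := by
        have : ((k : ℚ[X]) + 1) = C ((k : ℚ) + 1) := by simp
        rw [this, Ne, C_eq_zero]
        positivity
      have h1 : RR α β M k i j = 0 := by
        unfold RR
        refine Finset.sum_eq_zero fun l _ => Finset.sum_eq_zero fun f _ => ?_
        have : M f i l = 0 := by
          by_contra h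
          have := hρ f i l h
          omega
        rw [this]
        simp
      have h2 : d α β M (k + 1) i j = 0 := by
        apply mul_left_cancel₀ h0
        rw [d_RR, h1, mul_zero]
      exact ⟨0, by rw [h2]; simp⟩
  | succ r ih =>
    intro i hi k hk j
    rcases k with _ | k
    · rw [d_zero]
      split
      · exact ⟨((D ^ (r + 1) : ℕ) : ℤ[X]), by simp⟩
      · exact ⟨0, by simp⟩
    · obtain ⟨e, he⟩ := hD (k + 1) (by omega) hk
      -- the inner terms
      have hin : ∀ l f, ∀ p ∈ Finset.HasAntidiagonal.antidiagonal k, ∃ z : ℤ[X],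
          C ((M f i l : ℤ) : ℚ) * (((D ^ r : ℕ) : ℚ[X]) *
            (cq α β f p.1 * d α β M p.2 l j)) = zq z := by
        intro l f p hp
        by_cases hM : M f i l = 0
        · exact ⟨0, by rw [hM]; simp⟩
        · have h1 := hρ f i l hM
          have h2 := Finset.HasAntidiagonal.mem_antidiagonal.1 hp
          obtain ⟨z, hz⟩ := ih l (by omega) p.2 (by omega) j
          refine ⟨C (M f i l) * (cc α β f p.1 * z), ?_⟩
          have : zq (C (M f i l) * (cc α β f p.1 * z)) =
              C ((M f i l : ℤ) : ℚ) * (cq α β f p.1 * zq z) := by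
            unfold cq
            simp [zq]
          rw [this, ← hz]
          ring
      choose z hz using hin
      refine ⟨(e : ℤ[X]) * ∑ l, ∑ f, ∑ p ∈ (Finset.HasAntidiagonal.antidiagonal k).attach, z l f p.1 p.2, ?_⟩
      have h3 : ((D ^ (r + 1) : ℕ) : ℚ[X]) * d α β M (k + 1) i j =
          (e : ℚ[X]) * (((D ^ r : ℕ) : ℚ[X]) * RR α β M k i j) := by
        rw [← d_RR]
        have : ((D ^ (r + 1) : ℕ) : ℚ[X]) = ((D ^ r : ℕ) : ℚ[X]) * (((k + 1 : ℕ) : ℚ[X]) * (e : ℚ[X])) := by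
          rw [pow_succ]
          conv_lhs => rw [he]
          push_cast
          rw [he]
          push_cast
          ring
        rw [this]
        push_cast
        ring
      rw [h3]
      have h4 : ((D ^ r : ℕ) : ℚ[X]) * RR α β M k i j =
          zq (∑ l, ∑ f, ∑ p ∈ (Finset.HasAntidiagonal.antidiagonal k).attach, z l f p.1 p.2) := by
        unfold RR
        simp only [zq, Polynomial.map_sum]
        rw [Finset.mul_sum]
        refine Finset.sum_congr rfl fun l _ => ?_
        rw [Finset.mul_sum]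
        refine Finset.sum_congr rfl fun f _ => ?_
        rw [← Finset.sum_attach (Finset.HasAntidiagonal.antidiagonal k), Finset.mul_sum, Finset.mul_sum]
        refine Finset.sum_congr rfl fun p _ => ?_
        have := hz l f p.1 p.2
        simp only [zq] at this
        rw [← this]
        ring
      rw [h4]
      simp [zq]

omit [DecidableEq F] [Fintype F] [Fintype μ] [DecidableEq μ] in
/-- Chebyshev's bound -/
lemma lcm_bound : ∃ C : ℕ, 1 ≤ C ∧ ∀ n : ℕ, Nat.lcmUpto n ≤ C ^ n := by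
  obtain ⟨C, hC⟩ := exists_nat_ge (Real.exp (Real.log 4 + 4))
  have hC1 : 1 ≤ C := by
    have h1 : (1 : ℝ) ≤ Real.exp (Real.log 4 + 4) := by
      apply Real.one_le_exp
      have := Real.log_nonneg (by norm_num : (1 : ℝ) ≤ 4)
      positivity
    exact_mod_cast h1.trans hC
  refine ⟨C, hC1, fun n => ?_⟩
  have h2 := Chebyshev.psi_eq_log_lcmUpto n
  have h3 := Chebyshev.psi_le_const_mul_self (x := (n : ℝ)) (by positivity)
  have h4 : (Nat.lcmUpto n : ℝ) ≤ Real.exp (Real.log 4 + 4) ^ n := by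
    rw [← Real.exp_nat_mul, ← Real.log_le_iff_le_exp (by exact_mod_cast Nat.lcmUpto_pos n)]
    rw [← h2]
    refine h3.trans (le_of_eq ?_)
    ring
  have h5 : (Nat.lcmUpto n : ℝ) ≤ (C : ℝ) ^ n :=
    h4.trans (pow_le_pow_left₀ (Real.exp_pos _).le hC n)
  exact_mod_cast h5

omit [DecidableEq F] [Fintype F] [Fintype μ] [DecidableEq μ] in
lemma dvd_lcmUpto {n k : ℕ} (h1 : 1 ≤ k) (h2 : k ≤ n) : k ∣ Nat.lcmUpto n :=
  Finset.dvd_lcm (f := id) (Finset.mem_Icc.2 ⟨h1, h2⟩)

/-- Galochkin's condition -/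
theorem isGal (ρ : μ → ℕ) (hρ : ∀ f i l, M f i l ≠ 0 → ρ l < ρ i) :
    IsGal (TT α β) (BB α β M) := by
  obtain ⟨C, hC1, hC⟩ := lcm_bound
  obtain ⟨R, hR⟩ : ∃ R, ∀ i, ρ i ≤ R := ⟨Finset.univ.sup ρ, fun i => Finset.le_sup (Finset.mem_univ i)⟩
  refine ⟨C ^ R, fun n => ⟨Nat.lcmUpto n ^ R, pow_pos (Nat.lcmUpto_pos n) R, ?_, ?_⟩⟩
  · calc Nat.lcmUpto n ^ R ≤ (C ^ n) ^ R := Nat.pow_le_pow_left (hC n) R
      _ = (C ^ R) ^ n := by rw [← pow_mul, ← pow_mul, mul_comm]
      _ ≤ (C ^ R) ^ (n + 1) := Nat.pow_le_pow_right (Nat.one_le_pow _ _ hC1) (Nat.le_succ n)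
  · intro k hk i j
    exact d_int α β M ρ hρ n _ (fun k h1 h2 => dvd_lcmUpto h1 h2) R i (hR i) k hk j

end gal

end Pool.Agent.Lib.MP_524521_nt.PN
end

section
/-!
# The system of the logarithms and the Nielsen polylogarithms at `X / (1 + m X)`

`el m = log (1 + (m + 1) X) - log (1 + m X)`, `pw m i = (el m)^i / i!`, and `sn m j` is the primitive of
`pw m j / (X (1 + (m + 1) X))` without constant term.
-/
set_option autoImplicit false

namespace Pool.Agent.Lib.MP_524521_nt.PN

open Polynomial Matrix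
open scoped PowerSeries
open Pool.Agent.Lib.MPf11a48.GF

/-! ### the functions -/

/-- division of the `n`-th coefficient by `n` -/
noncomputable def Jo (u : ℚ⟦X⟧) : ℚ⟦X⟧ := PowerSeries.mk fun n => PowerSeries.coeff n u / n

/-- the inverse of `1 + m X` -/
noncomputable def geo (m : ℕ) : ℚ⟦X⟧ := PowerSeries.mk fun n => (-(m : ℚ)) ^ n

/-- `log (1 + (m + 1) X) - log (1 + m X)` -/
noncomputable def el (m : ℕ) : ℚ⟦X⟧ := Jo (geo m - geo (m + 1))

/-- the divided powers of `el m` -/
noncomputable def pw (m i : ℕ) : ℚ⟦X⟧ := PowerSeries.C ((i.factorial : ℚ)⁻¹) * el m ^ i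

/-- the Nielsen polylogarithm with indices `1, j` at `X / (1 + (m + 1) X)` -/
noncomputable def sn (m j : ℕ) : ℚ⟦X⟧ := Jo (pw m j * geo (m + 1))

lemma coeff_Jo (u : ℚ⟦X⟧) (n : ℕ) : PowerSeries.coeff n (Jo u) = PowerSeries.coeff n u / n := by
  unfold Jo
  rw [PowerSeries.coeff_mk]

lemma Jo_zero (u : ℚ⟦X⟧) : PowerSeries.constantCoeff (Jo u) = 0 := by
  rw [← PowerSeries.coeff_zero_eq_constantCoeff_apply, coeff_Jo]
  simp

lemma X_der_Jo (u : ℚ⟦X⟧) (hu : PowerSeries.constantCoeff u = 0) :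
    PowerSeries.X * PowerSeries.derivative ℚ (Jo u) = u := by
  ext n
  rcases n with _ | n
  · rw [PowerSeries.coeff_zero_X_mul, PowerSeries.coeff_zero_eq_constantCoeff_apply, hu]
  · rw [PowerSeries.coeff_succ_X_mul, PowerSeries.coeff_derivative, coeff_Jo]
    push_cast
    field_simp

lemma coeff_geo (m n : ℕ) : PowerSeries.coeff n (geo m) = (-(m : ℚ)) ^ n := by
  unfold geo
  rw [PowerSeries.coeff_mk]

lemma geo_spec (m : ℕ) : (1 + PowerSeries.C (m : ℚ) * PowerSeries.X) * geo m = 1 := by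
  ext n
  rw [add_mul, one_mul, mul_assoc, map_add, PowerSeries.coeff_C_mul]
  rcases n with _ | n
  · rw [PowerSeries.coeff_zero_X_mul, coeff_geo]
    simp
  · rw [PowerSeries.coeff_succ_X_mul, coeff_geo, coeff_geo, PowerSeries.coeff_one, if_neg (by omega),
      pow_succ]
    ring

lemma geo_const (m : ℕ) : PowerSeries.constantCoeff (geo m) = 1 := by
  rw [← PowerSeries.coeff_zero_eq_constantCoeff_apply, coeff_geo, pow_zero]

lemma X_mul_inj {a b : ℚ⟦X⟧} (h : PowerSeries.X * a = PowerSeries.X * b) : a = b :=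
  mul_left_cancel₀ PowerSeries.X_ne_zero h

lemma der_el (m : ℕ) : PowerSeries.derivative ℚ (el m) =
    PowerSeries.C ((m : ℚ) + 1) * geo (m + 1) - PowerSeries.C (m : ℚ) * geo m := by
  apply X_mul_inj
  unfold el
  rw [X_der_Jo _ (by rw [map_sub, geo_const, geo_const, sub_self])]
  have h1 := geo_spec m
  have h2 := geo_spec (m + 1)
  push_cast at h2
  linear_combination h1 - h2

lemma el_const (m : ℕ) : PowerSeries.constantCoeff (el m) = 0 := Jo_zero _

lemma pw_zero (m : ℕ) : pw m 0 = 1 := by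
  unfold pw
  simp

lemma pw_one (m : ℕ) : pw m 1 = el m := by
  unfold pw
  simp

lemma der_pw (m i : ℕ) : PowerSeries.derivative ℚ (pw m (i + 1)) =
    pw m i * PowerSeries.derivative ℚ (el m) := by
  unfold pw
  have h1 : PowerSeries.derivative ℚ (PowerSeries.C (((i + 1).factorial : ℚ)⁻¹)) = 0 := by
    simp
  rw [Derivation.leibniz, h1, smul_zero, add_zero, smul_eq_mul, Derivation.leibniz_pow]
  rw [Nat.add_sub_cancel, smul_eq_mul, nsmul_eq_mul]
  have h2 : PowerSeries.C (((i + 1).factorial : ℚ)⁻¹) * ((i + 1 : ℕ) : ℚ⟦X⟧) =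
      PowerSeries.C ((i.factorial : ℚ)⁻¹) := by
    have h3 : ((i + 1 : ℕ) : ℚ⟦X⟧) = PowerSeries.C (((i + 1 : ℕ) : ℚ)) := by simp
    rw [h3, ← map_mul, Nat.factorial_succ]
    congr 1
    push_cast
    have : (i.factorial : ℚ) ≠ 0 := by exact_mod_cast i.factorial_ne_zero
    have h5 : (i : ℚ) + 1 ≠ 0 := by positivity
    field_simp
  calc _ = (PowerSeries.C (((i + 1).factorial : ℚ)⁻¹) * ((i + 1 : ℕ) : ℚ⟦X⟧)) * (el m ^ i *
        PowerSeries.derivative ℚ (el m)) := by ring
    _ = _ := by rw [h2]; ring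

lemma pw_const (m i : ℕ) : PowerSeries.constantCoeff (pw m (i + 1)) = 0 := by
  unfold pw
  rw [map_mul, map_pow, el_const, zero_pow (Nat.succ_ne_zero i), mul_zero]

lemma sn_const (m j : ℕ) : PowerSeries.constantCoeff (sn m j) = 0 := Jo_zero _

lemma X_der_sn (m j : ℕ) : PowerSeries.X * PowerSeries.derivative ℚ (sn m (j + 1)) =
    pw m (j + 1) * geo (m + 1) := by
  unfold sn
  rw [X_der_Jo _ (by rw [map_mul, pw_const, zero_mul])]

/-! ### the system -/

variable (k J : ℕ)

/-- the index set -/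
abbrev Mu : Type := (Fin k × Fin (J + 2)) ⊕ (Fin k × Fin J)

/-- the index set of the linear forms `X` and `m X + 1`, `0 ≤ m ≤ k` -/
abbrev Fo : Type := Option (Fin (k + 1))

/-- the leading coefficients -/
def al : Fo k → ℤ
  | none => 1
  | some n => (n : ℕ)

/-- the constant terms -/
def be : Fo k → ℤ
  | none => 0
  | some _ => 1

/-- the matrices -/
def Ma : Fo k → Matrix (Mu k J) (Mu k J) ℤ
  | none => fun i l => match i, l with
    | Sum.inr (m, j), Sum.inl (m', i') => if m' = m ∧ (i' : ℕ) = j + 1 then 1 else 0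
    | _, _ => 0
  | some n => fun i l => match i, l with
    | Sum.inl (m, i), Sum.inl (m', i') => if m' = m ∧ (i' : ℕ) + 1 = i then
        (if (n : ℕ) = m + 1 then 1 else 0) - (if (n : ℕ) = m then 1 else 0) else 0
    | Sum.inr (m, j), Sum.inl (m', i') => if m' = m ∧ (i' : ℕ) = j + 1 then
        -(if (n : ℕ) = m + 1 then 1 else 0) else 0
    | _, _ => 0

/-- the ranks -/
def rk : Mu k J → ℕ
  | Sum.inl (_, i) => i
  | Sum.inr (_, j) => j + 2

/-- the solution -/
noncomputable def vv : Mu k J → ℚ⟦X⟧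
  | Sum.inl (m, i) => pw m i
  | Sum.inr (m, j) => sn m (j + 1)

lemma rk_lt (f : Fo k) (i l : Mu k J) (h : Ma k J f i l ≠ 0) : rk k J l < rk k J i := by
  rcases f with _ | n <;> rcases i with ⟨m, i⟩ | ⟨m, j⟩ <;> rcases l with ⟨m', i'⟩ | ⟨m', j'⟩ <;>
    simp only [Ma, ne_eq, not_true_eq_false] at h
  · split at h
    · rename_i hh
      simp only [rk]
      omega
    · exact absurd rfl h
  · split at h
    · rename_i hh
      simp only [rk]
      omega
    · exact absurd rfl h
  · split at h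
    · rename_i hh
      simp only [rk]
      omega
    · exact absurd rfl h

theorem gal : IsGal (TT (al k) (be k)) (BB (al k) (be k) (Ma k J)) :=
  isGal _ _ _ (rk k J) (rk_lt k J)

theorem TT_ne : TT (al k) (be k) ≠ 0 := by
  unfold TT
  rw [Finset.prod_ne_zero_iff]
  intro f _
  rcases f with _ | n
  · unfold lf al be
    simp
  · unfold lf al be
    intro h
    have := congrArg (fun p => Polynomial.coeff p 0) h
    simp at this

/-- a criterion for solutions -/
lemma isSol_of {F μ : Type} [Fintype F] [DecidableEq F] [Fintype μ] [DecidableEq μ]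
    (α β : F → ℤ) (M : F → Matrix μ μ ℤ) (y : μ → ℚ⟦X⟧) (w : μ → F → ℚ⟦X⟧)
    (h1 : ∀ i f, (zq (lf α β f) : ℚ⟦X⟧) * w i f =
      PowerSeries.C ((α f : ℤ) : ℚ) * ∑ j, PowerSeries.C ((M f i j : ℤ) : ℚ) * y j)
    (h2 : ∀ i, PowerSeries.derivative ℚ (y i) = ∑ f, w i f) :
    IsSol (zq (TT α β)) ((BB α β M).map zq) y := by
  intro i
  rw [h2, Finset.mul_sum]
  have e1 : ∀ f, ((zq (TT α β) : ℚ[X]) : ℚ⟦X⟧) * w i f =
      ∑ j, PowerSeries.C ((M f i j : ℤ) : ℚ) * (PowerSeries.C ((α f : ℤ) : ℚ) *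
        ((zq (Th α β f) : ℚ[X]) : ℚ⟦X⟧)) * y j := by
    intro f
    have : ((zq (TT α β) : ℚ[X]) : ℚ⟦X⟧) =
        ((zq (Th α β f) : ℚ[X]) : ℚ⟦X⟧) * ((zq (lf α β f) : ℚ[X]) : ℚ⟦X⟧) := by
      rw [TT_eq α β f, ← Polynomial.coe_mul, mul_comm]
      simp only [zq, Polynomial.map_mul]
    rw [this, mul_assoc, h1, Finset.mul_sum, Finset.mul_sum]
    refine Finset.sum_congr rfl fun j _ => ?_
    ring
  rw [Finset.sum_congr rfl fun f _ => e1 f, Finset.sum_comm]
  refine Finset.sum_congr rfl fun j _ => ?_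
  rw [← Finset.sum_mul]
  congr 1
  rw [Matrix.map_apply]
  unfold BB
  simp only [zq, Polynomial.map_sum, Polynomial.map_mul, Polynomial.map_C, Int.coe_castRingHom]
  have : ∀ s : Finset F, ∀ p : F → ℚ[X], ((∑ f ∈ s, p f : ℚ[X]) : ℚ⟦X⟧) = ∑ f ∈ s, (p f : ℚ⟦X⟧) := by
    intro s p
    exact map_sum (Polynomial.coeToPowerSeries.ringHom (R := ℚ)) p s
  rw [this]
  refine Finset.sum_congr rfl fun f _ => ?_
  rw [Polynomial.coe_mul, Polynomial.coe_mul, Polynomial.coe_C, Polynomial.coe_C]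

lemma lf_none : ((zq (lf (al k) (be k) none) : ℚ[X]) : ℚ⟦X⟧) = PowerSeries.X := by
  unfold lf al be
  simp [zq]

lemma lf_some (n : Fin (k + 1)) : ((zq (lf (al k) (be k) (some n)) : ℚ[X]) : ℚ⟦X⟧) =
    1 + PowerSeries.C ((n : ℕ) : ℚ) * PowerSeries.X := by
  have h : zq (lf (al k) (be k) (some n)) = C ((n : ℕ) : ℚ) * X + C 1 := by
    unfold lf al be
    simp only [zq, Polynomial.map_add, Polynomial.map_mul, Polynomial.map_C, Polynomial.map_X]
    simp
  rw [h, Polynomial.coe_add, Polynomial.coe_mul, Polynomial.coe_C, Polynomial.coe_C,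
    Polynomial.coe_X, map_one, add_comm]

/-- the quotient of `pw m (j + 1)` by `X` -/
noncomputable def qx (m j : ℕ) : ℚ⟦X⟧ := PowerSeries.mk fun n => PowerSeries.coeff (n + 1) (pw m (j + 1))

lemma qx_spec (m j : ℕ) : PowerSeries.X * qx m j = pw m (j + 1) := by
  ext n
  rcases n with _ | n
  · rw [PowerSeries.coeff_zero_X_mul, PowerSeries.coeff_zero_eq_constantCoeff_apply, pw_const]
  · rw [PowerSeries.coeff_succ_X_mul]
    unfold qx
    rw [PowerSeries.coeff_mk]

lemma der_sn (m j : ℕ) : PowerSeries.derivative ℚ (sn m (j + 1)) =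
    qx m j - PowerSeries.C ((m : ℚ) + 1) * geo (m + 1) * pw m (j + 1) := by
  apply X_mul_inj
  rw [X_der_sn, ← qx_spec m j]
  have h2 := geo_spec (m + 1)
  push_cast at h2
  linear_combination (PowerSeries.X * qx m j) * h2

/-- the summands of the derivatives -/
noncomputable def ww : Mu k J → Fo k → ℚ⟦X⟧
  | Sum.inl (_, ⟨0, _⟩), _ => 0
  | Sum.inl (_, ⟨_ + 1, _⟩), none => 0
  | Sum.inl (m, ⟨i + 1, _⟩), some n =>
    ((if (n : ℕ) = m + 1 then 1 else 0) - (if (n : ℕ) = m then 1 else 0)) *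
      (PowerSeries.C ((n : ℕ) : ℚ) * geo n) * pw m i
  | Sum.inr (m, j), none => qx m j
  | Sum.inr (m, j), some n => -(if (n : ℕ) = m + 1 then 1 else 0) *
      (PowerSeries.C ((n : ℕ) : ℚ) * geo n) * pw m (j + 1)

lemma sum_delta (m : Fin k) (i : Fin (J + 2)) (a : ℚ⟦X⟧) :
    ∑ j : Fin k × Fin (J + 2), (if j.1 = m ∧ (j.2 : ℕ) = i then a else 0) * pw j.1 j.2 = a * pw m i := by
  rw [Finset.sum_eq_single (m, i)]
  · simp
  · rintro ⟨m', i'⟩ _ h
    rw [if_neg, zero_mul]
    rintro ⟨h1, h2⟩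
    apply h
    simp only at h1 h2
    rw [h1, Fin.ext h2]
  · simp

theorem sol : IsSol (zq (TT (al k) (be k))) ((BB (al k) (be k) (Ma k J)).map zq) (vv k J) := by
  apply isSol_of (al k) (be k) (Ma k J) (vv k J) (ww k J)
  · intro i f
    rcases i with ⟨m, i⟩ | ⟨m, j⟩
    · rcases f with _ | n
      · have h1 : ww k J (Sum.inl (m, i)) none = 0 := by
          rcases i with ⟨_ | i, hi⟩ <;> rfl
        rw [h1, mul_zero, Finset.sum_eq_zero, mul_zero]
        intro j _
        have h2 : Ma k J none (Sum.inl (m, i)) j = 0 := by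
          rcases j with ⟨m', i'⟩ | ⟨m', j'⟩ <;> rfl
        rw [h2]
        simp
      · rw [lf_some]
        rcases i with ⟨_ | i, hi⟩
        · have h1 : ww k J (Sum.inl (m, ⟨0, hi⟩)) (some n) = 0 := rfl
          rw [h1, mul_zero, Finset.sum_eq_zero, mul_zero]
          intro j _
          have h2 : Ma k J (some n) (Sum.inl (m, ⟨0, hi⟩)) j = 0 := by
            rcases j with ⟨m', i'⟩ | ⟨m', j'⟩
            · simp only [Ma]
              rw [if_neg]
              rintro ⟨_, h⟩
              omega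
            · rfl
          rw [h2]
          simp
        · obtain ⟨δ, hδ⟩ : ∃ δ : ℤ, δ = (if (n : ℕ) = m + 1 then 1 else 0) - (if (n : ℕ) = m then 1 else 0) :=
            ⟨_, rfl⟩
          have h1 : ww k J (Sum.inl (m, ⟨i + 1, hi⟩)) (some n) =
              PowerSeries.C (δ : ℚ) * (PowerSeries.C ((n : ℕ) : ℚ) * geo n) * pw m i := by
            simp only [ww]
            rw [hδ]
            push_cast
            congr 2
            split <;> split <;> simp
          have h2 : ∑ j, PowerSeries.C ((Ma k J (some n) (Sum.inl (m, ⟨i + 1, hi⟩)) j : ℤ) : ℚ) * vv k J j =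
              PowerSeries.C (δ : ℚ) * pw m i := by
            rw [Fintype.sum_sum_type]
            have e1 : ∀ j : Fin k × Fin J, PowerSeries.C ((Ma k J (some n) (Sum.inl (m, ⟨i + 1, hi⟩))
                (Sum.inr j) : ℤ) : ℚ) * vv k J (Sum.inr j) = 0 := by
              intro j
              simp only [Ma]
              simp
            rw [Finset.sum_eq_zero fun j _ => e1 j, add_zero]
            have e2 := sum_delta k J m ⟨i, by omega⟩ (PowerSeries.C (δ : ℚ))
            rw [← e2]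
            refine Finset.sum_congr rfl fun j _ => ?_
            simp only [Ma, vv]
            congr 1
            rw [← hδ]
            have : (((j.2 : ℕ) + 1 = i + 1) ↔ ((j.2 : ℕ) = i)) := by omega
            simp only [this]
            split <;> simp
          rw [h1, h2]
          have h3 := geo_spec n
          have h4 : PowerSeries.C ((al k (some n) : ℤ) : ℚ) = PowerSeries.C ((n : ℕ) : ℚ) := by
            simp [al]
          rw [h4]
          linear_combination (PowerSeries.C (δ : ℚ) * PowerSeries.C ((n : ℕ) : ℚ) * pw m i) * h3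
    · rcases f with _ | n
      · rw [lf_none]
        have h2 : ∑ l, PowerSeries.C ((Ma k J none (Sum.inr (m, j)) l : ℤ) : ℚ) * vv k J l =
            pw m (j + 1) := by
          rw [Fintype.sum_sum_type]
          have e1 : ∀ l : Fin k × Fin J, PowerSeries.C ((Ma k J none (Sum.inr (m, j))
              (Sum.inr l) : ℤ) : ℚ) * vv k J (Sum.inr l) = 0 := by
            intro l
            simp only [Ma]
            simp
          rw [Finset.sum_eq_zero fun l _ => e1 l, add_zero]
          have e2 := sum_delta k J m ⟨j + 1, by omega⟩ 1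
          rw [one_mul] at e2
          rw [← e2]
          refine Finset.sum_congr rfl fun l _ => ?_
          simp only [Ma, vv]
          congr 1
          split <;> simp
        rw [h2]
        have h4 : PowerSeries.C ((al k none : ℤ) : ℚ) = 1 := by
          simp [al]
        rw [h4, one_mul]
        exact qx_spec m j
      · rw [lf_some]
        obtain ⟨δ, hδ⟩ : ∃ δ : ℤ, δ = -(if (n : ℕ) = m + 1 then 1 else 0) := ⟨_, rfl⟩
        have h1 : ww k J (Sum.inr (m, j)) (some n) =
            PowerSeries.C (δ : ℚ) * (PowerSeries.C ((n : ℕ) : ℚ) * geo n) * pw m (j + 1) := by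
          simp only [ww]
          rw [hδ]
          push_cast
          congr 2
          split <;> simp
        have h2 : ∑ l, PowerSeries.C ((Ma k J (some n) (Sum.inr (m, j)) l : ℤ) : ℚ) * vv k J l =
            PowerSeries.C (δ : ℚ) * pw m (j + 1) := by
          rw [Fintype.sum_sum_type]
          have e1 : ∀ l : Fin k × Fin J, PowerSeries.C ((Ma k J (some n) (Sum.inr (m, j))
              (Sum.inr l) : ℤ) : ℚ) * vv k J (Sum.inr l) = 0 := by
            intro l
            simp only [Ma]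
            simp
          rw [Finset.sum_eq_zero fun l _ => e1 l, add_zero]
          have e2 := sum_delta k J m ⟨j + 1, by omega⟩ (PowerSeries.C (δ : ℚ))
          rw [← e2]
          refine Finset.sum_congr rfl fun l _ => ?_
          simp only [Ma, vv]
          congr 1
          rw [← hδ]
          split <;> simp
        rw [h1, h2]
        have h3 := geo_spec n
        have h4 : PowerSeries.C ((al k (some n) : ℤ) : ℚ) = PowerSeries.C ((n : ℕ) : ℚ) := by
          simp [al]
        rw [h4]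
        linear_combination (PowerSeries.C (δ : ℚ) * PowerSeries.C ((n : ℕ) : ℚ) * pw m (j + 1)) * h3
  · intro i
    have hsum : ∀ (m : Fin k) (a : ℚ⟦X⟧), ∑ n : Fin (k + 1),
        (if (n : ℕ) = m + 1 then 1 else 0) * (PowerSeries.C ((n : ℕ) : ℚ) * geo n) * a =
          (PowerSeries.C ((m : ℚ) + 1) * geo (m + 1)) * a := by
      intro m a
      rw [Finset.sum_eq_single (⟨m + 1, by omega⟩ : Fin (k + 1))]
      · simp
      · intro n _ hn
        rw [if_neg, zero_mul, zero_mul]
        intro h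
        exact hn (Fin.ext h)
      · simp
    have hsum' : ∀ (m : Fin k) (a : ℚ⟦X⟧), ∑ n : Fin (k + 1),
        (if (n : ℕ) = m then 1 else 0) * (PowerSeries.C ((n : ℕ) : ℚ) * geo n) * a =
          (PowerSeries.C ((m : ℕ) : ℚ) * geo m) * a := by
      intro m a
      rw [Finset.sum_eq_single (⟨m, by omega⟩ : Fin (k + 1))]
      · simp
      · intro n _ hn
        rw [if_neg, zero_mul, zero_mul]
        intro h
        exact hn (Fin.ext h)
      · simp
    rcases i with ⟨m, ⟨_ | i, hi⟩⟩ | ⟨m, j⟩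
    · rw [Finset.sum_eq_zero fun f _ => (rfl : ww k J (Sum.inl (m, ⟨0, hi⟩)) f = 0)]
      simp only [vv]
      rw [pw_zero]
      simp
    · rw [Fintype.sum_option]
      simp only [ww, vv]
      rw [der_pw, der_el, zero_add]
      simp only [sub_mul, Finset.sum_sub_distrib]
      rw [hsum, hsum']
      ring
    · rw [Fintype.sum_option]
      simp only [ww, vv]
      rw [der_sn]
      simp only [neg_mul, Finset.sum_neg_distrib]
      rw [hsum]
      ring

/-! ### G-functions -/

/-- a single G-function -/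
def G1 (s : ℚ⟦X⟧) : Prop := IsG fun _ : Unit => s

lemma G1.mul {s t : ℚ⟦X⟧} (hs : G1 s) (ht : G1 t) : G1 (s * t) :=
  SymM.isG_mul _ _ hs ht (fun _ : Unit => ()) (fun _ : Unit => ())

lemma G1.one : G1 1 := SymM.isG_one Unit

lemma G1.pow {s : ℚ⟦X⟧} (hs : G1 s) (n : ℕ) : G1 (s ^ n) := by
  induction n with
  | zero => rw [pow_zero]; exact G1.one
  | succ n ih => rw [pow_succ]; exact ih.mul hs

lemma G1.inv_nat {n : ℕ} (hn : n ≠ 0) : G1 (PowerSeries.C ((n : ℚ)⁻¹)) := by
  have hn' : (n : ℚ) ≠ 0 := by exact_mod_cast hn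
  have h1 : (1 : ℚ) ≤ n := by exact_mod_cast Nat.one_le_iff_ne_zero.2 hn
  refine ⟨n, fun N => ⟨n, Nat.pos_of_ne_zero hn, ?_, fun _ k _ => ⟨if k = 0 then 1 else 0, ?_⟩, fun _ => ?_⟩⟩
  · exact Nat.le_self_pow (by omega) n
  · rw [PowerSeries.coeff_C]
    split
    · rw [mul_inv_cancel₀ hn']; simp
    · simp
  · rw [PowerSeries.coeff_C]
    split
    · rw [abs_inv, abs_of_nonneg (by positivity)]
      exact (inv_le_one_of_one_le₀ h1).trans (one_le_pow₀ h1)
    · rw [abs_zero]; positivity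

lemma G1.Jo {s : ℚ⟦X⟧} (hs : G1 s) : G1 (Jo s) := by
  obtain ⟨C, hC⟩ := hs
  obtain ⟨L, hL1, hL⟩ := lcm_bound
  have h1 : 1 ≤ C := by
    obtain ⟨q, hq, hq', _⟩ := hC 0
    simp at hq'
    omega
  refine ⟨C * L, fun n => ?_⟩
  obtain ⟨q, hq, hqC, hqi, hqs⟩ := hC n
  refine ⟨q * Nat.lcmUpto n, Nat.mul_pos hq (Nat.lcmUpto_pos n), ?_, fun _ k hk => ?_, fun _ => ?_⟩
  · rw [mul_pow]
    refine Nat.mul_le_mul hqC ((hL n).trans (Nat.pow_le_pow_right hL1 (Nat.le_succ n)))
  · rw [coeff_Jo]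
    rcases k with _ | k
    · exact ⟨0, by simp⟩
    · obtain ⟨z, hz⟩ := hqi () (k + 1) hk
      obtain ⟨e, he⟩ := dvd_lcmUpto (n := n) (k := k + 1) (by omega) hk
      refine ⟨z * e, ?_⟩
      have hk0 : ((k + 1 : ℕ) : ℚ) ≠ 0 := by exact_mod_cast Nat.succ_ne_zero k
      push_cast at hz ⊢
      rw [he]
      push_cast at hk0 ⊢
      rw [← hz]
      field_simp
  · rw [coeff_Jo]
    refine le_trans ?_ ((hqs ()).trans ?_)
    · rw [abs_div]
      rcases n with _ | n
      · simp
      · apply div_le_self (abs_nonneg _)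
        rw [abs_of_nonneg (by positivity)]
        push_cast
        linarith [(Nat.cast_nonneg n : (0 : ℚ) ≤ n)]
    · push_cast
      refine pow_le_pow_left₀ (by positivity) ?_ _
      have : (1 : ℚ) ≤ L := by exact_mod_cast hL1
      nlinarith [(Nat.cast_nonneg C : (0 : ℚ) ≤ C)]

lemma G1.geo (m : ℕ) : G1 (geo m) := by
  refine ⟨m + 1, fun n => ⟨1, one_pos, Nat.one_le_pow _ _ (by omega), fun _ k _ => ⟨(-(m : ℤ)) ^ k, ?_⟩,
    fun _ => ?_⟩⟩
  · rw [coeff_geo]
    push_cast
    ring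
  · rw [coeff_geo, abs_pow, abs_neg, abs_of_nonneg (by positivity : (0 : ℚ) ≤ m), pow_succ]
    push_cast
    have h1 : (m : ℚ) ^ n ≤ ((m : ℚ) + 1) ^ n := pow_le_pow_left₀ (by positivity) (by linarith) n
    have h2 : (0 : ℚ) ≤ ((m : ℚ) + 1) ^ n := by positivity
    nlinarith [(Nat.cast_nonneg m : (0 : ℚ) ≤ m)]

lemma G1.sub_geo (m : ℕ) : G1 (PN.geo m - PN.geo (m + 1)) := by
  refine ⟨2 * (m + 2), fun n => ⟨1, one_pos, Nat.one_le_pow _ _ (by omega),
    fun _ k _ => ⟨(-(m : ℤ)) ^ k - (-((m + 1 : ℕ) : ℤ)) ^ k, ?_⟩, fun _ => ?_⟩⟩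
  · rw [map_sub, coeff_geo, coeff_geo]
    push_cast
    ring
  · rw [map_sub, coeff_geo, coeff_geo]
    have h1 : |(-(m : ℚ)) ^ n| ≤ ((m : ℚ) + 2) ^ (n + 1) := by
      rw [abs_pow, abs_neg, abs_of_nonneg (by positivity : (0 : ℚ) ≤ m)]
      calc (m : ℚ) ^ n ≤ ((m : ℚ) + 2) ^ n := pow_le_pow_left₀ (by positivity) (by linarith) n
        _ ≤ ((m : ℚ) + 2) ^ (n + 1) := pow_le_pow_right₀ (by linarith [(Nat.cast_nonneg m : (0 : ℚ) ≤ m)])
            (Nat.le_succ n)
    have h2 : |(-((m + 1 : ℕ) : ℚ)) ^ n| ≤ ((m : ℚ) + 2) ^ (n + 1) := by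
      rw [abs_pow, abs_neg, abs_of_nonneg (by positivity : (0 : ℚ) ≤ ((m + 1 : ℕ) : ℚ))]
      push_cast
      calc ((m : ℚ) + 1) ^ n ≤ ((m : ℚ) + 2) ^ n := pow_le_pow_left₀ (by positivity) (by linarith) n
        _ ≤ ((m : ℚ) + 2) ^ (n + 1) := pow_le_pow_right₀ (by linarith [(Nat.cast_nonneg m : (0 : ℚ) ≤ m)])
            (Nat.le_succ n)
    refine (abs_sub _ _).trans ((add_le_add h1 h2).trans ?_)
    push_cast
    rw [mul_pow, pow_succ 2 n]
    have h3 : (1 : ℚ) ≤ 2 ^ n := one_le_pow₀ (by norm_num)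
    have h4 : (0 : ℚ) ≤ ((m : ℚ) + 2) ^ (n + 1) := by positivity
    nlinarith

lemma G1.el (m : ℕ) : G1 (el m) := (G1.sub_geo m).Jo

lemma G1.pw (m i : ℕ) : G1 (pw m i) :=
  (G1.inv_nat i.factorial_ne_zero).mul ((G1.el m).pow i)

lemma G1.sn (m j : ℕ) : G1 (sn m j) := ((G1.pw m j).mul (G1.geo (m + 1))).Jo

lemma isG_of_G1 {κ : Type} [Fintype κ] [DecidableEq κ] (u : κ → ℚ⟦X⟧) (h : ∀ i, G1 (u i)) : IsG u := by
  obtain ⟨C, hC⟩ := Pool.Agent.Lib.MPf11a48.CF.MonoM.isG_fin (fun i (_ : Unit) => u i) h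
  refine ⟨C, fun n => ?_⟩
  obtain ⟨q, hq, hqC, hqi, hqs⟩ := hC n
  exact ⟨q, hq, hqC, fun i k hk => hqi (i, ()) k hk, fun i => hqs (i, ())⟩

theorem isG_vv : IsG (vv k J) := by
  apply isG_of_G1
  rintro (⟨m, i⟩ | ⟨m, j⟩)
  · exact G1.pw m i
  · exact G1.sn m (j + 1)

end Pool.Agent.Lib.MP_524521_nt.PN
end

section
/-!
# Residues: sums of simple fractions are not derivatives of rational functions
-/
set_option autoImplicit false

namespace Pool.Agent.Lib.MP_524521_nt.PN

open Polynomial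
open Pool.Agent.Lib.MPf11a48.GF

lemma resid (ρ : ℚ) (T N p q : ℚ[X]) (hT : T.eval ρ ≠ 0) (hN : N.eval ρ ≠ 0) (hq : q ≠ 0)
    (h : (X - C ρ) * T * (derivative p * q - p * derivative q) = q ^ 2 * N) : False := by
  have hN0 : N ≠ 0 := by
    rintro rfl
    simp at hN
  have hp : p ≠ 0 := by
    rintro rfl
    rw [derivative_zero, zero_mul, zero_mul, sub_zero, mul_zero] at h
    exact (mul_ne_zero (pow_ne_zero 2 hq) hN0) h.symm
  obtain ⟨l, p1, hp1, hl⟩ : ∃ (l : ℕ) (p1 : ℚ[X]), p = (X - C ρ) ^ l * p1 ∧ p1.eval ρ ≠ 0 := by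
    obtain ⟨r, h1, h2⟩ := exists_eq_pow_rootMultiplicity_mul_and_not_dvd p hp ρ
    exact ⟨_, r, h1, fun h3 => h2 (dvd_iff_isRoot.2 h3)⟩
  obtain ⟨n, q1, hq1, hn⟩ : ∃ (n : ℕ) (q1 : ℚ[X]), q = (X - C ρ) ^ n * q1 ∧ q1.eval ρ ≠ 0 := by
    obtain ⟨r, h1, h2⟩ := exists_eq_pow_rootMultiplicity_mul_and_not_dvd q hq ρ
    exact ⟨_, r, h1, fun h3 => h2 (dvd_iff_isRoot.2 h3)⟩
  obtain ⟨π, hπ⟩ : ∃ π : ℚ[X], π = X - C ρ := ⟨_, rfl⟩
  have hπ0 : π ≠ 0 := by rw [hπ]; exact X_sub_C_ne_zero ρ
  have hπe : π.eval ρ = 0 := by rw [hπ]; simp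
  have hπd : derivative π = 1 := by rw [hπ]; simp
  rw [← hπ] at h hp1 hq1
  have hder : ∀ (m : ℕ) (s : ℚ[X]), π * derivative (π ^ m * s) =
      π ^ m * ((m : ℚ[X]) * s + π * derivative s) := by
    intro m s
    rw [derivative_mul, derivative_pow, hπd, mul_one]
    rcases m with _ | m
    · simp
    · rw [Nat.add_sub_cancel, pow_succ]
      simp only [map_natCast]
      ring
  have hW : π * (derivative p * q - p * derivative q) =
      π ^ (l + n) * (((l : ℚ[X]) - n) * (p1 * q1) + π * (derivative p1 * q1 - p1 * derivative q1)) := by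
    have e1 := hder l p1
    have e2 := hder n q1
    rw [← hp1] at e1
    rw [← hq1] at e2
    have e3 : π * (derivative p * q - p * derivative q) =
        (π * derivative p) * q - p * (π * derivative q) := by ring
    rw [e3, e1, e2]
    rw [pow_add]
    calc _ = π ^ l * (l * p1 + π * derivative p1) * (π ^ n * q1) -
          (π ^ l * p1) * (π ^ n * (n * q1 + π * derivative q1)) := by rw [← hp1, ← hq1]
      _ = _ := by ring
  have hkey : T * (π ^ (l + n) * (((l : ℚ[X]) - n) * (p1 * q1) +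
      π * (derivative p1 * q1 - p1 * derivative q1))) = π ^ (n + n) * (q1 ^ 2 * N) := by
    rw [← hW]
    calc _ = π * T * (derivative p * q - p * derivative q) := by ring
      _ = q ^ 2 * N := h
      _ = (π ^ n * q1) ^ 2 * N := by rw [← hq1]
      _ = _ := by rw [pow_add]; ring
  rcases lt_trichotomy l n with hln | hln | hln
  · obtain ⟨e, rfl⟩ := Nat.exists_eq_add_of_lt hln
    have h1 : T * (((l : ℚ[X]) - ((l + e + 1 : ℕ) : ℚ[X])) * (p1 * q1) +
        π * (derivative p1 * q1 - p1 * derivative q1)) = π ^ (e + 1) * (q1 ^ 2 * N) := by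
      apply mul_left_cancel₀ (pow_ne_zero (l + (l + e + 1)) hπ0)
      have h2 : π ^ (l + (l + e + 1)) * (π ^ (e + 1) * (q1 ^ 2 * N)) =
          π ^ ((l + e + 1) + (l + e + 1)) * (q1 ^ 2 * N) := by
        rw [← mul_assoc, ← pow_add]
        congr 2
        omega
      rw [h2, ← hkey]
      ring
    have h3 := congrArg (Polynomial.eval ρ) h1
    simp only [eval_mul, eval_add, eval_sub, eval_pow, hπe, zero_mul, add_zero, eval_natCast] at h3
    rw [zero_pow (Nat.succ_ne_zero e), zero_mul] at h3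
    have h4 : ((l : ℚ) - ((l + e + 1 : ℕ) : ℚ)) ≠ 0 := by
      push_cast
      have : (0 : ℚ) ≤ e := by positivity
      intro h5
      linarith
    exact mul_ne_zero hT (mul_ne_zero h4 (mul_ne_zero hl hn)) h3
  · subst hln
    have h1 : T * (π * (derivative p1 * q1 - p1 * derivative q1)) = q1 ^ 2 * N := by
      apply mul_left_cancel₀ (pow_ne_zero (l + l) hπ0)
      rw [← hkey]
      ring
    have h3 := congrArg (Polynomial.eval ρ) h1
    simp only [eval_mul, eval_pow, hπe, zero_mul, mul_zero] at h3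
    exact mul_ne_zero (pow_ne_zero 2 hn) hN h3.symm
  · obtain ⟨e, rfl⟩ := Nat.exists_eq_add_of_lt hln
    have h1 : T * (π ^ (e + 1) * ((((n + e + 1 : ℕ) : ℚ[X]) - n) * (p1 * q1) +
        π * (derivative p1 * q1 - p1 * derivative q1))) = q1 ^ 2 * N := by
      apply mul_left_cancel₀ (pow_ne_zero (n + n) hπ0)
      rw [← hkey]
      have h2 : π ^ (n + e + 1 + n) = π ^ (n + n) * π ^ (e + 1) := by
        rw [← pow_add]
        congr 1
        omega
      rw [h2]
      ring
    have h3 := congrArg (Polynomial.eval ρ) h1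
    simp only [eval_mul, eval_pow, hπe] at h3
    rw [zero_pow (Nat.succ_ne_zero e), zero_mul, mul_zero] at h3
    exact mul_ne_zero (pow_ne_zero 2 hn) hN h3.symm

/-- sums of simple fractions with different poles are not derivatives of rational functions -/
theorem res {F : Type} [Fintype F] [DecidableEq F] (α β : F → ℤ)
    (hcop : ∀ f g, f ≠ g → α f ≠ 0 → α g * β f ≠ α f * β g) (c : F → ℚ) (p q : ℚ[X]) (hq : q ≠ 0)
    (h : zq (TT α β) * (derivative p * q - p * derivative q) =
      q ^ 2 * ∑ f, zq (C (α f) * Th α β f) * C (c f)) (f : F) (hf : α f ≠ 0) : c f = 0 := by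
  by_contra hc
  obtain ⟨ρ, hρ⟩ : ∃ ρ : ℚ, ρ = -(β f : ℚ) / α f := ⟨_, rfl⟩
  have hf' : (α f : ℚ) ≠ 0 := by exact_mod_cast hf
  have hev : ∀ g, (zq (lf α β g)).eval ρ = α g * ρ + β g := by
    intro g
    unfold lf
    simp [zq]
  have hL : zq (lf α β f) = C (α f : ℚ) * (X - C ρ) := by
    have : zq (lf α β f) = C (α f : ℚ) * X + C (β f : ℚ) := by
      unfold lf
      simp [zq]
    rw [this, mul_sub, sub_eq_add_neg]
    congr 1
    rw [← C_mul, ← C_neg, hρ]
    congr 1
    field_simp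
  have hne : ∀ g, g ≠ f → (zq (lf α β g)).eval ρ ≠ 0 := by
    intro g hg h0
    rw [hev, hρ] at h0
    have h1 := hcop f g hg.symm hf
    apply h1
    have h2 : (α g : ℚ) * β f = α f * β g := by
      field_simp at h0
      linarith
    exact_mod_cast h2
  have hTh : (zq (Th α β f)).eval ρ ≠ 0 := by
    unfold Th
    simp only [zq, Polynomial.map_prod]
    rw [eval_prod, Finset.prod_ne_zero_iff]
    intro g hg
    exact hne g (Finset.mem_erase.1 hg).1
  have hTg : ∀ g, g ≠ f → (zq (Th α β g)).eval ρ = 0 := by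
    intro g hg
    unfold Th
    simp only [zq, Polynomial.map_prod]
    rw [eval_prod, Finset.prod_eq_zero_iff]
    refine ⟨f, Finset.mem_erase.2 ⟨hg.symm, Finset.mem_univ f⟩, ?_⟩
    have h3 := congrArg (Polynomial.eval ρ) hL
    simp only [zq] at h3
    rw [h3]
    simp
  apply resid ρ (C (α f : ℚ) * zq (Th α β f)) (∑ f, zq (C (α f) * Th α β f) * C (c f)) p q
  · rw [eval_mul, eval_C]
    exact mul_ne_zero hf' hTh
  · rw [eval_finsetSum, Finset.sum_eq_single f]
    · simp only [zq, Polynomial.map_mul, eval_mul, Polynomial.map_C, eval_C]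
      exact mul_ne_zero (mul_ne_zero hf' hTh) hc
    · intro g _ hg
      have := hTg g hg
      simp only [zq] at this
      simp only [zq, Polynomial.map_mul, eval_mul, Polynomial.map_C, eval_C]
      rw [this]
      simp
    · intro h
      exact absurd (Finset.mem_univ f) h
  · exact hq
  · rw [← h]
    have : zq (TT α β) = zq (lf α β f) * zq (Th α β f) := by
      rw [TT_eq α β f]
      simp only [zq, Polynomial.map_mul]
    rw [this, hL]
    ring

end Pool.Agent.Lib.MP_524521_nt.PN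
end
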