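import Pool.Agent.Lib.MP_f11a48_ag.GF.Sym
import Pool.Agent.Lib.MP_f11a48_ag.GF.Der
import Pool.Agent.Lib.MP_524521_nt.PN.Res
import Pool.Agent.Lib.MP_f11a48_ag.GF.Bnd
import Pool.Agent.Lib.MP_f11a48_ag.GF.Solv
import Pool.Agent.Lib.MP_f11a48_ag.GF.Sieg
import Pool.Agent.Lib.MP_f11a48_ag.GF.Bdd
import Pool.Agent.Lib.MP_f11a48_ag.GF.Shid
import Pool.Agent.Lib.MP_f11a48_ag.GF.Zero
import Pool.Agent.Lib.MP_f11a48_ag.GF.Eval
import Pool.Agent.Lib.MP_f11a48_ag.GF.Rem
import Pool.Agent.Lib.MP_f11a48_ag.GF.Est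
import Pool.Agent.Lib.MP_f11a48_ag.CF.Lift
import Pool.Agent.Lib.MP_f11a48_ag.CG.Monod

section
/-!
# Leading coefficients of polynomial relations between iterated integrals

`del = T d/dX + ∑ f, a_f E_f` on `ℚ[X][Y]`, `E_f` derivations over `ℚ` which lower a weight by one. If a
set of polynomials closed under `del` contains a nonzero element then there is a nonzero
polynomial `P` over `ℚ` such that all coefficients of `∑ f, (a_f / T) E_f P` are derivatives of
rational functions.
-/
set_option autoImplicit false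

namespace Pool.Agent.Lib.MP_524521_nt.PN

open Polynomial
open Pool.Agent.Lib.MPf11a48.GF

section lead

variable {σ F : Type} [Fintype F] (w : σ → ℕ) (T : ℚ[X]) (a : F → ℚ[X])
  (E : F → σ → MvPolynomial σ ℚ)

/-- the derivation over `ℚ[X]` -/
noncomputable def EQ (f : F) : Derivation ℚ[X] (MvPolynomial σ ℚ[X]) (MvPolynomial σ ℚ[X]) :=
  MvPolynomial.mkDerivation ℚ[X] fun i => MvPolynomial.map (C : ℚ →+* ℚ[X]) (E f i)

/-- the derivation over `ℚ` -/
noncomputable def E0 (f : F) : Derivation ℚ (MvPolynomial σ ℚ) (MvPolynomial σ ℚ) :=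
  MvPolynomial.mkDerivation ℚ (E f)

/-- the whole operator -/
noncomputable def dl (H : MvPolynomial σ ℚ[X]) : MvPolynomial σ ℚ[X] :=
  SymM.D1 σ T H + ∑ f, MvPolynomial.C (a f) * EQ E f H

omit [Fintype F] in
lemma EQ_map (f : F) (P : MvPolynomial σ ℚ) :
    EQ E f (MvPolynomial.map (C : ℚ →+* ℚ[X]) P) = MvPolynomial.map (C : ℚ →+* ℚ[X]) (E0 E f P) := by
  induction P using MvPolynomial.induction_on with
  | C c =>
    rw [MvPolynomial.map_C]
    unfold EQ E0
    rw [MvPolynomial.derivation_C, MvPolynomial.derivation_C, map_zero]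
  | add p r hp hr => rw [map_add, map_add, hp, hr, map_add, map_add]
  | mul_X p i hp =>
    rw [map_mul, Derivation.leibniz, Derivation.leibniz, hp, MvPolynomial.map_X]
    have h1 : EQ E f (MvPolynomial.X i) = MvPolynomial.map (C : ℚ →+* ℚ[X]) (E f i) := by
      unfold EQ
      rw [MvPolynomial.mkDerivation_X]
    have h2 : E0 E f (MvPolynomial.X i) = E f i := by
      unfold E0
      rw [MvPolynomial.mkDerivation_X]
    rw [h1, h2]
    simp only [smul_eq_mul, map_add, map_mul, MvPolynomial.map_X]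

lemma coeff_D1 (γ : σ →₀ ℕ) (H : MvPolynomial σ ℚ[X]) :
    MvPolynomial.coeff γ (SymM.D1 σ T H) = T * derivative (MvPolynomial.coeff γ H) := by
  classical
  induction H using MvPolynomial.induction_on' with
  | add p p' hp hp' =>
    rw [map_add, MvPolynomial.coeff_add, hp, hp', MvPolynomial.coeff_add, derivative_add, mul_add]
  | monomial m c =>
    rw [SymM.D1_monomial, MvPolynomial.coeff_monomial, MvPolynomial.coeff_monomial]
    split
    · rfl
    · simp

variable (hw : ∀ i, 1 ≤ w i)
  (hE : ∀ f i, (E f i).IsWeightedHomogeneous w (w i - 1))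

include hE hw in
omit [Fintype F] in
lemma EQ_monomial (f : F) (γ : σ →₀ ℕ) (c : ℚ[X]) :
    (EQ E f (MvPolynomial.monomial γ c)).IsWeightedHomogeneous w (Finsupp.weight w γ - 1) := by
  classical
  unfold EQ
  rw [MvPolynomial.mkDerivation_monomial]
  refine (MvPolynomial.weightedHomogeneousSubmodule ℚ[X] w _).smul_mem _ ?_
  unfold Finsupp.sum
  refine (MvPolynomial.weightedHomogeneousSubmodule ℚ[X] w _).sum_mem fun i hi => ?_
  rw [MvPolynomial.mem_weightedHomogeneousSubmodule]
  simp only [smul_eq_mul]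
  have hi' : 1 ≤ γ i := Nat.one_le_iff_ne_zero.2 (Finsupp.mem_support_iff.1 hi)
  have h1 : γ - Finsupp.single i 1 + Finsupp.single i 1 = γ := by
    apply tsub_add_cancel_of_le
    rw [Finsupp.single_le_iff]
    exact hi'
  have h2 : Finsupp.weight w (γ - Finsupp.single i 1) + w i = Finsupp.weight w γ := by
    conv_rhs => rw [← h1]
    rw [map_add, Finsupp.weight_single, one_smul]
  have h3 : Finsupp.weight w γ - 1 = Finsupp.weight w (γ - Finsupp.single i 1) + (w i - 1) := by
    have := hw i
    omega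
  rw [h3]
  refine (MvPolynomial.isWeightedHomogeneous_monomial w _ _ rfl).mul ?_
  intro β hβ
  apply hE f i
  intro h0
  apply hβ
  rw [MvPolynomial.coeff_map, h0, map_zero]

include hw in
lemma weight_zero (γ : σ →₀ ℕ) (h : Finsupp.weight w γ = 0) : γ = 0 := by
  classical
  ext i
  by_contra hi
  have hi' : 1 ≤ γ i := Nat.one_le_iff_ne_zero.2 hi
  have h1 : γ - Finsupp.single i 1 + Finsupp.single i 1 = γ := by
    apply tsub_add_cancel_of_le
    rw [Finsupp.single_le_iff]
    exact hi'
  rw [← h1, map_add, Finsupp.weight_single, one_smul] at h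
  have := hw i
  omega

include hE hw in
omit [Fintype F] in
lemma EQ_monomial_ne (f : F) (γ β : σ →₀ ℕ) (c : ℚ[X])
    (h : MvPolynomial.coeff β (EQ E f (MvPolynomial.monomial γ c)) ≠ 0) :
    Finsupp.weight w γ = Finsupp.weight w β + 1 := by
  have h1 := EQ_monomial w E hw hE f γ c h
  rcases Nat.eq_zero_or_pos (Finsupp.weight w γ) with h0 | h0
  · exfalso
    apply h
    rw [weight_zero w hw γ h0]
    have : (MvPolynomial.monomial 0 c : MvPolynomial σ ℚ[X]) = MvPolynomial.C c := rfl
    rw [this]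
    unfold EQ
    rw [MvPolynomial.derivation_C, MvPolynomial.coeff_zero]
  · omega

include hE hw in
omit [Fintype F] in
lemma coeff_EQ (f : F) (β : σ →₀ ℕ) (P : MvPolynomial σ ℚ[X]) :
    MvPolynomial.coeff β (EQ E f P) = MvPolynomial.coeff β (EQ E f
      (MvPolynomial.weightedHomogeneousComponent w (Finsupp.weight w β + 1) P)) := by
  classical
  induction P using MvPolynomial.induction_on' with
  | add p p' hp hp' =>
    rw [map_add, map_add, map_add, MvPolynomial.coeff_add, MvPolynomial.coeff_add, hp, hp']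
  | monomial γ c =>
    by_cases h : Finsupp.weight w γ = Finsupp.weight w β + 1
    · have : MvPolynomial.weightedHomogeneousComponent w (Finsupp.weight w β + 1)
          (MvPolynomial.monomial γ c) = MvPolynomial.monomial γ c :=
        MvPolynomial.IsWeightedHomogeneous.weightedHomogeneousComponent_same
          (MvPolynomial.isWeightedHomogeneous_monomial w γ c h)
      rw [this]
    · have h1 : MvPolynomial.coeff β (EQ E f (MvPolynomial.monomial γ c)) = 0 := by
        by_contra h0
        exact h (EQ_monomial_ne w E hw hE f γ β c h0)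
      have : MvPolynomial.weightedHomogeneousComponent w (Finsupp.weight w β + 1)
          (MvPolynomial.monomial γ c) = 0 :=
        MvPolynomial.IsWeightedHomogeneous.weightedHomogeneousComponent_ne _
          (MvPolynomial.isWeightedHomogeneous_monomial w γ c rfl) (Ne.symm h)
      rw [h1, this, map_zero, MvPolynomial.coeff_zero]

include hE hw in
omit [Fintype F] in
/-- the coefficients of weight `≥ d` of `EQ` -/
lemma coeff_EQ_top (f : F) (d : ℕ) (P : MvPolynomial σ ℚ[X])
    (hP : ∀ γ, MvPolynomial.coeff γ P ≠ 0 → Finsupp.weight w γ ≤ d) (β : σ →₀ ℕ)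
    (hβ : d ≤ Finsupp.weight w β) : MvPolynomial.coeff β (EQ E f P) = 0 := by
  rw [coeff_EQ w E hw hE]
  have : MvPolynomial.weightedHomogeneousComponent w (Finsupp.weight w β + 1) P = 0 := by
    classical
    ext γ : 1
    rw [MvPolynomial.coeff_weightedHomogeneousComponent, MvPolynomial.coeff_zero]
    split
    · rename_i h
      by_contra h0
      have := hP γ h0
      omega
    · rfl
  rw [this, map_zero, MvPolynomial.coeff_zero]

/-- a rational function with derivative zero is constant -/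
lemma const_of_der (p q : ℚ[X]) (hq : q ≠ 0) (h : q * derivative p = derivative q * p) :
    ∃ c : ℚ, p = C c * q := by
  obtain ⟨D, h1, h2, h3⟩ := specDer
  have hq' : algebraMap ℚ[X] (RatFunc ℚ) q ≠ 0 := by
    intro h0
    exact hq (RatFunc.algebraMap_injective ℚ (by rw [h0, map_zero]))
  obtain ⟨c, hc⟩ := h3 (algebraMap ℚ[X] (RatFunc ℚ) p / algebraMap ℚ[X] (RatFunc ℚ) q) (by
    have e1 : algebraMap ℚ[X] (RatFunc ℚ) p =
        algebraMap ℚ[X] (RatFunc ℚ) q * (algebraMap ℚ[X] (RatFunc ℚ) p / algebraMap ℚ[X] (RatFunc ℚ) q) := by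
      field_simp
    have e2 := congrArg D e1
    rw [h1, h2, h2] at e2
    have e3 := congrArg (algebraMap ℚ[X] (RatFunc ℚ)) h
    rw [map_mul, map_mul] at e3
    have e4 : algebraMap ℚ[X] (RatFunc ℚ) q * (algebraMap ℚ[X] (RatFunc ℚ) q *
        D (algebraMap ℚ[X] (RatFunc ℚ) p / algebraMap ℚ[X] (RatFunc ℚ) q)) = 0 := by
      have e5 : algebraMap ℚ[X] (RatFunc ℚ) q *
          D (algebraMap ℚ[X] (RatFunc ℚ) p / algebraMap ℚ[X] (RatFunc ℚ) q) =
          algebraMap ℚ[X] (RatFunc ℚ) (derivative p) -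
          algebraMap ℚ[X] (RatFunc ℚ) p / algebraMap ℚ[X] (RatFunc ℚ) q *
            algebraMap ℚ[X] (RatFunc ℚ) (derivative q) := by
        rw [e2]; ring
      rw [e5, mul_sub, e3]
      field_simp
      ring
    have := (mul_eq_zero.1 e4).resolve_left hq'
    exact (mul_eq_zero.1 this).resolve_left hq')
  refine ⟨c, ?_⟩
  apply RatFunc.algebraMap_injective ℚ
  rw [map_mul, ← hc]
  field_simp

variable (Z : MvPolynomial σ ℚ[X] → Prop) (hsub : ∀ P Q, Z P → Z Q → Z (P - Q))
  (hC : ∀ c P, Z P → Z (MvPolynomial.C c * P)) (hdl : ∀ P, Z P → Z (dl T a E P))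

include hE hw hsub hC hdl in
theorem lead (hT : T ≠ 0) (hZ : ∃ P, Z P ∧ P ≠ 0) :
    (∃ h : ℚ[X], h ≠ 0 ∧ Z (MvPolynomial.C h)) ∨
    ∃ P : MvPolynomial σ ℚ, P ≠ 0 ∧ (∀ c, P ≠ MvPolynomial.C c) ∧ ∀ β, ∃ p q : ℚ[X], q ≠ 0 ∧
      T * (derivative p * q - p * derivative q) =
        q ^ 2 * ∑ f, a f * C (MvPolynomial.coeff β (E0 E f P)) := by
  classical
  -- the minimal weight
  have hd : ∃ d : ℕ, ∃ P, Z P ∧ P ≠ 0 ∧ ∀ γ, MvPolynomial.coeff γ P ≠ 0 → Finsupp.weight w γ ≤ d := by
    obtain ⟨P, hP, hP0⟩ := hZ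
    refine ⟨P.support.sup (Finsupp.weight w), P, hP, hP0, fun γ hγ => ?_⟩
    exact Finset.le_sup (f := Finsupp.weight w) (MvPolynomial.mem_support_iff.2 hγ)
  obtain ⟨d, ⟨P1, hP1, hP1', hP1w⟩, hmin⟩ : ∃ d : ℕ, (∃ P, Z P ∧ P ≠ 0 ∧
      ∀ γ, MvPolynomial.coeff γ P ≠ 0 → Finsupp.weight w γ ≤ d) ∧
      ∀ d' < d, ¬ ∃ P, Z P ∧ P ≠ 0 ∧ ∀ γ, MvPolynomial.coeff γ P ≠ 0 → Finsupp.weight w γ ≤ d' :=
    ⟨Nat.find hd, Nat.find_spec hd, fun d' h => Nat.find_min hd h⟩
  -- the minimal number of top coefficients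
  have hN : ∃ N : ℕ, ∃ P, Z P ∧ P ≠ 0 ∧ (∀ γ, MvPolynomial.coeff γ P ≠ 0 → Finsupp.weight w γ ≤ d) ∧
      (P.support.filter fun γ => Finsupp.weight w γ = d).card = N :=
    ⟨_, P1, hP1, hP1', hP1w, rfl⟩
  obtain ⟨N, ⟨H, hHZ, hH0, hHw, hHN⟩, hminN⟩ : ∃ N : ℕ, (∃ P, Z P ∧ P ≠ 0 ∧
      (∀ γ, MvPolynomial.coeff γ P ≠ 0 → Finsupp.weight w γ ≤ d) ∧
      (P.support.filter fun γ => Finsupp.weight w γ = d).card = N) ∧
      ∀ N' < N, ¬ ∃ P, Z P ∧ P ≠ 0 ∧ (∀ γ, MvPolynomial.coeff γ P ≠ 0 → Finsupp.weight w γ ≤ d) ∧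
      (P.support.filter fun γ => Finsupp.weight w γ = d).card = N' :=
    ⟨Nat.find hN, Nat.find_spec hN, fun d' h => Nat.find_min hN h⟩
  clear hd hN hP1 hP1' hP1w P1
  -- weight zero
  rcases Nat.eq_zero_or_pos d with hd0 | hd0
  · left
    have h1 : H = MvPolynomial.C (MvPolynomial.coeff 0 H) := by
      ext γ : 1
      rw [MvPolynomial.coeff_C]
      split
      · rename_i h
        rw [h]
      · rename_i h
        by_contra h2
        have h3 := hHw γ h2
        rw [hd0] at h3
        exact h (weight_zero w hw γ (Nat.le_zero.1 h3)).symm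
    refine ⟨MvPolynomial.coeff 0 H, ?_, ?_⟩
    · intro h0
      apply hH0
      rw [h1, h0, map_zero]
    · rw [← h1]
      exact hHZ
  right
  -- a top coefficient
  obtain ⟨α, hα, hαd⟩ : ∃ α, MvPolynomial.coeff α H ≠ 0 ∧ Finsupp.weight w α = d := by
    by_contra hcon
    push Not at hcon
    apply hmin (d - 1) (by omega)
    refine ⟨H, hHZ, hH0, fun γ hγ => ?_⟩
    have h1 := hHw γ hγ
    have h2 := hcon γ hγ
    omega
  obtain ⟨ha, hha⟩ : ∃ ha, ha = MvPolynomial.coeff α H := ⟨_, rfl⟩
  have hha0 : ha ≠ 0 := by rw [hha]; exact hα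
  obtain ⟨H2, hH2⟩ : ∃ H2, H2 = MvPolynomial.C ha * dl T a E H -
      MvPolynomial.C (T * derivative ha) * H := ⟨_, rfl⟩
  have hH2Z : Z H2 := by
    rw [hH2]
    exact hsub _ _ (hC _ _ (hdl _ hHZ)) (hC _ _ hHZ)
  have hco : ∀ γ, MvPolynomial.coeff γ H2 = T * (ha * derivative (MvPolynomial.coeff γ H) -
      derivative ha * MvPolynomial.coeff γ H) + ha * ∑ f, a f * MvPolynomial.coeff γ (EQ E f H) := by
    intro γ
    rw [hH2, MvPolynomial.coeff_sub, MvPolynomial.coeff_C_mul, MvPolynomial.coeff_C_mul]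
    unfold dl
    rw [MvPolynomial.coeff_add, coeff_D1, MvPolynomial.coeff_sum]
    simp only [MvPolynomial.coeff_C_mul]
    ring
  have hco2 : ∀ γ, d ≤ Finsupp.weight w γ → MvPolynomial.coeff γ H2 =
      T * (ha * derivative (MvPolynomial.coeff γ H) - derivative ha * MvPolynomial.coeff γ H) := by
    intro γ hγ
    rw [hco, Finset.sum_eq_zero fun f _ => by rw [coeff_EQ_top w E hw hE f d H hHw γ hγ, mul_zero],
      mul_zero, add_zero]
  have hH20 : H2 = 0 := by
    by_contra hne
    have hw2 : ∀ γ, MvPolynomial.coeff γ H2 ≠ 0 → Finsupp.weight w γ ≤ d := by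
      intro γ hγ
      by_contra hlt
      push Not at hlt
      apply hγ
      rw [hco2 γ hlt.le]
      have : MvPolynomial.coeff γ H = 0 := by
        by_contra h0
        exact absurd (hHw γ h0) (by omega)
      rw [this]
      simp
    refine hminN (H2.support.filter fun γ => Finsupp.weight w γ = d).card ?_ ⟨H2, hH2Z, hne, hw2, rfl⟩
    rw [← hHN]
    apply Finset.card_lt_card
    rw [Finset.ssubset_iff_of_subset]
    · refine ⟨α, ?_, ?_⟩
      · rw [Finset.mem_filter, MvPolynomial.mem_support_iff]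
        exact ⟨hα, hαd⟩
      · rw [Finset.mem_filter, MvPolynomial.mem_support_iff]
        rintro ⟨h1, _⟩
        apply h1
        rw [hco2 α hαd.ge, ← hha]
        ring
    · intro γ hγ
      rw [Finset.mem_filter, MvPolynomial.mem_support_iff] at hγ ⊢
      refine ⟨fun h0 => hγ.1 ?_, hγ.2⟩
      rw [hco2 γ hγ.2.ge, h0]
      simp
  -- the top coefficients are proportional
  have hprop : ∀ γ, Finsupp.weight w γ = d → ∃ c : ℚ, MvPolynomial.coeff γ H = C c * ha := by
    intro γ hγ
    apply const_of_der _ _ hha0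
    have h1 := hco2 γ hγ.ge
    rw [hH20, MvPolynomial.coeff_zero] at h1
    have h2 := (mul_eq_zero.1 h1.symm).resolve_left hT
    linear_combination h2
  choose! cf hcf using hprop
  obtain ⟨P, hP⟩ : ∃ P : MvPolynomial σ ℚ, P = ∑ γ ∈ H.support.filter (fun γ => Finsupp.weight w γ = d),
      MvPolynomial.monomial γ (cf γ) := ⟨_, rfl⟩
  have hPc : ∀ γ, Finsupp.weight w γ = d → MvPolynomial.coeff γ P = cf γ := by
    intro γ hγ
    rw [hP, MvPolynomial.coeff_sum]
    simp only [MvPolynomial.coeff_monomial]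
    rw [Finset.sum_ite_eq']
    split
    · rfl
    · rename_i h
      rw [Finset.mem_filter, MvPolynomial.mem_support_iff] at h
      have h1 : MvPolynomial.coeff γ H = 0 := by
        by_contra h0
        exact h ⟨h0, hγ⟩
      have h2 := hcf γ hγ
      rw [h1] at h2
      have h3 := (mul_eq_zero.1 h2.symm).resolve_right hha0
      exact (C_eq_zero.1 h3).symm
  have hPw : ∀ γ, Finsupp.weight w γ ≠ d → MvPolynomial.coeff γ P = 0 := by
    intro γ hγ
    rw [hP, MvPolynomial.coeff_sum]
    refine Finset.sum_eq_zero fun δ hδ => ?_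
    rw [MvPolynomial.coeff_monomial, if_neg]
    rintro rfl
    exact hγ (Finset.mem_filter.1 hδ).2
  have hcfα : cf α = 1 := by
    have h1 := hcf α hαd
    rw [← hha] at h1
    have h2 : (C (cf α) - 1) * ha = 0 := by
      rw [sub_mul, one_mul, ← h1, sub_self]
    have h3 := (mul_eq_zero.1 h2).resolve_right hha0
    have h4 : C (cf α - 1) = 0 := by rw [C_sub, C_1, h3]
    exact sub_eq_zero.1 (C_eq_zero.1 h4)
  have hcomp : MvPolynomial.weightedHomogeneousComponent w d H =
      MvPolynomial.C ha * MvPolynomial.map (C : ℚ →+* ℚ[X]) P := by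
    ext γ : 1
    rw [MvPolynomial.coeff_weightedHomogeneousComponent, MvPolynomial.coeff_C_mul,
      MvPolynomial.coeff_map]
    split
    · rename_i h
      rw [hPc γ h, hcf γ h, mul_comm]
    · rename_i h
      rw [hPw γ h, map_zero, mul_zero]
  refine ⟨P, ?_, ?_, ?_⟩
  · intro h0
    have := hPc α hαd
    rw [h0, MvPolynomial.coeff_zero, hcfα] at this
    exact zero_ne_one this
  · intro c hc
    have h1 := hPc α hαd
    rw [hc, MvPolynomial.coeff_C, hcfα] at h1
    split at h1
    · rename_i h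
      rw [← h, map_zero] at hαd
      omega
    · exact zero_ne_one h1
  · intro β
    by_cases hβ : Finsupp.weight w β + 1 = d
    · refine ⟨-MvPolynomial.coeff β H, ha, hha0, ?_⟩
      have h1 := hco β
      rw [hH20, MvPolynomial.coeff_zero] at h1
      have h2 : ∀ f, MvPolynomial.coeff β (EQ E f H) =
          ha * C (MvPolynomial.coeff β (E0 E f P)) := by
        intro f
        rw [coeff_EQ w E hw hE, hβ, hcomp, ← MvPolynomial.smul_eq_C_mul, Derivation.map_smul,
          EQ_map, MvPolynomial.coeff_smul, MvPolynomial.coeff_map, smul_eq_mul]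
      simp only [h2] at h1
      have h3 : ∑ f, a f * (ha * C (MvPolynomial.coeff β (E0 E f P))) =
          ha * ∑ f, a f * C (MvPolynomial.coeff β (E0 E f P)) := by
        rw [Finset.mul_sum]
        exact Finset.sum_congr rfl fun f _ => by ring
      rw [h3] at h1
      rw [derivative_neg]
      linear_combination h1
    · refine ⟨0, 1, one_ne_zero, ?_⟩
      have h1 : ∀ f, MvPolynomial.coeff β (E0 E f P) = 0 := by
        intro f
        have h2 : C (MvPolynomial.coeff β (E0 E f P)) =
            MvPolynomial.coeff β (EQ E f (MvPolynomial.map (C : ℚ →+* ℚ[X]) P)) := by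
          rw [EQ_map, MvPolynomial.coeff_map]
        have h3 : MvPolynomial.weightedHomogeneousComponent w (Finsupp.weight w β + 1)
            (MvPolynomial.map (C : ℚ →+* ℚ[X]) P) = 0 := by
          ext γ : 1
          rw [MvPolynomial.coeff_weightedHomogeneousComponent, MvPolynomial.coeff_zero]
          split
          · rename_i h
            rw [MvPolynomial.coeff_map, hPw γ (by omega), map_zero]
          · rfl
        rw [coeff_EQ w E hw hE, h3, map_zero, MvPolynomial.coeff_zero] at h2
        exact C_eq_zero.1 h2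
      simp [h1]

end lead

end Pool.Agent.Lib.MP_524521_nt.PN
end

section
/-!
# Polynomials annihilated by the derivations of the system are constant
-/
set_option autoImplicit false

namespace Pool.Agent.Lib.MP_524521_nt.PN

open Polynomial
open Pool.Agent.Lib.MPf11a48.GF

variable (k J : ℕ)

/-- the generators -/
abbrev Gn : Type := Fin k ⊕ (Fin k × Fin J)

/-- the divided power of the generator with index `m` -/
noncomputable def yp (m : Fin k) (i : ℕ) : MvPolynomial (Gn k J) ℚ :=
  MvPolynomial.C ((i.factorial : ℚ)⁻¹) * MvPolynomial.X (Sum.inl m) ^ i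

/-- the derivatives of the generators -/
noncomputable def Ee : Fo k → Gn k J → MvPolynomial (Gn k J) ℚ
  | none, Sum.inl _ => 0
  | none, Sum.inr (m, j) => yp k J m (j + 1)
  | some n, Sum.inl m =>
    MvPolynomial.C ((if (n : ℕ) = m + 1 then 1 else 0) - (if (n : ℕ) = m then 1 else 0))
  | some n, Sum.inr (m, j) => MvPolynomial.C (-(if (n : ℕ) = m + 1 then 1 else 0)) * yp k J m (j + 1)

/-- the weights -/
def wt : Gn k J → ℕ
  | Sum.inl _ => 1
  | Sum.inr (_, j) => j + 2

lemma wt_pos (i : Gn k J) : 1 ≤ wt k J i := by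
  rcases i with m | ⟨m, j⟩
  · exact le_refl 1
  · show 1 ≤ (j : ℕ) + 2
    omega

lemma yp_wt (m : Fin k) (i : ℕ) : (yp k J m i).IsWeightedHomogeneous (wt k J) i := by
  unfold yp
  have h1 : (MvPolynomial.X (Sum.inl m) : MvPolynomial (Gn k J) ℚ).IsWeightedHomogeneous (wt k J) 1 :=
    MvPolynomial.isWeightedHomogeneous_X ℚ (wt k J) (Sum.inl m)
  have h2 := h1.pow i
  have h3 := (MvPolynomial.isWeightedHomogeneous_C (wt k J) ((i.factorial : ℚ)⁻¹)).mul h2
  simpa using h3

lemma Ee_wt (f : Fo k) (i : Gn k J) : (Ee k J f i).IsWeightedHomogeneous (wt k J) (wt k J i - 1) := by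
  rcases f with _ | n <;> rcases i with m | ⟨m, j⟩
  · exact MvPolynomial.isWeightedHomogeneous_zero ℚ (wt k J) _
  · exact yp_wt k J m (j + 1)
  · exact MvPolynomial.isWeightedHomogeneous_C (wt k J) _
  · have h3 := (MvPolynomial.isWeightedHomogeneous_C (wt k J)
      (-(if (n : ℕ) = m + 1 then 1 else 0) : ℚ)).mul (yp_wt k J m (j + 1))
    rw [zero_add] at h3
    exact h3

lemma der_sum {σ ι : Type} (s : Finset ι)
    (D : ι → Derivation ℚ (MvPolynomial σ ℚ) (MvPolynomial σ ℚ)) (P : MvPolynomial σ ℚ) :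
    (∑ i ∈ s, D i) P = ∑ i ∈ s, D i P := by
  classical
  induction s using Finset.induction_on with
  | empty => simp
  | insert a s ha ih => rw [Finset.sum_insert ha, Finset.sum_insert ha, Derivation.add_apply, ih]

/-- `E0` as a sum of partial derivatives -/
lemma E0_sum {σ F : Type} [Fintype σ] (E : F → σ → MvPolynomial σ ℚ) (f : F) (P : MvPolynomial σ ℚ) :
    E0 E f P = ∑ i, E f i * MvPolynomial.pderiv i P := by
  classical
  have h : E0 E f = ∑ i, E f i • MvPolynomial.pderiv i := by
    apply MvPolynomial.derivation_ext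
    intro j
    unfold E0
    rw [MvPolynomial.mkDerivation_X, der_sum, Finset.sum_eq_single j]
    · rw [Derivation.smul_apply, MvPolynomial.pderiv_X_self, smul_eq_mul, mul_one]
    · intro i _ hi
      rw [Derivation.smul_apply, MvPolynomial.pderiv_X_of_ne hi.symm, smul_zero]
    · intro h0
      exact absurd (Finset.mem_univ j) h0
  rw [h, der_sum]
  rfl

lemma pderiv_yp (s : Fin k × Fin J) (m : Fin k) (i : ℕ) :
    MvPolynomial.pderiv (Sum.inr s) (yp k J m i) = 0 := by
  unfold yp
  rw [MvPolynomial.pderiv_C_mul, MvPolynomial.pderiv_pow, MvPolynomial.pderiv_X_of_ne (by simp)]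
  simp

lemma pderiv_Ee (s : Fin k × Fin J) (f : Fo k) (i : Gn k J) :
    MvPolynomial.pderiv (Sum.inr s) (Ee k J f i) = 0 := by
  rcases f with _ | n <;> rcases i with m | ⟨m, j⟩
  · exact map_zero _
  · exact pderiv_yp k J s m (j + 1)
  · exact MvPolynomial.pderiv_C
  · change MvPolynomial.pderiv (Sum.inr s) (MvPolynomial.C _ * yp k J m (j + 1)) = 0
    rw [MvPolynomial.pderiv_C_mul, pderiv_yp, mul_zero]

lemma comm (s : Fin k × Fin J) (f : Fo k) (P : MvPolynomial (Gn k J) ℚ) :
    MvPolynomial.pderiv (Sum.inr s) (E0 (Ee k J) f P) =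
      E0 (Ee k J) f (MvPolynomial.pderiv (Sum.inr s) P) := by
  classical
  have h : ⁅(MvPolynomial.pderiv (Sum.inr s) : Derivation ℚ (MvPolynomial (Gn k J) ℚ) _),
      E0 (Ee k J) f⁆ = 0 := by
    apply MvPolynomial.derivation_ext
    intro j
    rw [Derivation.commutator_apply, Derivation.zero_apply]
    have h1 : E0 (Ee k J) f (MvPolynomial.X j) = Ee k J f j := by
      unfold E0
      rw [MvPolynomial.mkDerivation_X]
    rw [h1, pderiv_Ee, zero_sub, neg_eq_zero]
    by_cases hj : j = Sum.inr s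
    · subst hj
      rw [MvPolynomial.pderiv_X_self]
      exact Derivation.map_one_eq_zero _
    · rw [MvPolynomial.pderiv_X_of_ne hj, map_zero]
  have h2 := congrArg (fun D => D P) h
  simp only [Derivation.commutator_apply, Derivation.zero_apply] at h2
  exact sub_eq_zero.1 h2

/-- a polynomial is constant if its partial derivatives are zero -/
lemma const_of_pderiv {σ : Type} (P : MvPolynomial σ ℚ) (h : ∀ i, MvPolynomial.pderiv i P = 0) :
    P = MvPolynomial.C (MvPolynomial.coeff 0 P) := by
  classical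
  ext γ
  rw [MvPolynomial.coeff_C]
  split
  · rename_i h0
    rw [h0]
  · rename_i h0
    obtain ⟨i, hi⟩ := Finsupp.ne_iff.1 (Ne.symm h0)
    rw [Finsupp.zero_apply] at hi
    have h1 : γ - Finsupp.single i 1 + Finsupp.single i 1 = γ := by
      apply tsub_add_cancel_of_le
      rw [Finsupp.single_le_iff]
      omega
    have h2 := MvPolynomial.coeff_pderiv (i := i) P (γ - Finsupp.single i 1)
    rw [h i, MvPolynomial.coeff_zero, h1] at h2
    rcases mul_eq_zero.1 h2.symm with h3 | h3
    · exact h3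
    · exfalso
      have : (0 : ℚ) ≤ (((γ - Finsupp.single i 1 : σ →₀ ℕ) i : ℕ) : ℚ) := Nat.cast_nonneg _
      linarith

/-- monomials with different exponents -/
lemma coeff_yp (c : Fin k × Fin J → ℚ) (h : ∑ s : Fin k × Fin J, MvPolynomial.C (c s) * yp k J s.1 (s.2 + 1) = 0)
    (s : Fin k × Fin J) : c s = 0 := by
  classical
  have h1 := congrArg (MvPolynomial.coeff (Finsupp.single (Sum.inl s.1) ((s.2 : ℕ) + 1))) h
  rw [MvPolynomial.coeff_sum, MvPolynomial.coeff_zero, Finset.sum_eq_single s] at h1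
  · unfold yp at h1
    rw [MvPolynomial.coeff_C_mul, MvPolynomial.coeff_C_mul, MvPolynomial.coeff_X_pow, if_pos rfl,
      mul_one] at h1
    exact (mul_eq_zero.1 h1).resolve_right (inv_ne_zero (by exact_mod_cast Nat.factorial_ne_zero _))
  · intro t _ ht
    unfold yp
    rw [MvPolynomial.coeff_C_mul, MvPolynomial.coeff_C_mul, MvPolynomial.coeff_X_pow, if_neg, mul_zero,
      mul_zero]
    intro h2
    apply ht
    rw [Finsupp.single_eq_single_iff] at h2
    rcases h2 with ⟨h3, h4⟩ | ⟨h3, _⟩
    · exact Prod.ext (Sum.inl.inj h3) (Fin.ext (by omega))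
    · omega
  · intro h0
    exact absurd (Finset.mem_univ s) h0

/-- polynomials annihilated by the derivations are constant -/
theorem cst (n : ℕ) : ∀ P : MvPolynomial (Gn k J) ℚ,
    (∀ γ, MvPolynomial.coeff γ P ≠ 0 → γ.degree ≤ n) →
    (∀ f, al k f ≠ 0 → E0 (Ee k J) f P = 0) → ∃ c, P = MvPolynomial.C c := by
  classical
  induction n with
  | zero =>
    intro P hP _
    refine ⟨MvPolynomial.coeff 0 P, ?_⟩
    ext γ
    rw [MvPolynomial.coeff_C]
    split
    · rename_i h0
      rw [h0]
    · rename_i h0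
      by_contra h1
      have := hP γ h1
      exact h0 ((Finsupp.degree_eq_zero_iff γ).1 (Nat.le_zero.1 this)).symm
  | succ n ih =>
    intro P hP hE
    have h1 : ∀ s : Fin k × Fin J, ∃ c, MvPolynomial.pderiv (Sum.inr s) P = MvPolynomial.C c := by
      intro s
      apply ih
      · intro γ hγ
        rw [MvPolynomial.coeff_pderiv] at hγ
        have h2 := hP _ (left_ne_zero_of_mul hγ)
        rw [map_add, Finsupp.degree_single] at h2
        omega
      · intro f hf
        rw [← comm, hE f hf, map_zero]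
    choose c hc using h1
    -- the form `X`
    have h2 := hE none (by simp [al])
    rw [E0_sum, Fintype.sum_sum_type] at h2
    have e1 : ∑ m : Fin k, Ee k J none (Sum.inl m) * MvPolynomial.pderiv (Sum.inl m) P = 0 :=
      Finset.sum_eq_zero fun m _ => zero_mul _
    rw [e1, zero_add] at h2
    have hc0 : ∀ s, c s = 0 := by
      apply coeff_yp
      rw [← h2]
      refine Finset.sum_congr rfl fun s _ => ?_
      rw [hc s, mul_comm]
      rfl
    have hS : ∀ s : Fin k × Fin J, MvPolynomial.pderiv (Sum.inr s) P = 0 := by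
      intro s
      rw [hc s, hc0 s, map_zero]
    -- the other forms
    have hl : ∀ n : Fin (k + 1), (n : ℕ) ≠ 0 → ∑ m : Fin k,
        MvPolynomial.C (((if (n : ℕ) = m + 1 then 1 else 0) - (if (n : ℕ) = m then 1 else 0) : ℚ)) *
          MvPolynomial.pderiv (Sum.inl m) P = 0 := by
      intro n hn
      have h3 := hE (some n) (by simp only [al]; exact_mod_cast hn)
      rw [E0_sum, Fintype.sum_sum_type] at h3
      have e2 : ∑ s : Fin k × Fin J, Ee k J (some n) (Sum.inr s) *
          MvPolynomial.pderiv (Sum.inr s) P = 0 :=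
        Finset.sum_eq_zero fun s _ => by rw [hS s, mul_zero]
      rw [e2, add_zero] at h3
      exact h3
    have hm : ∀ t : ℕ, ∀ m : Fin k, k ≤ m + 1 + t → MvPolynomial.pderiv (Sum.inl m) P = 0 := by
      intro t
      induction t with
      | zero =>
        intro m hmk
        have h4 := hl ⟨m + 1, by omega⟩ (by simp)
        rw [Finset.sum_eq_single m] at h4
        · simpa using h4
        · intro m' _ hm'
          rw [if_neg, if_neg, sub_zero, map_zero, zero_mul]
          · simp only
            omega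
          · simp only
            intro h5
            exact hm' (Fin.ext (by omega))
        · intro h0
          exact absurd (Finset.mem_univ m) h0
      | succ t iht =>
        intro m hmk
        have h4 := hl ⟨m + 1, by omega⟩ (by simp)
        rw [Finset.sum_eq_single m] at h4
        · simpa using h4
        · intro m' _ hm'
          by_cases h5 : (m : ℕ) + 1 = m'
          · rw [iht m' (by omega), mul_zero]
          · rw [if_neg, if_neg, sub_zero, map_zero, zero_mul]
            · simp only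
              exact h5
            · simp only
              intro h6
              exact hm' (Fin.ext (by omega))
        · intro h0
          exact absurd (Finset.mem_univ m) h0
    refine ⟨MvPolynomial.coeff 0 P, const_of_pderiv P fun i => ?_⟩
    rcases i with m | s
    · exact hm k m (by omega)
    · exact hS s

end Pool.Agent.Lib.MP_524521_nt.PN
end

section
/-!
# Algebraic independence over `ℚ(X)` of the logarithms and Nielsen polylogarithms
-/
set_option autoImplicit false

namespace Pool.Agent.Lib.MP_524521_nt.PN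

open Polynomial Matrix
open scoped PowerSeries
open Pool.Agent.Lib.MPf11a48.GF

variable (k J : ℕ)

/-- the functions -/
noncomputable def yy : Gn k J → ℚ⟦X⟧
  | Sum.inl m => el m
  | Sum.inr (m, j) => sn m (j + 1)

/-- the coefficients of the derivations -/
noncomputable def aa (f : Fo k) : ℚ[X] := zq (C (al k f) * Th (al k) (be k) f)

lemma hom_C (c : ℚ) : Polynomial.coeToPowerSeries.ringHom (C c) = PowerSeries.C c := by
  rw [Polynomial.coeToPowerSeries.ringHom_apply, Polynomial.coe_C]

lemma peval_yp (m : Fin k) (i : ℕ) :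
    peval (yy k J) (MvPolynomial.map (C : ℚ →+* ℚ[X]) (yp k J m i)) = pw m i := by
  unfold peval yp pw
  rw [map_mul, map_pow, MvPolynomial.map_C, MvPolynomial.map_X, MvPolynomial.eval₂_mul,
    MvPolynomial.eval₂_pow, MvPolynomial.eval₂_C, MvPolynomial.eval₂_X, hom_C]
  rfl

lemma TT_some (n : Fin (k + 1)) : ((zq (TT (al k) (be k)) : ℚ[X]) : ℚ⟦X⟧) *
    (PowerSeries.C ((n : ℕ) : ℚ) * geo n) = (aa k (some n) : ℚ⟦X⟧) := by
  have h1 : ((zq (TT (al k) (be k)) : ℚ[X]) : ℚ⟦X⟧) =
      (1 + PowerSeries.C ((n : ℕ) : ℚ) * PowerSeries.X) *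
        ((zq (Th (al k) (be k) (some n)) : ℚ[X]) : ℚ⟦X⟧) := by
    rw [← lf_some, ← Polynomial.coe_mul, TT_eq (al k) (be k) (some n)]
    simp only [zq, Polynomial.map_mul]
  have h2 : (aa k (some n) : ℚ⟦X⟧) = PowerSeries.C ((n : ℕ) : ℚ) *
      ((zq (Th (al k) (be k) (some n)) : ℚ[X]) : ℚ⟦X⟧) := by
    unfold aa
    simp only [zq, Polynomial.map_mul, Polynomial.map_C]
    rw [Polynomial.coe_mul, Polynomial.coe_C]
    congr 2
  rw [h1, h2]
  have h3 := geo_spec n
  linear_combination (PowerSeries.C ((n : ℕ) : ℚ) *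
    ((zq (Th (al k) (be k) (some n)) : ℚ[X]) : ℚ⟦X⟧)) * h3

lemma TT_none (m j : ℕ) : ((zq (TT (al k) (be k)) : ℚ[X]) : ℚ⟦X⟧) * qx m j =
    (aa k none : ℚ⟦X⟧) * pw m (j + 1) := by
  have h1 : ((zq (TT (al k) (be k)) : ℚ[X]) : ℚ⟦X⟧) =
      PowerSeries.X * ((zq (Th (al k) (be k) none) : ℚ[X]) : ℚ⟦X⟧) := by
    rw [← lf_none k, ← Polynomial.coe_mul, TT_eq (al k) (be k) none]
    simp only [zq, Polynomial.map_mul]
  have h2 : (aa k none : ℚ⟦X⟧) = ((zq (Th (al k) (be k) none) : ℚ[X]) : ℚ⟦X⟧) := by
    unfold aa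
    simp [zq, al]
  rw [h1, h2, ← qx_spec m j]
  ring

lemma sum_ite (n : ℕ) (hn : n ≤ k) (a : Fin (k + 1) → ℚ⟦X⟧) :
    ∑ i : Fin (k + 1), (if (i : ℕ) = n then 1 else 0) * a i = a ⟨n, by omega⟩ := by
  rw [Finset.sum_eq_single (⟨n, by omega⟩ : Fin (k + 1))]
  · simp
  · intro i _ hi
    rw [if_neg, zero_mul]
    intro h
    exact hi (Fin.ext h)
  · simp

/-- the system for the generators -/
lemma gen (i : Gn k J) : ((zq (TT (al k) (be k)) : ℚ[X]) : ℚ⟦X⟧) * PowerSeries.derivative ℚ (yy k J i) =
    ∑ f, (aa k f : ℚ⟦X⟧) * peval (yy k J) (MvPolynomial.map (C : ℚ →+* ℚ[X]) (Ee k J f i)) := by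
  rcases i with m | ⟨m, j⟩
  · rw [Fintype.sum_option]
    have h0 : peval (yy k J) (MvPolynomial.map (C : ℚ →+* ℚ[X]) (Ee k J none (Sum.inl m))) = 0 := by
      simp only [Ee, map_zero]
      unfold peval
      exact MvPolynomial.eval₂_zero _ _
    have h1 : ∀ n : Fin (k + 1), peval (yy k J) (MvPolynomial.map (C : ℚ →+* ℚ[X])
        (Ee k J (some n) (Sum.inl m))) =
        (if (n : ℕ) = m + 1 then 1 else 0) - (if (n : ℕ) = m then 1 else 0) := by
      intro n
      simp only [Ee]
      unfold peval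
      rw [MvPolynomial.map_C, MvPolynomial.eval₂_C, hom_C, map_sub]
      congr 1 <;> split <;> simp
    rw [h0, mul_zero, zero_add]
    simp only [h1, mul_sub, Finset.sum_sub_distrib]
    have h2 : ∀ t : ℕ, t ≤ k → ∑ n : Fin (k + 1), (aa k (some n) : ℚ⟦X⟧) * (if (n : ℕ) = t then 1 else 0) =
        ((zq (TT (al k) (be k)) : ℚ[X]) : ℚ⟦X⟧) * (PowerSeries.C (t : ℚ) * geo t) := by
      intro t ht
      have h3 := sum_ite k t ht (fun n => (aa k (some n) : ℚ⟦X⟧))
      have h4 := TT_some k ⟨t, by omega⟩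
      simp only at h4
      rw [h4, ← h3]
      exact Finset.sum_congr rfl fun n _ => mul_comm _ _
    rw [h2 _ (by omega), h2 _ (by omega)]
    change _ * PowerSeries.derivative ℚ (el m) = _
    rw [der_el]
    push_cast
    ring
  · rw [Fintype.sum_option]
    have h0 : peval (yy k J) (MvPolynomial.map (C : ℚ →+* ℚ[X]) (Ee k J none (Sum.inr (m, j)))) =
        pw m (j + 1) := peval_yp k J m (j + 1)
    have h1 : ∀ n : Fin (k + 1), peval (yy k J) (MvPolynomial.map (C : ℚ →+* ℚ[X])
        (Ee k J (some n) (Sum.inr (m, j)))) =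
        -(if (n : ℕ) = m + 1 then 1 else 0) * pw m (j + 1) := by
      intro n
      simp only [Ee]
      rw [map_mul, MvPolynomial.map_C, ← peval_yp k J m (j + 1)]
      unfold peval
      rw [MvPolynomial.eval₂_mul, MvPolynomial.eval₂_C, hom_C]
      congr 1
      split <;> simp
    rw [h0]
    simp only [h1]
    have h2 : ∑ n : Fin (k + 1), (aa k (some n) : ℚ⟦X⟧) *
        (-(if (n : ℕ) = m + 1 then 1 else 0) * pw m (j + 1)) =
        -(((zq (TT (al k) (be k)) : ℚ[X]) : ℚ⟦X⟧) * (PowerSeries.C ((m : ℚ) + 1) * geo (m + 1))) *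
          pw m (j + 1) := by
      have h3 := sum_ite k (m + 1) (by omega) (fun n => (aa k (some n) : ℚ⟦X⟧))
      have h4 := TT_some k ⟨m + 1, by omega⟩
      simp only at h4
      push_cast at h4
      rw [h4, ← h3, ← Finset.sum_neg_distrib, Finset.sum_mul]
      exact Finset.sum_congr rfl fun n _ => by ring
    rw [h2, ← TT_none k m j]
    change _ * PowerSeries.derivative ℚ (sn m (j + 1)) = _
    rw [der_sn]
    ring

/-- the operator `dl` is the derivation on the values -/
lemma peval_dl (P : MvPolynomial (Gn k J) ℚ[X]) :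
    peval (yy k J) (dl (zq (TT (al k) (be k))) (aa k) (Ee k J) P) =
      ((zq (TT (al k) (be k)) : ℚ[X]) : ℚ⟦X⟧) * PowerSeries.derivative ℚ (peval (yy k J) P) := by
  have hadd : ∀ p r : MvPolynomial (Gn k J) ℚ[X], peval (yy k J) (p + r) =
      peval (yy k J) p + peval (yy k J) r := fun p r => MvPolynomial.eval₂_add _ _
  have hmul : ∀ p r : MvPolynomial (Gn k J) ℚ[X], peval (yy k J) (p * r) =
      peval (yy k J) p * peval (yy k J) r := fun p r => MvPolynomial.eval₂_mul _ _
  induction P using MvPolynomial.induction_on with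
  | C c =>
    unfold dl
    rw [Finset.sum_eq_zero fun f _ => by
      unfold EQ
      rw [MvPolynomial.derivation_C, mul_zero], add_zero]
    have h1 : (MvPolynomial.C c : MvPolynomial (Gn k J) ℚ[X]) = MvPolynomial.monomial 0 c := rfl
    rw [h1, SymM.D1_monomial, ← h1]
    have h2 : (MvPolynomial.monomial 0 (zq (TT (al k) (be k)) * derivative c) :
      MvPolynomial (Gn k J) ℚ[X]) = MvPolynomial.C (zq (TT (al k) (be k)) * derivative c) := rfl
    rw [h2]
    unfold peval
    rw [MvPolynomial.eval₂_C, MvPolynomial.eval₂_C, Polynomial.coeToPowerSeries.ringHom_apply,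
      Polynomial.coeToPowerSeries.ringHom_apply, Polynomial.coe_mul]
    congr 1
    exact (PowerSeries.derivative_coe c).symm
  | add p r hp hr =>
    have h1 : dl (zq (TT (al k) (be k))) (aa k) (Ee k J) (p + r) =
        dl (zq (TT (al k) (be k))) (aa k) (Ee k J) p + dl (zq (TT (al k) (be k))) (aa k) (Ee k J) r := by
      unfold dl
      simp only [map_add, mul_add, Finset.sum_add_distrib]
      ring
    rw [h1, hadd, hp, hr, hadd, map_add, mul_add]
  | mul_X p i hp =>
    have h1 : dl (zq (TT (al k) (be k))) (aa k) (Ee k J) (p * MvPolynomial.X i) =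
        MvPolynomial.X i * dl (zq (TT (al k) (be k))) (aa k) (Ee k J) p +
          p * ∑ f, MvPolynomial.C (aa k f) * MvPolynomial.map (C : ℚ →+* ℚ[X]) (Ee k J f i) := by
      unfold dl
      rw [SymM.D1_mul]
      have h2 : (SymM.D1 (Gn k J) (zq (TT (al k) (be k)))) (MvPolynomial.X i) = 0 := by
        have : (MvPolynomial.X i : MvPolynomial (Gn k J) ℚ[X]) =
          MvPolynomial.monomial (Finsupp.single i 1) 1 := rfl
        rw [this, SymM.D1_monomial]
        simp
      rw [h2, mul_zero, zero_add, mul_add, Finset.mul_sum, Finset.mul_sum]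
      rw [add_assoc, ← Finset.sum_add_distrib]
      congr 1
      refine Finset.sum_congr rfl fun f _ => ?_
      rw [Derivation.leibniz]
      have h3 : EQ (Ee k J) f (MvPolynomial.X i) = MvPolynomial.map (C : ℚ →+* ℚ[X]) (Ee k J f i) := by
        unfold EQ
        rw [MvPolynomial.mkDerivation_X]
      rw [h3, smul_eq_mul, smul_eq_mul]
      ring
    rw [h1, hadd, hmul, hp, hmul, hmul]
    have h4 : peval (yy k J) (MvPolynomial.X i) = yy k J i := MvPolynomial.eval₂_X _ _ _
    have h5 : peval (yy k J) (∑ f, MvPolynomial.C (aa k f) *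
        MvPolynomial.map (C : ℚ →+* ℚ[X]) (Ee k J f i)) =
        ((zq (TT (al k) (be k)) : ℚ[X]) : ℚ⟦X⟧) * PowerSeries.derivative ℚ (yy k J i) := by
      rw [gen]
      unfold peval
      rw [MvPolynomial.eval₂_sum]
      refine Finset.sum_congr rfl fun f _ => ?_
      rw [MvPolynomial.eval₂_mul, MvPolynomial.eval₂_C, Polynomial.coeToPowerSeries.ringHom_apply]
    rw [h4, h5, Derivation.leibniz, smul_eq_mul, smul_eq_mul]
    ring

/-- **functional independence** -/
theorem ind (H : MvPolynomial (Gn k J) ℚ[X]) (hH : peval (yy k J) H = 0) : H = 0 := by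
  classical
  by_contra hne
  have hT : zq (TT (al k) (be k)) ≠ 0 := by
    intro h
    apply TT_ne k
    exact (Polynomial.map_eq_zero_iff (Int.castRingHom ℚ).injective_int).1 h
  rcases lead (wt k J) (zq (TT (al k) (be k))) (aa k) (Ee k J) (wt_pos k J) (Ee_wt k J)
    (fun P => peval (yy k J) P = 0) (fun P Q hP hQ => by
      unfold peval at hP hQ ⊢
      rw [MvPolynomial.eval₂_sub, hP, hQ, sub_zero]) (fun c P hP => by
      unfold peval at hP ⊢
      rw [MvPolynomial.eval₂_mul, hP, mul_zero]) (fun P hP => by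
      rw [peval_dl, hP, map_zero, mul_zero]) hT ⟨H, hH, hne⟩ with ⟨h, hh, hZ⟩ | ⟨P, hP0, hPc, hP⟩
  · unfold peval at hZ
    rw [MvPolynomial.eval₂_C, Polynomial.coeToPowerSeries.ringHom_apply] at hZ
    exact hh (Polynomial.coe_eq_zero_iff.1 hZ)
  · have hE : ∀ f, al k f ≠ 0 → E0 (Ee k J) f P = 0 := by
      intro f hf
      ext β
      rw [MvPolynomial.coeff_zero]
      obtain ⟨p, q, hq, h⟩ := hP β
      refine res (al k) (be k) ?_ (fun f => MvPolynomial.coeff β (E0 (Ee k J) f P)) p q hq h f hf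
      intro f g hfg hf
      rcases f with _ | n <;> rcases g with _ | n'
      · exact absurd rfl hfg
      · simp [al, be]
      · simp only [al, be, mul_one, mul_zero]
        exact one_ne_zero
      · simp only [al, be, mul_one]
        intro h
        apply hfg
        congr 1
        exact Fin.ext (by exact_mod_cast h.symm)
    obtain ⟨c, hc⟩ := cst k J (P.support.sup Finsupp.degree) P (fun γ hγ =>
      Finset.le_sup (f := Finsupp.degree) (MvPolynomial.mem_support_iff.2 hγ)) hE
    exact hPc c hc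

end Pool.Agent.Lib.MP_524521_nt.PN
end

section
/-!
# Algebraic independence, in bounded degree, of the values at small rational numbers
-/
set_option autoImplicit false

namespace Pool.Agent.Lib.MP_524521_nt.PN

open Polynomial Matrix
open scoped PowerSeries
open Pool.Agent.Lib.MPf11a48.GF
open Pool.Agent.Lib.MPf11a48.CG (specMonoD SpecMonoD)

theorem aMonoD : SpecMonoD :=
  specMonoD (Pool.Agent.Lib.MPf11a48.CF.specLift
    (specEst specBnd specSieg (specShid specBdd specSolv) (specZero specSolv) specSolv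
      specEval specRem) specSolv specEval)

variable (k J : ℕ)

/-- the generators as components of the solution -/
def ph : Gn k J → Mu k J
  | Sum.inl m => Sum.inl (m, 1)
  | Sum.inr s => Sum.inr s

/-- the components of the solution as polynomials in the generators -/
noncomputable def ps : Mu k J → MvPolynomial (Gn k J) ℚ
  | Sum.inl (m, i) => yp k J m i
  | Sum.inr s => MvPolynomial.X (Sum.inr s)

lemma vv_ph (i : Gn k J) : vv k J (ph k J i) = yy k J i := by
  rcases i with m | ⟨m, j⟩
  · exact pw_one m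
  · rfl

lemma ps_ph (i : Gn k J) : ps k J (ph k J i) = MvPolynomial.X i := by
  rcases i with m | s
  · simp only [ph, ps]
    unfold yp
    simp
  · rfl

lemma peval_ps (i : Mu k J) : peval (yy k J) (MvPolynomial.map (C : ℚ →+* ℚ[X]) (ps k J i)) = vv k J i := by
  rcases i with ⟨m, i⟩ | ⟨m, j⟩
  · exact peval_yp k J m i
  · simp only [ps]
    unfold peval
    rw [MvPolynomial.map_X, MvPolynomial.eval₂_X]
    rfl

/-- **algebraic independence of the values in bounded degree** -/
theorem star (n : ℕ) : ∃ C : ℕ, ∀ a b : ℤ, a ≠ 0 → (C : ℤ) * |a| ^ C ≤ b →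
    ∀ F : MvPolynomial (Gn k J) ℚ, F.totalDegree ≤ n →
      MvPolynomial.aeval (fun i => pval (yy k J i) ((a : ℂ) / b)) F = 0 → F = 0 := by
  obtain ⟨C, hC⟩ := aMonoD (Mu k J) _ _ (vv k J) (TT_ne k) (gal k J) (sol k J) (isG_vv k J) n
  refine ⟨C, fun a b ha hb F hF h0 => ?_⟩
  obtain ⟨H, hH, hHF⟩ := hC a b ha hb (MvPolynomial.rename (ph k J) F)
    ((MvPolynomial.totalDegree_rename_le _ _).trans hF) (by
      rw [MvPolynomial.aeval_rename]
      have : (fun i => pval (vv k J i) ((a : ℂ) / b)) ∘ ph k J =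
          fun i => pval (yy k J i) ((a : ℂ) / b) := by
        funext i
        simp only [Function.comp_apply, vv_ph]
      rw [this]
      exact h0)
  -- substitute
  have h1 : MvPolynomial.bind₁ (fun i => MvPolynomial.map (Polynomial.C : ℚ →+* ℚ[X]) (ps k J i)) H = 0 := by
    apply ind
    change MvPolynomial.eval₂Hom _ _ _ = 0
    rw [MvPolynomial.eval₂Hom_bind₁]
    have : (fun i => MvPolynomial.eval₂Hom (Polynomial.coeToPowerSeries.ringHom (R := ℚ)) (yy k J)
        (MvPolynomial.map (Polynomial.C : ℚ →+* ℚ[X]) (ps k J i))) = vv k J := by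
      funext i
      exact peval_ps k J i
    rw [this]
    exact hH
  have h2 := congrArg (MvPolynomial.map (Polynomial.evalRingHom ((a : ℚ) / b))) h1
  rw [MvPolynomial.map_bind₁, hHF, map_zero] at h2
  have h3 : (fun i => MvPolynomial.map (Polynomial.evalRingHom ((a : ℚ) / b))
      (MvPolynomial.map (Polynomial.C : ℚ →+* ℚ[X]) (ps k J i))) = ps k J := by
    funext i
    rw [MvPolynomial.map_map]
    have : (Polynomial.evalRingHom ((a : ℚ) / b)).comp (Polynomial.C : ℚ →+* ℚ[X]) = RingHom.id ℚ := by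
      ext x
      simp
    rw [this, MvPolynomial.map_id]
  rw [h3, MvPolynomial.bind₁_rename] at h2
  have h4 : ps k J ∘ ph k J = MvPolynomial.X := by
    funext i
    exact ps_ph k J i
  rw [h4, MvPolynomial.bind₁_X_left] at h2
  exact h2

end Pool.Agent.Lib.MP_524521_nt.PN
end
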