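import Pool.Agent.Lib.MP_524521_nt.PN.Star
import Pool.Agent.Lib.MP_f11a48_ag.GF.Eval
import Mathlib.Analysis.SpecialFunctions.Log.Deriv
import Mathlib.Analysis.Calculus.SmoothSeries

/-!
# The values of the functions: polylogarithms near one
-/

set_option autoImplicit false

namespace Pool.Agent.Lib.MP_524521_nt.PN

open Pool.Agent.Lib.MPf11a48.GF
open scoped PowerSeries
open Filter Topology

/-! ### polylogarithms -/

/-- the polylogarithm: the sum of `z^n / n^j` over `n ≥ 1` -/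
noncomputable def Li (j : ℕ) (z : ℝ) : ℝ := ∑' n : ℕ, z ^ (n + 1) / ((n : ℝ) + 1) ^ j

lemma Li_one {z : ℝ} (h : |z| < 1) : Li 1 z = -Real.log (1 - z) := by
  unfold Li
  simp only [pow_one]
  exact (Real.hasSum_pow_div_log_of_abs_lt_one h).tsum_eq

lemma Li_deriv (j : ℕ) {z : ℝ} (h0 : 0 < z) (h1 : z < 1) :
    HasDerivAt (Li (j + 1)) (Li j z / z) z := by
  obtain ⟨r, hr1, hr2⟩ := exists_between h1
  have hr0 : 0 < r := h0.trans hr1
  have hS : Summable fun n : ℕ => r ^ n := summable_geometric_of_lt_one hr0.le hr2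
  have hz : z ∈ Metric.ball (0 : ℝ) r := by
    rw [Metric.mem_ball, dist_zero_right, Real.norm_eq_abs, abs_of_pos h0]
    exact hr1
  have key := hasDerivAt_tsum_of_isPreconnected (𝕜 := ℝ) (F := ℝ)
    (g := fun (n : ℕ) (y : ℝ) => y ^ (n + 1) / ((n : ℝ) + 1) ^ (j + 1))
    (g' := fun (n : ℕ) (y : ℝ) => y ^ n / ((n : ℝ) + 1) ^ j) (u := fun n => r ^ n)
    (t := Metric.ball (0 : ℝ) r) (y₀ := z) (y := z) hS Metric.isOpen_ball
    (convex_ball (0 : ℝ) r).isPreconnected (by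
      intro n y _
      have h2 := (hasDerivAt_pow (n + 1) y).div_const (((n : ℝ) + 1) ^ (j + 1))
      refine h2.congr_deriv ?_
      have h3 : ((n : ℝ) + 1) ≠ 0 := by positivity
      rw [Nat.add_sub_cancel, pow_succ ((n : ℝ) + 1) j]
      push_cast
      field_simp) (by
      intro n y hy
      rw [Metric.mem_ball, dist_zero_right] at hy
      rw [norm_div, norm_pow]
      have h4 : (1 : ℝ) ≤ ‖((n : ℝ) + 1) ^ j‖ := by
        rw [Real.norm_eq_abs, abs_of_nonneg (by positivity)]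
        exact one_le_pow₀ (by linarith [(Nat.cast_nonneg n : (0 : ℝ) ≤ n)])
      calc ‖y‖ ^ n / ‖((n : ℝ) + 1) ^ j‖ ≤ ‖y‖ ^ n := div_le_self (by positivity) h4
        _ ≤ r ^ n := pow_le_pow_left₀ (norm_nonneg y) hy.le n) hz (by
      refine Summable.of_norm_bounded (g := fun n : ℕ => z ^ n) (summable_geometric_of_lt_one h0.le h1) ?_
      intro n
      rw [norm_div, norm_pow, Real.norm_eq_abs z, abs_of_pos h0]
      have h4 : (1 : ℝ) ≤ ‖((n : ℝ) + 1) ^ (j + 1)‖ := by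
        rw [Real.norm_eq_abs, abs_of_nonneg (by positivity)]
        exact one_le_pow₀ (by linarith [(Nat.cast_nonneg n : (0 : ℝ) ≤ n)])
      calc z ^ (n + 1) / ‖((n : ℝ) + 1) ^ (j + 1)‖ ≤ z ^ (n + 1) := div_le_self (by positivity) h4
        _ ≤ z ^ n := by
          rw [pow_succ]
          exact mul_le_of_le_one_right (by positivity) h1.le) hz
  have h5 : Li j z / z = ∑' n : ℕ, z ^ n / ((n : ℝ) + 1) ^ j := by
    unfold Li
    rw [← tsum_div_const]
    refine tsum_congr fun n => ?_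
    rw [pow_succ]
    field_simp
  rw [h5]
  exact key

lemma Li_tendsto (j : ℕ) (hj : 2 ≤ j) : Tendsto (Li j) (𝓝[<] 1) (𝓝 (Li j 1)) := by
  have hS : Summable fun n : ℕ => 1 / ((n : ℝ) + 1) ^ j := by
    have := (summable_nat_add_iff 1).2 (Real.summable_one_div_nat_pow.2 (by omega : 1 < j))
    simpa using this
  have hc : ContinuousOn (Li j) (Set.Icc 0 1) := by
    unfold Li
    refine continuousOn_tsum (fun n => by fun_prop) hS ?_
    rintro n x ⟨h0, h1⟩
    rw [norm_div, norm_pow, Real.norm_eq_abs x, abs_of_nonneg h0, Real.norm_eq_abs,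
      abs_of_nonneg (by positivity : (0 : ℝ) ≤ ((n : ℝ) + 1) ^ j)]
    have : x ^ (n + 1) ≤ 1 := pow_le_one₀ h0 h1
    gcongr
  have h1 : ContinuousWithinAt (Li j) (Set.Icc 0 1) 1 := hc 1 (by simp)
  refine h1.tendsto.mono_left ?_
  rw [← nhdsWithin_Ioo_eq_nhdsLT (show (0 : ℝ) < 1 by norm_num)]
  exact nhdsWithin_mono _ Set.Ioo_subset_Icc_self

/-! ### real values of power series -/

/-- the value of a power series at a real number -/
noncomputable def rval (s : ℚ⟦X⟧) (x : ℝ) : ℝ := ∑' n, ((PowerSeries.coeff n s : ℚ) : ℝ) * x ^ n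

lemma pval_ofReal (s : ℚ⟦X⟧) (x : ℝ) : pval s (x : ℂ) = ((rval s x : ℝ) : ℂ) := by
  unfold pval rval
  rw [Complex.ofReal_tsum]
  refine tsum_congr fun n => ?_
  push_cast
  rfl

lemma rval_zero (s : ℚ⟦X⟧) : rval s 0 = ((PowerSeries.coeff 0 s : ℚ) : ℝ) := by
  unfold rval
  rw [tsum_eq_single 0]
  · simp
  · intro n hn
    rw [zero_pow hn, mul_zero]

/-- growth of the coefficients -/
lemma G1.growth {s : ℚ⟦X⟧} (hs : G1 s) : ∃ C : ℕ, ∀ n, |PowerSeries.coeff n s| ≤ (C : ℚ) ^ (n + 1) := by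
  obtain ⟨C, hC⟩ := hs
  refine ⟨C, fun n => ?_⟩
  obtain ⟨_, _, _, _, h⟩ := hC n
  exact h ()

/-- the derivative of the value of `Jo u` -/
lemma Jo_deriv {u : ℚ⟦X⟧} {C : ℕ} (hu : ∀ n, |PowerSeries.coeff n u| ≤ (C : ℚ) ^ (n + 1))
    (hu0 : PowerSeries.constantCoeff u = 0) {x : ℝ} (hx : |x| < 1 / (2 * ((C : ℝ) + 1))) :
    HasDerivAt (rval (Jo u)) (∑' n : ℕ, ((PowerSeries.coeff n u : ℚ) : ℝ) * x ^ (n - 1)) x := by
  obtain ⟨r, hr⟩ : ∃ r : ℝ, r = 1 / (2 * ((C : ℝ) + 1)) := ⟨_, rfl⟩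
  rw [← hr] at hx
  have hr0 : 0 < r := by rw [hr]; positivity
  have hrC : ((C : ℝ) + 1) * r = 1 / 2 := by rw [hr]; field_simp
  have hu' : ∀ n, |((PowerSeries.coeff n u : ℚ) : ℝ)| ≤ ((C : ℝ) + 1) ^ (n + 1) := by
    intro n
    have h1 : ((|PowerSeries.coeff n u| : ℚ) : ℝ) ≤ (((C : ℚ) ^ (n + 1) : ℚ) : ℝ) := by
      exact_mod_cast hu n
    rw [Rat.cast_abs] at h1
    push_cast at h1
    exact h1.trans (pow_le_pow_left₀ (by positivity) (by linarith) _)
  have hu00 : ((PowerSeries.coeff 0 u : ℚ) : ℝ) = 0 := by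
    rw [PowerSeries.coeff_zero_eq_constantCoeff_apply, hu0]
    simp
  have hS : Summable fun n : ℕ => 2 * ((C : ℝ) + 1) ^ 2 * (1 / 2 : ℝ) ^ n :=
    (summable_geometric_of_lt_one (by norm_num) (by norm_num)).mul_left _
  have hb : ∀ n : ℕ, ∀ y ∈ Metric.ball (0 : ℝ) r,
      ‖((PowerSeries.coeff n u : ℚ) : ℝ) * y ^ (n - 1)‖ ≤ 2 * ((C : ℝ) + 1) ^ 2 * (1 / 2 : ℝ) ^ n := by
    intro n y hy
    rw [Metric.mem_ball, dist_zero_right] at hy
    rcases n with _ | n
    · rw [hu00, zero_mul, norm_zero]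
      positivity
    · rw [norm_mul, norm_pow, Nat.add_sub_cancel, Real.norm_eq_abs ((PowerSeries.coeff (n + 1) u : ℚ) : ℝ)]
      calc |((PowerSeries.coeff (n + 1) u : ℚ) : ℝ)| * ‖y‖ ^ n
          ≤ ((C : ℝ) + 1) ^ (n + 1 + 1) * r ^ n :=
            mul_le_mul (hu' _) (pow_le_pow_left₀ (norm_nonneg y) hy.le n) (by positivity) (by positivity)
        _ = ((C : ℝ) + 1) ^ 2 * (((C : ℝ) + 1) * r) ^ n := by rw [mul_pow]; ring
        _ = 2 * ((C : ℝ) + 1) ^ 2 * (1 / 2 : ℝ) ^ (n + 1) := by rw [hrC]; ring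
  have hxm : x ∈ Metric.ball (0 : ℝ) r := by
    rw [Metric.mem_ball, dist_zero_right, Real.norm_eq_abs]
    exact hx
  have key := hasDerivAt_tsum_of_isPreconnected (𝕜 := ℝ) (F := ℝ)
    (g := fun (n : ℕ) (y : ℝ) => ((PowerSeries.coeff n (Jo u) : ℚ) : ℝ) * y ^ n)
    (g' := fun (n : ℕ) (y : ℝ) => ((PowerSeries.coeff n u : ℚ) : ℝ) * y ^ (n - 1))
    (u := fun n => 2 * ((C : ℝ) + 1) ^ 2 * (1 / 2 : ℝ) ^ n)
    (t := Metric.ball (0 : ℝ) r) (y₀ := 0) (y := x) hS Metric.isOpen_ball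
    (convex_ball (0 : ℝ) r).isPreconnected (by
      intro n y _
      have h2 := (hasDerivAt_pow n y).const_mul (((PowerSeries.coeff n (Jo u) : ℚ) : ℝ))
      refine h2.congr_deriv ?_
      rw [coeff_Jo]
      rcases n with _ | n
      · rw [hu00]
        simp
      · push_cast
        have h3 : ((n : ℝ) + 1) ≠ 0 := by positivity
        field_simp) hb (by
      rw [Metric.mem_ball, dist_self]
      exact hr0) (by
      refine summable_of_ne_finset_zero (s := {0}) fun n hn => ?_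
      rw [Finset.mem_singleton] at hn
      rw [zero_pow hn, mul_zero]) hxm
  exact key

/-- for `x ≠ 0` -/
lemma Jo_deriv' {u : ℚ⟦X⟧} {C : ℕ} (hu : ∀ n, |PowerSeries.coeff n u| ≤ (C : ℚ) ^ (n + 1))
    (hu0 : PowerSeries.constantCoeff u = 0) {x : ℝ} (hx : |x| < 1 / (2 * ((C : ℝ) + 1))) (hx0 : x ≠ 0) :
    HasDerivAt (rval (Jo u)) (rval u x / x) x := by
  have h1 := Jo_deriv hu hu0 hx
  have h2 : rval u x / x = ∑' n : ℕ, ((PowerSeries.coeff n u : ℚ) : ℝ) * x ^ (n - 1) := by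
    unfold rval
    rw [← tsum_div_const]
    refine tsum_congr fun n => ?_
    rcases n with _ | n
    · rw [PowerSeries.coeff_zero_eq_constantCoeff_apply, hu0]
      simp
    · rw [Nat.add_sub_cancel, pow_succ]
      field_simp
  rw [h2]
  exact h1

lemma Jo_tendsto {u : ℚ⟦X⟧} {C : ℕ} (hu : ∀ n, |PowerSeries.coeff n u| ≤ (C : ℚ) ^ (n + 1))
    (hu0 : PowerSeries.constantCoeff u = 0) : Tendsto (rval (Jo u)) (𝓝[>] 0) (𝓝 0) := by
  have h1 := (Jo_deriv hu hu0 (x := 0) (by rw [abs_zero]; positivity)).continuousAt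
  have h2 : rval (Jo u) 0 = 0 := by
    rw [rval_zero, coeff_Jo]
    simp
  rw [ContinuousAt, h2] at h1
  exact h1.mono_left nhdsWithin_le_nhds

/-! ### the values of the logarithms -/

lemma rval_geo (m : ℕ) {x : ℝ} (hx : |(m : ℝ) * x| < 1) : rval (geo m) x = 1 / (1 + m * x) := by
  unfold rval
  have h1 : ∀ n : ℕ, ((PowerSeries.coeff n (geo m) : ℚ) : ℝ) * x ^ n = (-((m : ℝ) * x)) ^ n := by
    intro n
    rw [coeff_geo]
    push_cast
    rw [← mul_pow]
    congr 1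
    ring
  simp only [h1]
  rw [tsum_geometric_of_norm_lt_one (by rw [norm_neg, Real.norm_eq_abs]; exact hx), sub_neg_eq_add,
    one_div]

lemma rval_el (m : ℕ) {x : ℝ} (hx : |((m : ℝ) + 1) * x| < 1) (hx' : |(m : ℝ) * x| < 1) :
    rval (el m) x = Real.log (1 + (m + 1) * x) - Real.log (1 + m * x) := by
  have h1 := Real.hasSum_pow_div_log_of_abs_lt_one (x := -((m : ℝ) * x)) (by rw [abs_neg]; exact hx')
  have h2 := Real.hasSum_pow_div_log_of_abs_lt_one (x := -(((m : ℝ) + 1) * x)) (by rw [abs_neg]; exact hx)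
  have h3 := h1.sub h2
  simp only [sub_neg_eq_add] at h3
  have h4 : HasSum (fun n : ℕ => ((PowerSeries.coeff n (el m) : ℚ) : ℝ) * x ^ n)
      (-Real.log (1 + m * x) + Real.log (1 + (m + 1) * x)) := by
    rw [← hasSum_nat_add_iff' 1]
    rw [Finset.sum_range_one]
    have h5 : ((PowerSeries.coeff 0 (el m) : ℚ) : ℝ) * x ^ 0 = 0 := by
      unfold el
      rw [coeff_Jo]
      simp
    rw [h5, sub_zero]
    convert h3 using 1
    funext n
    unfold el
    rw [coeff_Jo, map_sub, coeff_geo, coeff_geo]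
    push_cast
    have h6 : ((n : ℝ) + 1) ≠ 0 := by positivity
    have e1 : (-((m : ℝ) * x)) ^ (n + 1) = (-(m : ℝ)) ^ (n + 1) * x ^ (n + 1) := by
      rw [← mul_pow]; congr 1; ring
    have e2 : (-(((m : ℝ) + 1) * x)) ^ (n + 1) = (-((m : ℝ) + 1)) ^ (n + 1) * x ^ (n + 1) := by
      rw [← mul_pow]; congr 1; ring
    rw [e1, e2]
    field_simp
  unfold rval
  rw [h4.tsum_eq]
  ring

end Pool.Agent.Lib.MP_524521_nt.PN
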